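import Pool.Agent.Mal3.Ring

set_option autoImplicit false

namespace Pool.Agent.Mal3

/-- the relations between the operators of three letters -/
structure Base {E : Type} [Ring E] (X Y Z p q r t u v w : E) : Prop where
  tf : ∀ (n : ℕ) (e : E), n ≠ 0 → (n : E) * e = 0 → e = 0
  hx1 : X * r + r * X = 0
  hx2 : X * q + q * X = 0
  hy1 : Y * r + r * Y = 0
  hy2 : Y * p + p * Y = 0
  hz1 : Z * p + p * Z = 0
  hz2 : Z * q + q * Z = 0
  ht1 : X * p + p * X = t
  ht2 : Y * q + q * Y = t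
  ht3 : Z * r + r * Z = t
  hr : r * (2 * r + 3 * (X * Y - Y * X)) = 0
  hp : p * (2 * p + 3 * (Y * Z - Z * Y)) = 0
  hq : q * (2 * q + 3 * (Z * X - X * Z)) = 0
  hu1 : r * (2 * q + 3 * (Z * X - X * Z)) = u
  hu2 : q * (2 * r + 3 * (X * Y - Y * X)) = -u
  hv1 : p * (2 * r + 3 * (X * Y - Y * X)) = v
  hv2 : r * (2 * p + 3 * (Y * Z - Z * Y)) = -v
  hw1 : q * (2 * p + 3 * (Y * Z - Z * Y)) = w
  hw2 : p * (2 * q + 3 * (Z * X - X * Z)) = -w
  hbx : 2 * (t * X) = (X * Y - Y * X) * q - (Z * X - X * Z) * r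
  hby : 2 * (t * Y) = (Y * Z - Z * Y) * r - (X * Y - Y * X) * p
  hbz : 2 * (t * Z) = (Z * X - X * Z) * p - (Y * Z - Z * Y) * q
  uX : u * X = 0
  vY : v * Y = 0
  wZ : w * Z = 0
  uY : u * Y + v * X = 0
  vZ : v * Z + w * Y = 0
  wX : w * X + u * Z = 0
  dq : t * (2 * q + 3 * (Z * X - X * Z)) = Z * u - X * w
  dr : t * (2 * r + 3 * (X * Y - Y * X)) = X * v - Y * u
  dp : t * (2 * p + 3 * (Y * Z - Z * Y)) = Y * w - Z * v

namespace Base

variable {E : Type} [Ring E] {X Y Z p q r t u v w : E}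

theorem two (h : Base X Y Z p q r t u v w) (e : E) (he : 2 * e = 0) : e = 0 :=
  h.tf 2 e (by norm_num) (by exact_mod_cast he)

theorem three (h : Base X Y Z p q r t u v w) (e : E) (he : 3 * e = 0) : e = 0 :=
  h.tf 3 e (by norm_num) (by exact_mod_cast he)

theorem six (h : Base X Y Z p q r t u v w) (e : E) (he : 6 * e = 0) : e = 0 :=
  h.tf 6 e (by norm_num) (by exact_mod_cast he)

/-- cyclic rotation -/
theorem rot (h : Base X Y Z p q r t u v w) : Base Y Z X q r p t v w u where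
  tf := h.tf
  hx1 := h.hy2
  hx2 := h.hy1
  hy1 := h.hz1
  hy2 := h.hz2
  hz1 := h.hx2
  hz2 := h.hx1
  ht1 := h.ht2
  ht2 := h.ht3
  ht3 := h.ht1
  hr := h.hp
  hp := h.hq
  hq := h.hr
  hu1 := h.hv1
  hu2 := h.hv2
  hv1 := h.hw1
  hv2 := h.hw2
  hw1 := h.hu1
  hw2 := h.hu2
  hbx := h.hby
  hby := h.hbz
  hbz := h.hbx
  uX := h.vY
  vY := h.wZ
  wZ := h.uX
  uY := h.vZ
  vZ := h.wX
  wX := h.uY
  dq := h.dr
  dr := h.dp
  dp := h.dq

/-- transposition of the last two letters -/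
theorem swp (h : Base X Y Z p q r t u v w) :
    Base X Z Y (-p) (-r) (-q) (-t) (-u) (-w) (-v) where
  tf := h.tf
  hx1 := by linear_combination (norm := noncomm_ring) -h.hx2
  hx2 := by linear_combination (norm := noncomm_ring) -h.hx1
  hy1 := by linear_combination (norm := noncomm_ring) -h.hz2
  hy2 := by linear_combination (norm := noncomm_ring) -h.hz1
  hz1 := by linear_combination (norm := noncomm_ring) -h.hy2
  hz2 := by linear_combination (norm := noncomm_ring) -h.hy1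
  ht1 := by linear_combination (norm := noncomm_ring) -h.ht1
  ht2 := by linear_combination (norm := noncomm_ring) -h.ht3
  ht3 := by linear_combination (norm := noncomm_ring) -h.ht2
  hr := by linear_combination (norm := noncomm_ring) h.hq
  hp := by linear_combination (norm := noncomm_ring) h.hp
  hq := by linear_combination (norm := noncomm_ring) h.hr
  hu1 := by linear_combination (norm := noncomm_ring) h.hu2
  hu2 := by linear_combination (norm := noncomm_ring) h.hu1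
  hv1 := by linear_combination (norm := noncomm_ring) h.hw2
  hv2 := by linear_combination (norm := noncomm_ring) h.hw1
  hw1 := by linear_combination (norm := noncomm_ring) h.hv2
  hw2 := by linear_combination (norm := noncomm_ring) h.hv1
  hbx := by linear_combination (norm := noncomm_ring) -h.hbx
  hby := by linear_combination (norm := noncomm_ring) -h.hbz
  hbz := by linear_combination (norm := noncomm_ring) -h.hby
  uX := by linear_combination (norm := noncomm_ring) -h.uX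
  vY := by linear_combination (norm := noncomm_ring) -h.wZ
  wZ := by linear_combination (norm := noncomm_ring) -h.vY
  uY := by linear_combination (norm := noncomm_ring) -h.wX
  vZ := by linear_combination (norm := noncomm_ring) -h.vZ
  wX := by linear_combination (norm := noncomm_ring) -h.uY
  dq := by linear_combination (norm := noncomm_ring) h.dr
  dr := by linear_combination (norm := noncomm_ring) h.dq
  dp := by linear_combination (norm := noncomm_ring) h.dp

theorem r_x2y (h : Base X Y Z p q r t u v w) :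
    r * (X * X * Y - Y * (X * X)) = 0 := by
  apply eq_of_sub_eq_zero
  apply h.three
  have hr := h.hr
  have hx1 := h.hx1
  linear_combination (norm := noncomm_ring)
    1 * (hr * (X)) - 2 * ((r) * hx1) - 3 * (hx1 * (Y * X)) + 2 * (hx1 * (r)) + 3 * (hx1 * (X *
      Y)) - 1 * ((X) * hr)

theorem c_rx2z (h : Base X Y Z p q r t u v w) :
    3 * (r * (X * X * Z - Z * (X * X))) = X * u := by
  have uX := h.uX
  have hu1 := h.hu1
  have hx2 := h.hx2
  have hx1 := h.hx1
  linear_combination (norm := noncomm_ring)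
    - 1 * (uX) - 1 * (hu1 * (X)) + 2 * ((r) * hx2) - 2 * (hx1 * (q)) + 1 * ((X) * hu1) - 3 *
      (hx1 * (Z * X)) + 3 * (hx1 * (X * Z))

theorem c_qx2y (h : Base X Y Z p q r t u v w) :
    3 * (q * (X * X * Y - Y * (X * X))) = X * u := by
  have hu2 := h.hu2
  have uX := h.uX
  have hx1 := h.hx1
  have hx2 := h.hx2
  linear_combination (norm := noncomm_ring)
    1 * (hu2 * (X)) - 1 * (uX) - 2 * ((q) * hx1) + 2 * (hx2 * (r)) - 3 * (hx2 * (Y * X)) + 3 *
      (hx2 * (X * Y)) - 1 * ((X) * hu2)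

theorem b_px2y (h : Base X Y Z p q r t u v w) :
    3 * (p * (X * X * Y - Y * (X * X))) = -(u * Y) - Y * u := by
  have hv1 := h.hv1
  have uY := h.uY
  have hx1 := h.hx1
  have ht1 := h.ht1
  have dr := h.dr
  linear_combination (norm := noncomm_ring)
    1 * (hv1 * (X)) + 1 * (uY) - 2 * ((p) * hx1) - 3 * (ht1 * (Y * X)) + 1 * (dr) + 2 * (ht1 *
      (r)) + 3 * (ht1 * (X * Y)) - 1 * ((X) * hv1)

theorem b_px2z (h : Base X Y Z p q r t u v w) :
    3 * (p * (X * X * Z - Z * (X * X))) = -(u * Z) - Z * u := by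
  have wX := h.wX
  have hw2 := h.hw2
  have hx2 := h.hx2
  have ht1 := h.ht1
  have dq := h.dq
  linear_combination (norm := noncomm_ring)
    1 * (wX) - 1 * (hw2 * (X)) + 2 * ((p) * hx2) - 3 * (ht1 * (Z * X)) - 2 * (ht1 * (q)) - 1 *
      (dq) + 1 * ((X) * hw2) + 3 * (ht1 * (X * Z))

theorem C2y (h : Base X Y Z p q r t u v w) :
    6 * (t * (X * X * Y - Y * (X * X))) = -(2 * (X * u * Y)) - (X * Y - Y * X) * u := by
  have dr := h.dr
  have hx1 := h.hx1
  have hbx := h.hbx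
  have uX := h.uX
  have uY := h.uY
  have hr := h.hr
  have hu2 := h.hu2
  linear_combination (norm := noncomm_ring)
    2 * (dr * (X)) - 4 * ((t) * hx1) - 3 * (hbx * (Y * X)) - 2 * ((Y) * uX) + 2 * ((X) * uY) + 2
      * (hbx * (r)) - 1 * ((Z * X) * hr) + 3 * (hbx * (X * Y)) - 1 * ((Y * X) * hu2) + 1 * ((X *
      Z) * hr) + 1 * ((X * Y) * hu2)

theorem C2z (h : Base X Y Z p q r t u v w) :
    6 * (t * (X * X * Z - Z * (X * X))) = -(2 * (X * u * Z)) - (X * Z - Z * X) * u := by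
  have dq := h.dq
  have hx2 := h.hx2
  have hbx := h.hbx
  have wX := h.wX
  have hq := h.hq
  have uX := h.uX
  have hu1 := h.hu1
  linear_combination (norm := noncomm_ring)
    - 2 * (dq * (X)) + 4 * ((t) * hx2) - 3 * (hbx * (Z * X)) + 2 * ((X) * wX) - 2 * (hbx * (q))
      + 1 * ((Y * X) * hq) + 3 * (hbx * (X * Z)) - 2 * ((Z) * uX) + 1 * ((Z * X) * hu1) - 1 * ((X
      * Z) * hu1) - 1 * ((X * Y) * hq)

theorem xx_rX (h : Base X Y Z p q r t u v w) :
    (3 * (r * (X * X))) * X + X * (3 * (r * (X * X))) = 0 := by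
  have hx1 := h.hx1
  linear_combination (norm := noncomm_ring)
    3 * (hx1 * (X * X))

theorem xx_rY (h : Base X Y Z p q r t u v w) :
    (3 * (r * (X * X))) * Y + Y * (3 * (r * (X * X))) = 0 := by
  have r_x2y := h.r_x2y
  have hy1 := h.hy1
  linear_combination (norm := noncomm_ring)
    3 * (r_x2y) + 3 * (hy1 * (X * X))

theorem xx_rZ (h : Base X Y Z p q r t u v w) :
    (3 * (r * (X * X))) * Z + Z * (3 * (r * (X * X))) = (3 * (t * (X * X)) + X * u) := by
  have c_rx2z := h.c_rx2z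
  have ht3 := h.ht3
  linear_combination (norm := noncomm_ring)
    1 * (c_rx2z) + 3 * (ht3 * (X * X))

theorem xx_qX (h : Base X Y Z p q r t u v w) :
    (3 * (q * (X * X))) * X + X * (3 * (q * (X * X))) = 0 := by
  have hx2 := h.hx2
  linear_combination (norm := noncomm_ring)
    3 * (hx2 * (X * X))

theorem xx_qY (h : Base X Y Z p q r t u v w) :
    (3 * (q * (X * X))) * Y + Y * (3 * (q * (X * X))) = (3 * (t * (X * X)) + X * u) := by
  have c_qx2y := h.c_qx2y
  have ht2 := h.ht2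
  linear_combination (norm := noncomm_ring)
    1 * (c_qx2y) + 3 * (ht2 * (X * X))

theorem xx_qZ (h : Base X Y Z p q r t u v w) :
    (3 * (q * (X * X))) * Z + Z * (3 * (q * (X * X))) = 0 := by
  have hx2 := h.hx2
  have hq := h.hq
  have hz2 := h.hz2
  linear_combination (norm := noncomm_ring)
    3 * (hx2 * (X * Z)) - 3 * (hx2 * (Z * X)) - 2 * (hx2 * (q)) - 1 * (hq * (X)) + 2 * ((q) *
      hx2) + 3 * (hz2 * (X * X)) + 1 * ((X) * hq)

theorem xx_pX (h : Base X Y Z p q r t u v w) :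
    (3 * (p * (X * X)) + u) * X + X * (3 * (p * (X * X)) + u) = (3 * (t * (X * X)) + X * u) := by
  have uX := h.uX
  have ht1 := h.ht1
  linear_combination (norm := noncomm_ring)
    1 * (uX) + 3 * (ht1 * (X * X))

theorem xx_pY (h : Base X Y Z p q r t u v w) :
    (3 * (p * (X * X)) + u) * Y + Y * (3 * (p * (X * X)) + u) = 0 := by
  have b_px2y := h.b_px2y
  have hy2 := h.hy2
  linear_combination (norm := noncomm_ring)
    1 * (b_px2y) + 3 * (hy2 * (X * X))

theorem xx_pZ (h : Base X Y Z p q r t u v w) :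
    (3 * (p * (X * X)) + u) * Z + Z * (3 * (p * (X * X)) + u) = 0 := by
  have b_px2z := h.b_px2z
  have hz1 := h.hz1
  linear_combination (norm := noncomm_ring)
    1 * (b_px2z) + 3 * (hz1 * (X * X))

theorem xx_tX (h : Base X Y Z p q r t u v w) :
    2 * ((3 * (t * (X * X)) + X * u) * X) = (X * Y - Y * X) * (3 * (q * (X * X))) - (Z * X - X * Z) * (3 * (r * (X * X))) := by
  have hbx := h.hbx
  have uX := h.uX
  linear_combination (norm := noncomm_ring)
    3 * (hbx * (X * X)) + 2 * ((X) * uX)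

theorem xx_tY (h : Base X Y Z p q r t u v w) :
    2 * ((3 * (t * (X * X)) + X * u) * Y) = (Y * Z - Z * Y) * (3 * (r * (X * X))) - (X * Y - Y * X) * (3 * (p * (X * X)) + u) := by
  have C2y := h.C2y
  have hby := h.hby
  linear_combination (norm := noncomm_ring)
    1 * (C2y) + 3 * (hby * (X * X))

theorem xx_tZ (h : Base X Y Z p q r t u v w) :
    2 * ((3 * (t * (X * X)) + X * u) * Z) = (Z * X - X * Z) * (3 * (p * (X * X)) + u) - (Y * Z - Z * Y) * (3 * (q * (X * X))) := by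
  have hbz := h.hbz
  have C2z := h.C2z
  linear_combination (norm := noncomm_ring)
    3 * (hbz * (X * X)) + 1 * (C2z)

theorem xz_rX (h : Base X Y Z p q r t u v w) :
    (3 * (r * (X * Z + Z * X)) + u) * X + X * (3 * (r * (X * Z + Z * X)) + u) = 0 := by
  have hx1 := h.hx1
  have uX := h.uX
  have c_rx2z := h.c_rx2z
  linear_combination (norm := noncomm_ring)
    3 * (hx1 * (Z * X)) + 1 * (uX) - 1 * (c_rx2z) + 3 * (hx1 * (X * Z))

theorem xz_rY (h : Base X Y Z p q r t u v w) :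
    (3 * (r * (X * Z + Z * X)) + u) * Y + Y * (3 * (r * (X * Z + Z * X)) + u) = 0 := by
  have hv2 := h.hv2
  have uY := h.uY
  have hr := h.hr
  have ht1 := h.ht1
  have ht3 := h.ht3
  have hx1 := h.hx1
  have dr := h.dr
  have hy1 := h.hy1
  linear_combination (norm := noncomm_ring)
    - 1 * (hv2 * (X)) + 1 * (uY) + 1 * (hr * (Z)) + 2 * ((r) * ht1) - 2 * ((r) * ht3) + 2 * (ht3
      * (r)) - 1 * ((Z) * hr) - 2 * (hx1 * (p)) - 3 * (hx1 * (Y * Z)) + 1 * (dr) - 3 * (ht3 * (Y *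
      X)) + 1 * ((X) * hv2) + 3 * (ht3 * (X * Y)) + 3 * (hy1 * (Z * X)) + 3 * (hy1 * (X * Z)) + 3
      * (hx1 * (Z * Y))

theorem xz_rZ (h : Base X Y Z p q r t u v w) :
    (3 * (r * (X * Z + Z * X)) + u) * Z + Z * (3 * (r * (X * Z + Z * X)) + u) = (3 * (t * (X * Z + Z * X)) + Z * u + X * w) := by
  have dq := h.dq
  have ht3 := h.ht3
  have hu1 := h.hu1
  have hz2 := h.hz2
  linear_combination (norm := noncomm_ring)
    - 1 * (dq) - 2 * (ht3 * (q)) + 1 * ((Z) * hu1) + 6 * (ht3 * (X * Z)) - 1 * (hu1 * (Z)) + 2 *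
      ((r) * hz2)

theorem xz_qX (h : Base X Y Z p q r t u v w) :
    (3 * (q * (X * Z + Z * X))) * X + X * (3 * (q * (X * Z + Z * X))) = 0 := by
  have hx2 := h.hx2
  have hq := h.hq
  linear_combination (norm := noncomm_ring)
    6 * (hx2 * (Z * X)) + 2 * (hx2 * (q)) - 2 * ((q) * hx2) + 1 * (hq * (X)) - 1 * ((X) * hq)

theorem xz_qY (h : Base X Y Z p q r t u v w) :
    (3 * (q * (X * Z + Z * X))) * Y + Y * (3 * (q * (X * Z + Z * X))) = (3 * (t * (X * Z + Z * X)) + Z * u + X * w) := by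
  have ht2 := h.ht2
  have hz2 := h.hz2
  have ht1 := h.ht1
  have ht3 := h.ht3
  have hu2 := h.hu2
  have wX := h.wX
  have hw1 := h.hw1
  have hx2 := h.hx2
  linear_combination (norm := noncomm_ring)
    3 * (ht2 * (Z * X)) + 3 * (ht2 * (X * Z)) + 3 * (hz2 * (X * Y)) + 2 * ((q) * ht1) - 2 * ((q)
      * ht3) + 1 * (hu2 * (Z)) - 1 * (wX) - 1 * (hw1 * (X)) - 3 * (hz2 * (Y * X)) - 3 * (hx2 * (Y
      * Z)) + 2 * (hz2 * (r)) - 2 * (hx2 * (p)) + 3 * (hx2 * (Z * Y)) - 1 * ((Z) * hu2) + 1 * ((X)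
      * hw1)

theorem xz_qZ (h : Base X Y Z p q r t u v w) :
    (3 * (q * (X * Z + Z * X))) * Z + Z * (3 * (q * (X * Z + Z * X))) = 0 := by
  have hz2 := h.hz2
  have hq := h.hq
  linear_combination (norm := noncomm_ring)
    6 * (hz2 * (X * Z)) + 2 * ((q) * hz2) - 1 * (hq * (Z)) - 2 * (hz2 * (q)) + 1 * ((Z) * hq)

theorem xz_pX (h : Base X Y Z p q r t u v w) :
    (3 * (p * (X * Z + Z * X)) + w) * X + X * (3 * (p * (X * Z + Z * X)) + w) = (3 * (t * (X * Z + Z * X)) + Z * u + X * w) := by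
  have hw2 := h.hw2
  have hx2 := h.hx2
  have dq := h.dq
  have ht1 := h.ht1
  linear_combination (norm := noncomm_ring)
    1 * (hw2 * (X)) - 2 * ((p) * hx2) + 1 * (dq) + 2 * (ht1 * (q)) + 6 * (ht1 * (Z * X)) - 1 *
      ((X) * hw2)

theorem xz_pY (h : Base X Y Z p q r t u v w) :
    (3 * (p * (X * Z + Z * X)) + w) * Y + Y * (3 * (p * (X * Z + Z * X)) + w) = 0 := by
  have vZ := h.vZ
  have hv1 := h.hv1
  have ht1 := h.ht1
  have dp := h.dp
  have ht3 := h.ht3
  have hp := h.hp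
  have hz1 := h.hz1
  have hy2 := h.hy2
  linear_combination (norm := noncomm_ring)
    1 * (vZ) + 1 * (hv1 * (Z)) + 3 * (ht1 * (Z * Y)) - 2 * (ht1 * (p)) - 1 * (dp) - 3 * (ht1 *
      (Y * Z)) - 2 * ((p) * ht3) + 2 * ((p) * ht1) - 1 * (hp * (X)) - 3 * (hz1 * (Y * X)) + 3 *
      (hy2 * (Z * X)) - 1 * ((Z) * hv1) + 2 * (hz1 * (r)) + 3 * (hz1 * (X * Y)) + 3 * (hy2 * (X *
      Z)) + 1 * ((X) * hp)

theorem xz_pZ (h : Base X Y Z p q r t u v w) :
    (3 * (p * (X * Z + Z * X)) + w) * Z + Z * (3 * (p * (X * Z + Z * X)) + w) = 0 := by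
  have wZ := h.wZ
  have hz1 := h.hz1
  have hw2 := h.hw2
  have hz2 := h.hz2
  linear_combination (norm := noncomm_ring)
    2 * (wZ) + 6 * (hz1 * (X * Z)) + 1 * ((Z) * hw2) - 1 * (hw2 * (Z)) + 2 * ((p) * hz2) - 2 *
      (hz1 * (q))

theorem xz_tX (h : Base X Y Z p q r t u v w) :
    2 * ((3 * (t * (X * Z + Z * X)) + Z * u + X * w) * X) = (X * Y - Y * X) * (3 * (q * (X * Z + Z * X))) - (Z * X - X * Z) * (3 * (r * (X * Z + Z * X)) + u) := by
  have C2z := h.C2z
  have hu1 := h.hu1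
  have hx2 := h.hx2
  have dq := h.dq
  have hbx := h.hbx
  have hq := h.hq
  have wX := h.wX
  linear_combination (norm := noncomm_ring)
    - 2 * (C2z) + 1 * ((Z * X) * hu1) - 1 * ((X * Z) * hu1) + 4 * ((t) * hx2) - 2 * (dq * (X)) -
      2 * (hbx * (q)) + 1 * ((Y * X) * hq) - 1 * ((X * Y) * hq) + 6 * (hbx * (X * Z)) + 4 * ((X) *
      wX)

theorem xz_tY (h : Base X Y Z p q r t u v w) :
    2 * ((3 * (t * (X * Z + Z * X)) + Z * u + X * w) * Y) = (Y * Z - Z * Y) * (3 * (r * (X * Z + Z * X)) + u) - (X * Y - Y * X) * (3 * (p * (X * Z + Z * X)) + w) := by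
  have hbz := h.hbz
  have hbx := h.hbx
  have dr := h.dr
  have ht1 := h.ht1
  have ht3 := h.ht3
  have hby := h.hby
  have hv2 := h.hv2
  have hv1 := h.hv1
  have dp := h.dp
  have wX := h.wX
  have uY := h.uY
  have vZ := h.vZ
  have hu2 := h.hu2
  have hw1 := h.hw1
  linear_combination (norm := noncomm_ring)
    3 * (hbz * (X * Y)) + 3 * (hbx * (Z * Y)) + 2 * (dr * (Z)) + 4 * ((t) * ht1) - 4 * ((t) *
      ht3) + 2 * (hbz * (r)) + 3 * (hby * (X * Z)) - 2 * (hbx * (p)) + 1 * ((Z * X) * hv2) + 1 *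
      ((Z * X) * hv1) - 3 * (hbx * (Y * Z)) - 3 * (hbz * (Y * X)) - 2 * (dp * (X)) - 2 * ((Y) *
      wX) + 3 * (hby * (Z * X)) + 2 * ((Z) * uY) + 2 * ((X) * vZ) - 1 * ((X * Z) * hv2) - 1 * ((X
      * Z) * hv1) + 1 * ((Z * Y) * hu2) - 1 * ((Y * Z) * hu2) + 1 * ((Y * X) * hw1) - 1 * ((X * Y)
      * hw1)

theorem xz_tZ (h : Base X Y Z p q r t u v w) :
    2 * ((3 * (t * (X * Z + Z * X)) + Z * u + X * w) * Z) = (Z * X - X * Z) * (3 * (p * (X * Z + Z * X)) + w) - (Y * Z - Z * Y) * (3 * (q * (X * Z + Z * X))) := by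
  have hbz := h.hbz
  have dq := h.dq
  have hz2 := h.hz2
  have hq := h.hq
  have hw2 := h.hw2
  have wZ := h.wZ
  linear_combination (norm := noncomm_ring)
    6 * (hbz * (X * Z)) - 2 * (dq * (Z)) + 4 * ((t) * hz2) - 2 * (hbz * (q)) - 1 * ((Z * Y) *
      hq) + 1 * ((Y * Z) * hq) - 1 * ((Z * X) * hw2) + 4 * ((X) * wZ) + 1 * ((X * Z) * hw2)

theorem star_r (h : Base X Y Z p q r t u v w) :
    6 * (r * (q * X + Z * X * X - 2 * (X * Z * X) + X * X * Z)) = 2 * ((3 * (r * (X * X))) * Z) - (3 * (r * (X * Z + Z * X)) + u) * X := by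
  have hu1 := h.hu1
  have uX := h.uX
  linear_combination (norm := noncomm_ring)
    3 * (hu1 * (X)) + 4 * (uX)

theorem star_q (h : Base X Y Z p q r t u v w) :
    6 * (q * (q * X + Z * X * X - 2 * (X * Z * X) + X * X * Z)) = 2 * ((3 * (q * (X * X))) * Z) - (3 * (q * (X * Z + Z * X))) * X := by
  have hq := h.hq
  linear_combination (norm := noncomm_ring)
    3 * (hq * (X))

theorem star_p (h : Base X Y Z p q r t u v w) :
    6 * (p * (q * X + Z * X * X - 2 * (X * Z * X) + X * X * Z)) = 2 * ((3 * (p * (X * X)) + u) * Z) - (3 * (p * (X * Z + Z * X)) + w) * X := by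
  have wX := h.wX
  have hw2 := h.hw2
  linear_combination (norm := noncomm_ring)
    - 2 * (wX) + 3 * (hw2 * (X))

theorem star_t (h : Base X Y Z p q r t u v w) :
    6 * (t * (q * X + Z * X * X - 2 * (X * Z * X) + X * X * Z)) = 2 * ((3 * (t * (X * X)) + X * u) * Z) - (3 * (t * (X * Z + Z * X)) + Z * u + X * w) * X := by
  have dq := h.dq
  have uX := h.uX
  have wX := h.wX
  linear_combination (norm := noncomm_ring)
    3 * (dq * (X)) + 4 * ((Z) * uX) - 2 * ((X) * wX)

end Base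
end Pool.Agent.Mal3
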