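import Pool.Agent.Mal3.Tower

set_option autoImplicit false
set_option linter.unusedSectionVars false

namespace Pool.Agent.Mal3

section clos

variable {F E : Type} [Field F] [CharZero F] [Ring E] [Module F E] [IsScalarTower F E E]

/-- the seven right factors -/
def Vv (X Y Z : E) : Fin 7 → E
  | 0 => 1
  | 1 => X
  | 2 => Y
  | 3 => Z
  | 4 => X * Y - Y * X
  | 5 => Y * Z - Z * Y
  | 6 => Z * X - X * Z

/-- closure of the normal forms under right multiplication -/
theorem clos (X Y Z : E) (C : Set E) (hC : ∀ c ∈ C, ∀ m, c * Pv X Y Z m ∈ C)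
    (hS : ∀ c ∈ C, c * Sv X Y Z ∈ C)
    (kL : ∀ c ∈ C, ∀ (m : Fin 6) (j : Fin 3),
      c * (Pv X Y Z m * Lv X Y Z j - Lv X Y Z j * Pv X Y Z m) = 0) :
    ∀ e ∈ Submodule.span F {e : E | ∃ c ∈ C, ∃ k, c * Vv X Y Z k = e}, ∀ i,
      e * Lv X Y Z i ∈ Submodule.span F {e : E | ∃ c ∈ C, ∃ k, c * Vv X Y Z k = e} := by
  set S := Submodule.span F {e : E | ∃ c ∈ C, ∃ k, c * Vv X Y Z k = e} with hSdef
  have mem : ∀ c ∈ C, ∀ k, c * Vv X Y Z k ∈ S := fun c hc k =>
    Submodule.subset_span ⟨c, hc, k, rfl⟩
  have two : ∀ e : E, e + e ∈ S → e ∈ S := by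
    intro e he
    rw [← two_smul F] at he
    exact (Submodule.smul_mem_iff S two_ne_zero).mp he
  have three : ∀ e : E, e + e + e ∈ S → e ∈ S := by
    intro e he
    have : e + e + e = (3 : F) • e := by
      have h3 : (3 : F) = 1 + 1 + 1 := by norm_num
      rw [h3, add_smul, add_smul, one_smul]
    rw [this] at he
    exact (Submodule.smul_mem_iff S three_ne_zero).mp he
  intro e he i
  induction he using Submodule.span_induction with
  | zero => rw [zero_mul]; exact Submodule.zero_mem _
  | add x y _ _ hx hy => rw [add_mul]; exact Submodule.add_mem _ hx hy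
  | smul c x _ hx => rw [smul_mul_assoc]; exact Submodule.smul_mem _ _ hx
  | mem x hx =>
    obtain ⟨c, hc, k, rfl⟩ := hx
    have k0 := kL c hc
    have P0 := mem _ (hC c hc 0)
    have P1 := mem _ (hC c hc 1)
    have P2 := mem _ (hC c hc 2)
    have P3 := mem _ (hC c hc 3)
    have P4 := mem _ (hC c hc 4)
    have P5 := mem _ (hC c hc 5)
    have S0 := mem _ (hS c hc) 0
    have V := mem c hc
    match k, i with
    | 0, 0 => have e := V 1; simpa only [Vv, Lv, mul_one] using e
    | 0, 1 => have e := V 2; simpa only [Vv, Lv, mul_one] using e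
    | 0, 2 => have e := V 3; simpa only [Vv, Lv, mul_one] using e
    | 1, 0 =>
      have e := P0 0
      simp only [Vv, Lv, Pv, mul_one] at e ⊢
      rwa [mul_assoc]
    | 2, 1 =>
      have e := P1 0
      simp only [Vv, Lv, Pv, mul_one] at e ⊢
      rwa [mul_assoc]
    | 3, 2 =>
      have e := P2 0
      simp only [Vv, Lv, Pv, mul_one] at e ⊢
      rwa [mul_assoc]
    | 1, 1 =>
      apply two
      have e := Submodule.add_mem _ (V 4) (P3 0)
      simp only [Vv, Lv, Pv, mul_one] at e ⊢
      convert e using 1
      noncomm_ring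
    | 1, 2 =>
      apply two
      have e := Submodule.sub_mem _ (P5 0) (V 6)
      simp only [Vv, Lv, Pv, mul_one] at e ⊢
      convert e using 1
      noncomm_ring
    | 2, 0 =>
      apply two
      have e := Submodule.sub_mem _ (P3 0) (V 4)
      simp only [Vv, Lv, Pv, mul_one] at e ⊢
      convert e using 1
      noncomm_ring
    | 2, 2 =>
      apply two
      have e := Submodule.add_mem _ (P4 0) (V 5)
      simp only [Vv, Lv, Pv, mul_one] at e ⊢
      convert e using 1
      noncomm_ring
    | 3, 0 =>
      apply two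
      have e := Submodule.add_mem _ (P5 0) (V 6)
      simp only [Vv, Lv, Pv, mul_one] at e ⊢
      convert e using 1
      noncomm_ring
    | 3, 1 =>
      apply two
      have e := Submodule.sub_mem _ (P4 0) (V 5)
      simp only [Vv, Lv, Pv, mul_one] at e ⊢
      convert e using 1
      noncomm_ring
    | 4, 0 =>
      have e := Submodule.sub_mem _ (P3 1) (Submodule.add_mem _ (P0 2) (P0 2))
      have k1 := k0 0 1
      simp only [Vv, Lv, Pv, mul_one] at e k1 ⊢
      convert e using 1
      linear_combination (norm := noncomm_ring) 2 * k1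
    | 4, 1 =>
      have e := Submodule.sub_mem _ (Submodule.add_mem _ (P1 1) (P1 1)) (P3 2)
      have k1 := k0 1 0
      simp only [Vv, Lv, Pv, mul_one] at e k1 ⊢
      convert e using 1
      linear_combination (norm := noncomm_ring) -2 * k1
    | 4, 2 =>
      apply three
      have e := Submodule.sub_mem _ (Submodule.add_mem _ S0
        (Submodule.add_mem _ (Submodule.add_mem _ (P4 1) (P4 1)) (P4 1)))
        (Submodule.add_mem _ (Submodule.add_mem _ (P5 2) (P5 2)) (P5 2))
      have k1 := k0 4 0
      have k2 := k0 5 1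
      simp only [Vv, Lv, Pv, Sv, mul_one] at e k1 k2 ⊢
      convert e using 1
      linear_combination (norm := noncomm_ring) -2 * k1 + 2 * k2
    | 5, 1 =>
      have e := Submodule.sub_mem _ (P4 2) (Submodule.add_mem _ (P1 3) (P1 3))
      have k1 := k0 1 2
      simp only [Vv, Lv, Pv, mul_one] at e k1 ⊢
      convert e using 1
      linear_combination (norm := noncomm_ring) 2 * k1
    | 5, 2 =>
      have e := Submodule.sub_mem _ (Submodule.add_mem _ (P2 2) (P2 2)) (P4 3)
      have k1 := k0 2 1
      simp only [Vv, Lv, Pv, mul_one] at e k1 ⊢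
      convert e using 1
      linear_combination (norm := noncomm_ring) -2 * k1
    | 5, 0 =>
      apply three
      have e := Submodule.sub_mem _ (Submodule.add_mem _ S0
        (Submodule.add_mem _ (Submodule.add_mem _ (P5 2) (P5 2)) (P5 2)))
        (Submodule.add_mem _ (Submodule.add_mem _ (P3 3) (P3 3)) (P3 3))
      have k1 := k0 5 1
      have k2 := k0 3 2
      simp only [Vv, Lv, Pv, Sv, mul_one] at e k1 k2 ⊢
      convert e using 1
      linear_combination (norm := noncomm_ring) -2 * k1 + 2 * k2
    | 6, 2 =>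
      have e := Submodule.sub_mem _ (P5 3) (Submodule.add_mem _ (P2 1) (P2 1))
      have k1 := k0 2 0
      simp only [Vv, Lv, Pv, mul_one] at e k1 ⊢
      convert e using 1
      linear_combination (norm := noncomm_ring) 2 * k1
    | 6, 0 =>
      have e := Submodule.sub_mem _ (Submodule.add_mem _ (P0 3) (P0 3)) (P5 1)
      have k1 := k0 0 2
      simp only [Vv, Lv, Pv, mul_one] at e k1 ⊢
      convert e using 1
      linear_combination (norm := noncomm_ring) -2 * k1
    | 6, 1 =>
      apply three
      have e := Submodule.sub_mem _ (Submodule.add_mem _ S0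
        (Submodule.add_mem _ (Submodule.add_mem _ (P3 3) (P3 3)) (P3 3)))
        (Submodule.add_mem _ (Submodule.add_mem _ (P4 1) (P4 1)) (P4 1))
      have k1 := k0 3 2
      have k2 := k0 4 0
      simp only [Vv, Lv, Pv, Sv, mul_one] at e k1 k2 ⊢
      convert e using 1
      linear_combination (norm := noncomm_ring) -2 * k1 + 2 * k2

end clos

end Pool.Agent.Mal3
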