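import Pool.Agent.Mal.CpFinal

set_option autoImplicit false
set_option linter.unusedSectionVars false

namespace Pool.Agent.Mal.CpAlg

variable {R V : Type} [CommRing R] [AddCommGroup V] [Module R V] (C : CpAlg R V)

theorem form_j_left (a b c : V) : C.form (C.j a b c) a = 0 := by
  unfold j
  simp only [map_sub, map_add, map_smul, LinearMap.sub_apply, LinearMap.add_apply,
    LinearMap.smul_apply, smul_eq_mul]
  have h1 : C.form (C.mul (C.mul a b) c) a = C.form (C.mul a b) (C.mul c a) := C.form_inv _ _ _
  rw [h1]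
  have h2 : C.form (C.mul a b) (C.mul c a) = C.form b (C.mul (C.mul c a) a) := by
    rw [C.anti a b, map_neg, LinearMap.neg_apply, C.form_inv, C.anti a (C.mul c a), map_neg,
      neg_neg]
  rw [h2]
  have h3 : C.mul (C.mul c a) a = C.form a c • a - C.form a a • c := by
    rw [C.anti (C.mul c a) a, C.anti c a, map_neg, neg_neg, C.cp]
  rw [h3, map_sub, map_smul, map_smul, smul_eq_mul, smul_eq_mul, C.form_symm b a]
  ring

theorem form_j_mid (a b c : V) : C.form (C.j a b c) b = 0 := by
  rw [C.j_cyc b c a, C.form_j_left]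

theorem form_j_right (a b c : V) : C.form (C.j a b c) c = 0 := by
  rw [← C.j_cyc a b c, C.form_j_left]

theorem form_j_mul (a b c : V) : C.form (C.j a b c) (C.mul a b) = 0 := by
  unfold j
  simp only [map_sub, map_add, map_smul, LinearMap.sub_apply, LinearMap.add_apply,
    LinearMap.smul_apply, smul_eq_mul]
  rw [C.form_symm b (C.mul a b), C.form_symm a (C.mul a b), C.form_mul_left, C.form_mul_right,
    C.form_mul_left]
  ring

theorem form_j_mul' (a b c : V) : C.form (C.j a b c) (C.mul b c) = 0 := by
  rw [C.j_cyc b c a, C.form_j_mul]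

theorem form_j_mul'' (a b c : V) : C.form (C.j a b c) (C.mul c a) = 0 := by
  rw [← C.j_cyc a b c, C.form_j_mul]

theorem w_anti (w x y : V) (hx : C.form w x = 0) (hy : C.form w y = 0) :
    C.mul (C.mul w x) y + C.mul (C.mul w y) x = (-2 * C.form x y) • w := by
  rw [C.mul_mul_right, C.mul_mul_right, hx, hy, C.j_swap23 w x y, C.form_symm y x]
  module

theorem w_comm (w x y : V) (hx : C.form w x = 0) (hy : C.form w y = 0) :
    C.mul (C.mul w x) y - C.mul (C.mul w y) x = (2 : R) • C.j w x y := by
  rw [C.mul_mul_right, C.mul_mul_right, hx, hy, C.j_swap23 w x y, C.form_symm y x]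
  module

theorem w_j [Invertible (2 : R)] (w x y z : V) (hz : C.form w z = 0)
    (hxz : C.form w (C.mul z x) = 0) (hyz : C.form w (C.mul y z) = 0) :
    C.mul (C.j w x y) z = C.form (C.mul x y) z • w - C.form y z • C.mul w x
      + C.form x z • C.mul w y := by
  rw [C.anti, C.I4 z w x y]
  have h1 : C.form (C.mul w x) z = 0 := by
    rw [C.form_inv, C.anti x z, map_neg, hxz, neg_zero]
  have h2 : C.form (C.mul y w) z = 0 := by
    rw [C.phi_213 w y z, C.form_inv, hyz, neg_zero]
  rw [h1, h2, hz, C.anti y w]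
  module

theorem w_S [Invertible (2 : R)] (a b c w : V) (hw : w = C.j a b c) :
    (C.mul (C.mul (C.mul w a) b) c - C.mul (C.mul (C.mul w a) c) b)
    + (C.mul (C.mul (C.mul w b) c) a - C.mul (C.mul (C.mul w b) a) c)
    + (C.mul (C.mul (C.mul w c) a) b - C.mul (C.mul (C.mul w c) b) a)
      = (6 * C.form (C.mul a b) c) • w := by
  have ha : C.form w a = 0 := by rw [hw, C.form_j_left]
  have hb : C.form w b = 0 := by rw [hw, C.form_j_mid]
  have hc : C.form w c = 0 := by rw [hw, C.form_j_right]
  have hab : C.form w (C.mul a b) = 0 := by rw [hw, C.form_j_mul]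
  have hbc : C.form w (C.mul b c) = 0 := by rw [hw, C.form_j_mul']
  have hca : C.form w (C.mul c a) = 0 := by rw [hw, C.form_j_mul'']
  have e1 := congrArg (fun t => C.mul t c) (C.w_comm w a b ha hb)
  have e2 := congrArg (fun t => C.mul t a) (C.w_comm w b c hb hc)
  have e3 := congrArg (fun t => C.mul t b) (C.w_comm w c a hc ha)
  simp only [map_sub, map_smul, LinearMap.sub_apply, LinearMap.smul_apply] at e1 e2 e3
  rw [C.w_j w a b c hc hca hbc] at e1
  rw [C.w_j w b c a ha hab hca] at e2
  rw [C.w_j w c a b hb hbc hab] at e3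
  rw [C.phi_231 a b c, C.form_symm c a, C.form_symm b a] at e2
  rw [C.phi_312 a b c, C.form_symm c b] at e3
  linear_combination (norm := module) e1 + e2 + e3

end Pool.Agent.Mal.CpAlg
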