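import Pool.Agent.Mal3.Op
import Pool.Agent.MAL.TStar

set_option autoImplicit false
set_option linter.unusedSectionVars false

namespace Pool.Agent.Mal3

open Pool.Agent.MAL

/-- representation with elements: the algebra acts on itself from the right inside a ring -/
structure ERep (M E : Type) [NonUnitalNonAssocRing M] [Ring E] extends Rep M E where
  el : M →+ E
  el_mul : ∀ c a, el c * R a = el (c * a)
  el_inj : ∀ c, el c = 0 → c = 0

section concrete

variable (F : Type) [Field F] [CharZero F] (M : Type) [NonUnitalNonAssocRing M] [Module F M]
  [IsScalarTower F M M] [SMulCommClass F M M]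

/-- the ring of operators acting from the right on `F × M` -/
abbrev OpR := (Module.End F (F × M))ᵐᵒᵖ

variable {M}

/-- right multiplication -/
def Rf (a : M) : Module.End F (F × M) :=
  (LinearMap.inr F F M) ∘ₗ (LinearMap.mulRight F a) ∘ₗ (LinearMap.snd F F M)

/-- element as operator -/
def ef (c : M) : Module.End F (F × M) :=
  (LinearMap.inr F F M) ∘ₗ (LinearMap.toSpanSingleton F M c) ∘ₗ (LinearMap.fst F F M)

theorem Rf_apply (a : M) (z : F × M) : Rf F a z = (0, z.2 * a) := by
  simp [Rf]

theorem ef_apply (a : M) (z : F × M) : ef F a z = (0, z.1 • a) := by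
  simp [ef]

/-- the concrete representation -/
def erep (h : IsMalcev M) : ERep M (OpR F M) where
  R :=
    { toFun := fun a => MulOpposite.op (Rf F a)
      map_zero' := by
        apply MulOpposite.unop_injective
        ext z <;> simp [Rf_apply]
      map_add' := by
        intro a b
        apply MulOpposite.unop_injective
        ext z <;> simp [Rf_apply, mul_add] }
  anti := fun a b => h.anti b a
  u2 := by
    intro a b
    apply MulOpposite.unop_injective
    apply LinearMap.ext
    rintro ⟨t, v⟩
    have h1 := h.mal a b v
    simp only [AddMonoidHom.coe_mk, ZeroHom.coe_mk, MulOpposite.unop_add, MulOpposite.unop_mul,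
      MulOpposite.unop_op, MulOpposite.unop_sub, MulOpposite.unop_zero, LinearMap.add_apply,
      LinearMap.sub_apply, Module.End.mul_apply, Rf_apply, LinearMap.zero_apply, Prod.mk_add_mk,
      Prod.mk_sub_mk, Prod.mk_eq_zero, add_zero, sub_self, true_and]
    rw [h.anti (v * a) (a * b), h.anti v a, h.anti v (a * b)] at *
    simp only [h.anti v b, neg_mul, mul_neg, neg_neg] at *
    rw [h1]
    simp only [sub_mul, neg_mul]
    abel
  u3 := by
    intro a b c
    apply MulOpposite.unop_injective
    apply LinearMap.ext
    rintro ⟨t, v⟩
    have h1 := h.sagle F v a b c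
    have h2 := h.sagle F v b a c
    simp only [AddMonoidHom.coe_mk, ZeroHom.coe_mk, MulOpposite.unop_add, MulOpposite.unop_mul,
      MulOpposite.unop_op, MulOpposite.unop_sub, MulOpposite.unop_ofNat, LinearMap.add_apply,
      LinearMap.sub_apply, Module.End.mul_apply, Rf_apply, Prod.mk_add_mk,
      Prod.mk_sub_mk, sub_self, Module.End.ofNat_apply, two_smul, add_zero]
    congr 1
    have e1 := sub_eq_zero.mpr h1
    have e2 := sub_eq_zero.mpr h2
    rw [← sub_eq_zero]
    have key : ∀ A B C : M, A = 0 → B = 0 → C = A - B → C = 0 := by
      intro A B C hA hB hC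
      rw [hC, hA, hB]; simp
    refine key _ _ _ e1 e2 ?_
    simp only [sub_mul, add_mul, h.anti v (a * b * c), h.anti v (b * c), h.anti v (a * b),
      h.anti v (a * c), h.anti b a, h.anti c a, h.anti c v, neg_mul, mul_neg]
    abel
  tf := by
    intro n e hn he
    apply MulOpposite.unop_injective
    apply LinearMap.ext
    intro z
    have h1 : MulOpposite.unop ((n : OpR F M) * e) z = 0 := by rw [he]; rfl
    rw [MulOpposite.unop_mul, MulOpposite.unop_natCast, Module.End.mul_apply] at h1
    have h2 : ((n : Module.End F (F × M)) z) = (n : F) • z := by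
      rw [Module.End.natCast_apply, Nat.cast_smul_eq_nsmul]
    rw [h2, map_smul, smul_eq_zero] at h1
    rcases h1 with h1 | h1
    · exact absurd (by exact_mod_cast h1) hn
    · exact h1
  el :=
    { toFun := fun a => MulOpposite.op (ef F a)
      map_zero' := by
        apply MulOpposite.unop_injective
        ext z <;> simp [ef_apply]
      map_add' := by
        intro a b
        apply MulOpposite.unop_injective
        ext z <;> simp [ef_apply, smul_add] }
  el_mul := by
    intro c a
    apply MulOpposite.unop_injective
    apply LinearMap.ext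
    rintro ⟨t, v⟩
    simp [Rf_apply, ef_apply, smul_mul_assoc]
  el_inj := by
    intro c hc
    have := congrArg (fun g => (MulOpposite.unop g (1, (0 : M))).2) hc
    simpa [ef_apply] using this

end concrete
end Pool.Agent.Mal3
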