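import Mathlib

set_option autoImplicit false
set_option linter.unusedSectionVars false

namespace Pool.Agent.Mal3

/-- injectivity on the span of the normal forms -/
theorem fin_inj {F K A V : Type} [Field F] [Field K] [Algebra F K] [AddCommGroup A] [Module F A]
    [AddCommGroup V] [Module K V] [Module F V] [IsScalarTower F K V] (π : A →ₗ[F] V)
    (c : Fin 7 → K) (hc : AlgebraicIndependent F c) (wv : V) (Vb : Fin 7 → V →ₗ[K] V)
    (hV : LinearIndependent K (fun k => Vb k wv)) (Va : Fin 7 → A →ₗ[F] A)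
    (hVa : ∀ k a, π (Va k a) = Vb k (π a)) (wm : (Fin 7 →₀ ℕ) → A) (ε : Fin 7 → F)
    (hε : ∀ i, ε i ≠ 0) (hw : ∀ m, π (wm m) = (∏ i, (algebraMap F K (ε i) * c i) ^ m i) • wv) (u : A)
    (hu : u ∈ Submodule.span F (Set.range (fun p : (Fin 7 →₀ ℕ) × Fin 7 => Va p.2 (wm p.1))))
    (h0 : π u = 0) : u = 0 := by
  have h1 : LinearIndependent F (fun m : Fin 7 →₀ ℕ => ∏ i, c i ^ m i) := by
    have hinj : Function.Injective (MvPolynomial.aeval c : MvPolynomial (Fin 7) F →ₐ[F] K) := hc
    have hb := (MvPolynomial.basisMonomials (Fin 7) F).linearIndependent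
    have := hb.map' (MvPolynomial.aeval c : MvPolynomial (Fin 7) F →ₐ[F] K).toLinearMap
      (LinearMap.ker_eq_bot.mpr hinj)
    have e : (fun m : Fin 7 →₀ ℕ => ∏ i, c i ^ m i)
        = (MvPolynomial.aeval c : MvPolynomial (Fin 7) F →ₐ[F] K).toLinearMap
          ∘ (MvPolynomial.basisMonomials (Fin 7) F) := by
      funext m
      rw [Function.comp_apply, MvPolynomial.coe_basisMonomials]
      change _ = MvPolynomial.aeval c (MvPolynomial.monomial m 1)
      rw [MvPolynomial.aeval_monomial, map_one, one_mul, Finsupp.prod_fintype]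
      intro i; exact pow_zero _
    rw [e]
    exact this
  have h1' : LinearIndependent F (fun m : Fin 7 →₀ ℕ => ∏ i, (algebraMap F K (ε i) * c i) ^ m i) := by
    have h := h1.units_smul (fun m : Fin 7 →₀ ℕ => Units.mk0 (∏ i, ε i ^ m i)
      (Finset.prod_ne_zero_iff.mpr (fun i _ => pow_ne_zero _ (hε i))))
    have e : (fun m : Fin 7 →₀ ℕ => ∏ i, (algebraMap F K (ε i) * c i) ^ m i)
        = (fun m : Fin 7 →₀ ℕ => Units.mk0 (∏ i, ε i ^ m i)
          (Finset.prod_ne_zero_iff.mpr (fun i _ => pow_ne_zero _ (hε i)))) •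
          (fun m : Fin 7 →₀ ℕ => ∏ i, c i ^ m i) := by
      funext m
      rw [Pi.smul_apply', Units.smul_def, Units.val_mk0, Algebra.smul_def, map_prod,
        ← Finset.prod_mul_distrib]
      apply Finset.prod_congr rfl
      intro i _
      rw [mul_pow, map_pow]
    rw [e]
    exact h
  have h2 : LinearIndependent F (fun p : (Fin 7 →₀ ℕ) × Fin 7 =>
      (∏ i, (algebraMap F K (ε i) * c i) ^ p.1 i) • Vb p.2 wv) := linearIndependent_smul h1' hV
  rw [Finsupp.mem_span_range_iff_exists_finsupp] at hu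
  obtain ⟨l, rfl⟩ := hu
  have h3 : Finsupp.linearCombination F (fun p : (Fin 7 →₀ ℕ) × Fin 7 =>
      (∏ i, (algebraMap F K (ε i) * c i) ^ p.1 i) • Vb p.2 wv) l = 0 := by
    rw [← h0, Finsupp.linearCombination_apply, Finsupp.sum, Finsupp.sum, map_sum]
    apply Finset.sum_congr rfl
    intro p _
    rw [map_smul, hVa, hw, map_smul]
  have h4 : l = 0 := (linearIndependent_iff.mp h2) l h3
  rw [h4, Finsupp.sum_zero_index]

end Pool.Agent.Mal3
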