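import Pool.Agent.MAL.TStar

set_option autoImplicit false
set_option linter.unusedSectionVars false

namespace Pool.Agent.Mal3

open Pool.Agent.MAL

variable (F : Type) [Field F]

/-- identities of all Malcev algebras in three variables -/
def I3 : Submodule F (FreeNonUnitalNonAssocAlgebra F (Fin 3)) where
  carrier := {a | ∀ (M : Type) [NonUnitalNonAssocRing M] [Module F M] [IsScalarTower F M M]
    [SMulCommClass F M M], IsMalcev M → ∀ v : Fin 3 → M,
      FreeNonUnitalNonAssocAlgebra.lift F v a = 0}
  add_mem' := by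
    intro a b ha hb M _ _ _ _ hM v
    rw [map_add, ha M hM v, hb M hM v, add_zero]
  zero_mem' := by
    intro M _ _ _ _ hM v
    rw [map_zero]
  smul_mem' := by
    intro c a ha M _ _ _ _ hM v
    rw [map_smul, ha M hM v, smul_zero]

/-- the free Malcev algebra on three generators -/
def A3 : Type := FreeNonUnitalNonAssocAlgebra F (Fin 3) ⧸ I3 F

noncomputable instance : AddCommGroup (A3 F) :=
  inferInstanceAs (AddCommGroup (FreeNonUnitalNonAssocAlgebra F (Fin 3) ⧸ I3 F))

noncomputable instance : Module F (A3 F) :=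
  inferInstanceAs (Module F (FreeNonUnitalNonAssocAlgebra F (Fin 3) ⧸ I3 F))

/-- projection, linear -/
noncomputable def piL : FreeNonUnitalNonAssocAlgebra F (Fin 3) →ₗ[F] A3 F := (I3 F).mkQ

theorem piL_surj : Function.Surjective (piL F) := (I3 F).mkQ_surjective

theorem piL_eq_zero (a : FreeNonUnitalNonAssocAlgebra F (Fin 3)) :
    piL F a = 0 ↔ a ∈ I3 F := Submodule.Quotient.mk_eq_zero _

theorem I3_mul_right {a : FreeNonUnitalNonAssocAlgebra F (Fin 3)} (ha : a ∈ I3 F)
    (b : FreeNonUnitalNonAssocAlgebra F (Fin 3)) : a * b ∈ I3 F := by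
  intro M _ _ _ _ hM v
  rw [map_mul, ha M hM v, zero_mul]

theorem I3_mul_left {a : FreeNonUnitalNonAssocAlgebra F (Fin 3)} (ha : a ∈ I3 F)
    (b : FreeNonUnitalNonAssocAlgebra F (Fin 3)) : b * a ∈ I3 F := by
  intro M _ _ _ _ hM v
  rw [map_mul, ha M hM v, mul_zero]

/-- multiplication on the quotient -/
noncomputable def mulQ : (FreeNonUnitalNonAssocAlgebra F (Fin 3) ⧸ I3 F) →ₗ[F]
    (FreeNonUnitalNonAssocAlgebra F (Fin 3) ⧸ I3 F) →ₗ[F]
    (FreeNonUnitalNonAssocAlgebra F (Fin 3) ⧸ I3 F) :=
  (I3 F).liftQ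
    { toFun := fun a => (I3 F).mapQ (I3 F) (LinearMap.mulLeft F a)
        (fun b hb => I3_mul_left F hb a)
      map_add' := by
        intro a b
        apply LinearMap.ext
        intro c
        obtain ⟨c, rfl⟩ := (I3 F).mkQ_surjective c
        change (I3 F).mkQ ((a + b) * c) = (I3 F).mkQ (a * c) + (I3 F).mkQ (b * c)
        rw [add_mul, map_add]
      map_smul' := by
        intro s a
        apply LinearMap.ext
        intro c
        obtain ⟨c, rfl⟩ := (I3 F).mkQ_surjective c
        change (I3 F).mkQ ((s • a) * c) = s • (I3 F).mkQ (a * c)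
        rw [smul_mul_assoc, map_smul] }
    (by
      intro a ha
      rw [LinearMap.mem_ker]
      apply LinearMap.ext
      intro c
      obtain ⟨c, rfl⟩ := (I3 F).mkQ_surjective c
      change (I3 F).mkQ (a * c) = 0
      rw [Submodule.mkQ_apply, Submodule.Quotient.mk_eq_zero]
      exact I3_mul_right F ha c)

/-- multiplication -/
noncomputable def mulL : A3 F →ₗ[F] A3 F →ₗ[F] A3 F := mulQ F

noncomputable instance : Mul (A3 F) := ⟨fun a b => mulL F a b⟩

theorem A3.mul_def (a b : A3 F) : a * b = mulL F a b := rfl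

theorem piL_mul (a b : FreeNonUnitalNonAssocAlgebra F (Fin 3)) :
    piL F (a * b) = piL F a * piL F b := rfl

noncomputable instance : NonUnitalNonAssocRing (A3 F) :=
  { (inferInstance : AddCommGroup (A3 F)), (inferInstance : Mul (A3 F)) with
    left_distrib := fun a b c => (mulL F a).map_add b c
    right_distrib := fun a b c => by
      rw [A3.mul_def, map_add]; rfl
    zero_mul := fun a => by
      rw [A3.mul_def, map_zero]; rfl
    mul_zero := fun a => (mulL F a).map_zero }

instance : IsScalarTower F (A3 F) (A3 F) :=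
  ⟨fun s a b => by
    rw [smul_eq_mul, smul_eq_mul, A3.mul_def, map_smul]; rfl⟩

instance : SMulCommClass F (A3 F) (A3 F) :=
  ⟨fun s a b => ((mulL F a).map_smul s b).symm⟩

/-- projection as an algebra map -/
noncomputable def piA : FreeNonUnitalNonAssocAlgebra F (Fin 3) →ₙₐ[F] A3 F :=
  { piL F with
    map_mul' := piL_mul F
    map_zero' := map_zero (piL F) }

theorem piA_surj : Function.Surjective (piA F) := piL_surj F

theorem piA_eq_zero (a : FreeNonUnitalNonAssocAlgebra F (Fin 3)) :
    piA F a = 0 ↔ a ∈ I3 F := piL_eq_zero F a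

/-- generators -/
noncomputable def gen (i : Fin 3) : A3 F := piA F (FreeNonUnitalNonAssocAlgebra.of F i)

theorem A3_malcev : IsMalcev (A3 F) where
  sq := by
    intro x
    obtain ⟨x, rfl⟩ := piA_surj F x
    rw [← map_mul, piA_eq_zero]
    intro M _ _ _ _ hM v
    rw [map_mul, hM.sq]
  mal := by
    intro x y z
    obtain ⟨x, rfl⟩ := piA_surj F x
    obtain ⟨y, rfl⟩ := piA_surj F y
    obtain ⟨z, rfl⟩ := piA_surj F z
    simp only [← map_mul, ← map_add]
    rw [← sub_eq_zero, ← map_sub, piA_eq_zero]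
    intro M _ _ _ _ hM v
    simp only [map_sub, map_add, map_mul]
    rw [hM.mal, sub_self]

variable {F}

/-- universal property -/
noncomputable def lift3 {M : Type} [NonUnitalNonAssocRing M] [Module F M] [IsScalarTower F M M]
    [SMulCommClass F M M] (hM : IsMalcev M) (v : Fin 3 → M) : A3 F →ₙₐ[F] M :=
  { (I3 F).liftQ (FreeNonUnitalNonAssocAlgebra.lift F v : FreeNonUnitalNonAssocAlgebra F (Fin 3) →ₗ[F] M)
      (fun _ ha => ha M hM v) with
    map_zero' := map_zero _
    map_mul' := by
      intro x y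
      obtain ⟨x, rfl⟩ := piL_surj F x
      obtain ⟨y, rfl⟩ := piL_surj F y
      exact map_mul (FreeNonUnitalNonAssocAlgebra.lift F v) x y }

theorem lift3_pi {M : Type} [NonUnitalNonAssocRing M] [Module F M] [IsScalarTower F M M]
    [SMulCommClass F M M] (hM : IsMalcev M) (v : Fin 3 → M)
    (a : FreeNonUnitalNonAssocAlgebra F (Fin 3)) :
    lift3 hM v (piA F a) = FreeNonUnitalNonAssocAlgebra.lift F v a := rfl

theorem lift3_gen {M : Type} [NonUnitalNonAssocRing M] [Module F M] [IsScalarTower F M M]
    [SMulCommClass F M M] (hM : IsMalcev M) (v : Fin 3 → M) (i : Fin 3) :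
    lift3 (F := F) hM v (gen F i) = v i := by
  unfold gen
  rw [lift3_pi, FreeNonUnitalNonAssocAlgebra.lift_of_apply]

theorem A3_hom_ext {M : Type} [NonUnitalNonAssocRing M] [Module F M] [IsScalarTower F M M]
    [SMulCommClass F M M] (f g : A3 F →ₙₐ[F] M) (h : ∀ i, f (gen F i) = g (gen F i)) : f = g := by
  have h1 : f.comp (piA F) = g.comp (piA F) := by
    apply FreeNonUnitalNonAssocAlgebra.hom_ext
    intro i
    exact h i
  apply NonUnitalAlgHom.ext
  intro x
  obtain ⟨x, rfl⟩ := piA_surj F x
  exact congrArg (fun k => k x) h1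

/-- dual numbers over a nonassociative algebra -/
def Dual (M : Type) : Type := M × M

section Dual

variable {M : Type} [NonUnitalNonAssocRing M] [Module F M] [IsScalarTower F M M]
    [SMulCommClass F M M]

instance : AddCommGroup (Dual M) := inferInstanceAs (AddCommGroup (M × M))
instance : Module F (Dual M) := inferInstanceAs (Module F (M × M))

instance : Mul (Dual M) := ⟨fun a b => (a.1 * b.1, a.1 * b.2 + a.2 * b.1)⟩

theorem Dual.mul_fst (a b : Dual M) : (a * b).1 = a.1 * b.1 := rfl
theorem Dual.mul_snd (a b : Dual M) : (a * b).2 = a.1 * b.2 + a.2 * b.1 := rfl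
theorem Dual.add_fst (a b : Dual M) : (a + b).1 = a.1 + b.1 := rfl
theorem Dual.add_snd (a b : Dual M) : (a + b).2 = a.2 + b.2 := rfl
theorem Dual.smul_fst (s : F) (b : Dual M) : (s • b).1 = s • b.1 := rfl
theorem Dual.smul_snd (s : F) (b : Dual M) : (s • b).2 = s • b.2 := rfl
theorem Dual.zero_fst : (0 : Dual M).1 = 0 := rfl
theorem Dual.zero_snd : (0 : Dual M).2 = 0 := rfl

theorem Dual.ext' {a b : Dual M} (h1 : a.1 = b.1) (h2 : a.2 = b.2) : a = b := Prod.ext h1 h2

instance : NonUnitalNonAssocRing (Dual M) :=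
  { (inferInstance : AddCommGroup (Dual M)), (inferInstance : Mul (Dual M)) with
    left_distrib := fun a b c => Dual.ext' (mul_add _ _ _) (by
      simp only [Dual.mul_snd, Dual.add_snd, Dual.add_fst, mul_add]; abel)
    right_distrib := fun a b c => Dual.ext' (add_mul _ _ _) (by
      simp only [Dual.mul_snd, Dual.add_snd, Dual.add_fst, add_mul]; abel)
    zero_mul := fun a => Dual.ext' (zero_mul _) (by
      simp only [Dual.mul_snd, Dual.zero_snd, Dual.zero_fst, zero_mul, add_zero])
    mul_zero := fun a => Dual.ext' (mul_zero _) (by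
      simp only [Dual.mul_snd, Dual.zero_snd, Dual.zero_fst, mul_zero, add_zero]) }

instance : IsScalarTower F (Dual M) (Dual M) :=
  ⟨fun s a b => Dual.ext' (smul_mul_assoc _ _ _) (by
    simp only [smul_eq_mul, Dual.mul_snd, Dual.smul_snd, Dual.smul_fst, smul_mul_assoc,
      smul_add])⟩

instance : SMulCommClass F (Dual M) (Dual M) :=
  ⟨fun s a b => Dual.ext' (mul_smul_comm _ _ _).symm (by
    simp only [smul_eq_mul, Dual.mul_snd, Dual.smul_snd, Dual.smul_fst, mul_smul_comm,
      smul_add])⟩

theorem Dual.malcev (h : IsMalcev M) : IsMalcev (Dual M) where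
  sq := fun a => Dual.ext' (h.sq _) (by
    rw [Dual.mul_snd, h.anti a.2 a.1]; exact add_neg_cancel _)
  mal := fun a b c => Dual.ext' (h.mal _ _ _) (by
    have h1 := h.lin a.1 a.2 b.1 c.1
    have h2 := h.mal a.1 b.2 c.1
    have h3 := h.mal a.1 b.1 c.2
    simp only [Dual.mul_snd, Dual.mul_fst, Dual.add_snd, mul_add, add_mul]
    have e1 := sub_eq_zero.mpr h1
    have e2 := sub_eq_zero.mpr h2
    have e3 := sub_eq_zero.mpr h3
    rw [← sub_eq_zero]
    have key : ∀ A B C D : M, A = 0 → B = 0 → C = 0 → D = A + B + C → D = 0 := by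
      intro A B C D hA hB hC hD
      rw [hD, hA, hB, hC]; simp
    refine key _ _ _ _ e1 e2 e3 ?_
    abel)

end Dual

/-- derivations of the free Malcev algebra -/
theorem exists_der (f : Fin 3 → A3 F) : ∃ D : A3 F →ₗ[F] A3 F,
    (∀ a b, D (a * b) = D a * b + a * D b) ∧ ∀ i, D (gen F i) = f i := by
  let φ : A3 F →ₙₐ[F] Dual (A3 F) := lift3 (Dual.malcev (A3_malcev F)) (fun i => (gen F i, f i))
  let p1 : Dual (A3 F) →ₙₐ[F] A3 F :=
    { toFun := fun a => a.1
      map_smul' := fun _ _ => rfl
      map_zero' := rfl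
      map_add' := fun _ _ => rfl
      map_mul' := fun _ _ => rfl }
  have h1 : p1.comp φ = NonUnitalAlgHom.id F (A3 F) := by
    apply A3_hom_ext
    intro i
    change (φ (gen F i)).1 = gen F i
    rw [show φ (gen F i) = (gen F i, f i) from lift3_gen _ _ i]
  have h2 : ∀ a, (φ a).1 = a := fun a => congrArg (fun k => k a) h1
  refine ⟨{ toFun := fun a => (φ a).2
            map_add' := ?_
            map_smul' := ?_ }, ?_, ?_⟩
  · intro a b
    rw [map_add]; rfl
  · intro s a
    rw [map_smul]; rfl
  · intro a b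
    change (φ (a * b)).2 = (φ a).2 * b + a * (φ b).2
    rw [map_mul, Dual.mul_snd, h2, h2, add_comm]
  · intro i
    change (φ (gen F i)).2 = f i
    rw [show φ (gen F i) = (gen F i, f i) from lift3_gen _ _ i]

/-- monomials -/
noncomputable def mon : FreeMagma (Fin 3) →ₙ* A3 F := FreeMagma.lift (gen F)

theorem mon_of (i : Fin 3) : mon (F := F) (FreeMagma.of i) = gen F i := FreeMagma.lift_of _ _

theorem mon_mul (a b : FreeMagma (Fin 3)) : mon (F := F) (a * b) = mon a * mon b :=
  map_mul _ _ _

theorem span_mon : Submodule.span F (Set.range (mon (F := F))) = ⊤ := by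
  rw [eq_top_iff]
  intro a _
  obtain ⟨a, rfl⟩ := piA_surj F a
  have hm : ∀ m : FreeMagma (Fin 3), piA F (MonoidAlgebra.single m 1) = mon m := by
    intro m
    induction m with
    | ih1 i => rfl
    | ih2 x y hx hy =>
      have : (MonoidAlgebra.single (x * y) (1 : F)) =
        MonoidAlgebra.single x (1 : F) * MonoidAlgebra.single y (1 : F) := by
        rw [MonoidAlgebra.single_mul_single, one_mul]
      rw [this]
      rw [mon_mul, ← hx, ← hy]
      exact map_mul (piA F) _ _
  induction a using MonoidAlgebra.induction_linear with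
  | zero => rw [map_zero]; exact Submodule.zero_mem _
  | add x y hx hy => rw [map_add]; exact Submodule.add_mem _ (hx trivial) (hy trivial)
  | single m c =>
    have : (MonoidAlgebra.single m c : MonoidAlgebra F (FreeMagma (Fin 3)))
      = c • MonoidAlgebra.single m (1 : F) := by
      rw [MonoidAlgebra.smul_single, smul_eq_mul, mul_one]
    rw [this]
    have h2 : piA F (c • MonoidAlgebra.single m (1 : F)) = c • piA F (MonoidAlgebra.single m 1) :=
      map_smul _ _ _
    rw [h2, hm]
    exact Submodule.smul_mem _ _ (Submodule.subset_span ⟨m, rfl⟩)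

end Pool.Agent.Mal3
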