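import Pool.Agent.Mal3.Span

/-! The span `W` of the words applied to `J(x,y,z)` is an ideal of the free Malcev algebra on three
generators and contains all Jacobians. -/

set_option autoImplicit false
set_option linter.unusedSectionVars false
set_option linter.unusedSimpArgs false

namespace Pool.Agent.Mal3

open Pool.Agent.MAL

/-- rotation of the letters -/
theorem Comp.rot {E : Type} [Ring E] {X Y Z nr nq np nt : E} (h : Comp X Y Z nr nq np nt) :
    Comp Y Z X np nr nq nt where
  rX := h.pY
  rY := h.pZ
  rZ := h.pX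
  qX := h.rY
  qY := h.rZ
  qZ := h.rX
  pX := h.qY
  pY := h.qZ
  pZ := h.qX
  tX := h.tY
  tY := h.tZ
  tZ := h.tX

theorem Comp.Xt {E : Type} [Ring E] {X Y Z nr nq np nt : E} (h : Comp X Y Z nr nq np nt) :
    2 * (X * nt) = nr * (Z * X - X * Z) - nq * (X * Y - Y * X) := by
  have rZ := h.rZ
  have qY := h.qY
  have tX := h.tX
  have rX := h.rX
  have qX := h.qX
  linear_combination (norm := noncomm_ring) - (X * rZ) - X * qY - rZ * X - qY * X - tX + rX * Z
    + Z * rX + qX * Y + Y * qX

section jac
variable (F : Type) [Field F] [CharZero F] {M : Type} [NonUnitalNonAssocRing M] [Module F M]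
  [IsScalarTower F M M] [SMulCommClass F M M]

include F in
/-- Sagle's formula for the Jacobian of a product -/
theorem jac_mul (h : IsMalcev M) (w x y z : M) : 3 • jac (w * x) y z =
    jac x y z * w - jac y z w * x - 2 • (jac z w x * y) + 2 • (jac w x y * z) := by
  have e1 := sub_eq_zero.mpr (h.sagle F w x z y)
  have e2 := sub_eq_zero.mpr (h.sagle F w y x z)
  have e3 := sub_eq_zero.mpr (h.sagle F w y z x)
  have e4 := sub_eq_zero.mpr (h.sagle F w z x y)
  rw [← sub_eq_zero]
  have key : ∀ A B C D T : M, A = 0 → B = 0 → C = 0 → D = 0 → T = A - B + C + 2 • D → T = 0 := by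
    intro A B C D T hA hB hC hD hT
    rw [hT, hA, hB, hC, hD]; simp
  refine key _ _ _ _ _ e1 e2 e3 e4 ?_
  unfold jac
  simp only [add_mul, mul_add, h.anti x w, h.anti y w, h.anti z w, h.anti y x, h.anti z x,
    h.anti z y, neg_mul, mul_neg, neg_neg, h.anti z (w * x), h.anti y (w * x),
    h.anti x (w * y), h.anti z (w * y), h.anti x (w * z), h.anti y (w * z),
    h.anti w (x * y), h.anti w (x * z), h.anti w (y * z), h.anti z (x * y), h.anti y (x * z),
    h.anti x (y * z), h.anti (y * z) (w * x), h.anti (x * z) (w * y), h.anti (x * y) (w * z)]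
  abel

theorem jac_self1 (h : IsMalcev M) (a b : M) : jac a a b = 0 := by
  unfold jac
  rw [h.sq, zero_mul, h.anti b a, neg_mul]
  abel

theorem jac_self2 (h : IsMalcev M) (a b : M) : jac a b a = 0 := by
  rw [← jac_cyc, ← jac_cyc]; exact jac_self1 h a b

theorem jac_self3 (h : IsMalcev M) (a b : M) : jac a b b = 0 := by
  rw [← jac_cyc]; exact jac_self1 h b a

theorem jac_swap (h : IsMalcev M) (a b c : M) : jac b a c = - jac a b c := by
  unfold jac
  rw [h.anti b a, h.anti a c, h.anti c b]
  simp only [neg_mul]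
  abel

theorem jac_add (a a' b c : M) : jac (a + a') b c = jac a b c + jac a' b c := by
  unfold jac
  simp only [add_mul, mul_add]
  abel

theorem jac_smul (s : F) (a b c : M) : jac (s • a) b c = s • jac a b c := by
  unfold jac
  simp only [smul_mul_assoc, mul_smul_comm, smul_add]

theorem jac_zero (b c : M) : jac 0 b c = 0 := by
  unfold jac
  simp

end jac

/-- the span of the words applied to the Jacobian of the generators -/
noncomputable def W (F : Type) [Field F] [CharZero F] : Submodule F (A3 F) :=
  Submodule.span F (Set.range fun l : List (Fin 3) => act (gen F) (ww F) l)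

namespace IdealX

variable (F : Type) [Field F] [CharZero F]

/-- the element map, linear -/
noncomputable def elL : A3 F →ₗ[F] EE F where
  toFun c := (PA F).el c
  map_add' := map_add _
  map_smul' := by
    intro s c
    apply MulOpposite.unop_injective
    apply LinearMap.ext
    rintro ⟨t, v⟩
    change ef F (s • c) (t, v) = s • ef F c (t, v)
    rw [ef_apply, ef_apply, Prod.smul_mk, smul_zero, smul_comm]

theorem elL_apply (c : A3 F) : elL F c = (PA F).el c := rfl

/-- its image in the operators -/
noncomputable def WE : Submodule F (EE F) := (W F).map (elL F)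

theorem mem_WE (c : A3 F) : elL F c ∈ WE F ↔ c ∈ W F := by
  constructor
  · rintro ⟨c', hc', h⟩
    have : c' = c := by
      rw [← sub_eq_zero]
      apply (PA F).el_inj
      rw [map_sub, ← elL_apply, ← elL_apply, h, sub_self]
    rwa [← this]
  · intro h
    exact ⟨c, h, rfl⟩

theorem W3_mul_gen {c : A3 F} (hc : c ∈ W F) (k : Fin 3) : c * gen F k ∈ W F := by
  unfold W at hc
  induction hc using Submodule.span_induction with
  | mem c hc =>
    obtain ⟨l, rfl⟩ := hc
    exact Submodule.subset_span ⟨k :: l, rfl⟩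
  | zero => rw [zero_mul]; exact Submodule.zero_mem _
  | add a b _ _ ha hb => rw [add_mul]; exact Submodule.add_mem _ ha hb
  | smul s a _ ha => rw [smul_mul_assoc]; exact Submodule.smul_mem _ s ha

/-- operators which preserve the image of `W` -/
def Stab (e : EE F) : Prop := ∀ f ∈ WE F, f * e ∈ WE F

variable {F}

theorem Stab.add {e e' : EE F} (h : Stab F e) (h' : Stab F e') : Stab F (e + e') := by
  intro f hf
  rw [mul_add]; exact Submodule.add_mem _ (h f hf) (h' f hf)

theorem Stab.sub {e e' : EE F} (h : Stab F e) (h' : Stab F e') : Stab F (e - e') := by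
  intro f hf
  rw [mul_sub]; exact Submodule.sub_mem _ (h f hf) (h' f hf)

theorem Stab.mul {e e' : EE F} (h : Stab F e) (h' : Stab F e') : Stab F (e * e') := by
  intro f hf
  rw [← mul_assoc]; exact h' _ (h f hf)

theorem half_mem {f : EE F} (h : 2 * f ∈ WE F) : f ∈ WE F := by
  have : 2 * f = (2 : F) • f := by rw [two_mul, two_smul]
  rw [this] at h
  exact ((WE F).smul_mem_iff (two_ne_zero)).1 h

theorem three_mem {f : EE F} (h : f ∈ WE F) : 3 * f ∈ WE F := by
  have : 3 * f = f + f + f := by noncomm_ring
  rw [this]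
  exact Submodule.add_mem _ (Submodule.add_mem _ h h) h

theorem Stab.half {e : EE F} (h : Stab F (2 * e)) : Stab F e := by
  intro f hf
  apply half_mem
  have := h f hf
  have h2 : f * (2 * e) = 2 * (f * e) := by noncomm_ring
  rwa [h2] at this

theorem Stab.zero : Stab F 0 := by
  intro f _
  rw [mul_zero]; exact Submodule.zero_mem _

theorem Stab.neg {e : EE F} (h : Stab F e) : Stab F (-e) := by
  have := Stab.zero.sub h
  rwa [zero_sub] at this

theorem stab_gen (k : Fin 3) : Stab F ((PA F).R (gen F k)) := by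
  rintro f ⟨c, hc, rfl⟩
  rw [elL_apply, (PA F).el_mul, ← elL_apply, mem_WE]
  exact W3_mul_gen F hc k

/-- one step of the induction -/
theorem step {X Y Z nr nq np nt : EE F} (h : Comp X Y Z nr nq np nt) (hX : Stab F X)
    (hY : Stab F Y) (hZ : Stab F Z) {f : EE F}
    (h1 : f * nr ∈ WE F) (h2 : f * nq ∈ WE F) (h3 : f * np ∈ WE F) (h4 : f * nt ∈ WE F) :
    f * X * nr ∈ WE F ∧ f * X * nq ∈ WE F ∧ f * X * np ∈ WE F ∧ f * X * nt ∈ WE F := by
  refine ⟨?_, ?_, ?_, ?_⟩
  · have e : f * X * nr = - (f * nr * X) := by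
      linear_combination (norm := noncomm_ring) f * h.rX
    rw [e]; exact Submodule.neg_mem _ (hX _ h1)
  · have e : f * X * nq = - (f * nq * X) := by
      linear_combination (norm := noncomm_ring) f * h.qX
    rw [e]; exact Submodule.neg_mem _ (hX _ h2)
  · have e : f * X * np = f * nt - (f * np * X) := by
      linear_combination (norm := noncomm_ring) f * h.pX
    rw [e]; exact Submodule.sub_mem _ h4 (hX _ h3)
  · apply half_mem
    have e0 : 2 * (f * X * nt) = f * (2 * (X * nt)) := by noncomm_ring
    have e : 2 * (f * X * nt) = f * nr * (Z * X - X * Z) - f * nq * (X * Y - Y * X) := by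
      rw [e0, h.Xt, mul_sub, ← mul_assoc, ← mul_assoc]
    rw [e]
    exact Submodule.sub_mem _ (((hZ.mul hX).sub (hX.mul hZ)) _ h1)
      (((hX.mul hY).sub (hY.mul hX)) _ h2)

theorem base_N {f n c : EE F} (h : f * (2 * n + 3 * c) = 0)
    (hc : f * c ∈ WE F) : f * n ∈ WE F := by
  apply half_mem
  have e : 2 * (f * n) = - (3 * (f * c)) := by
    linear_combination (norm := noncomm_ring) h
  rw [e]
  exact Submodule.neg_mem _ (three_mem hc)

theorem letters (l : List (Fin 3)) :
    elL F (act (gen F) (ww F) l) * (PA F).N (gen F 0) (gen F 1) ∈ WE F ∧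
    elL F (act (gen F) (ww F) l) * (PA F).N (gen F 2) (gen F 0) ∈ WE F ∧
    elL F (act (gen F) (ww F) l) * (PA F).N (gen F 1) (gen F 2) ∈ WE F ∧
    elL F (act (gen F) (ww F) l) * (PA F).th (gen F 0) (gen F 1) (gen F 2)
      ∈ WE F := by
  have hX := stab_gen (F := F) 0
  have hY := stab_gen (F := F) 1
  have hZ := stab_gen (F := F) 2
  have hb := ((PA F).base (gen F 0) (gen F 1) (gen F 2)).comp
  induction l with
  | nil =>
    have hw : elL F (ww F) ∈ WE F := (mem_WE F _).2 (Submodule.subset_span ⟨[], rfl⟩)
    refine ⟨?_, ?_, ?_, ?_⟩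
    · exact base_N (el_w1 (PA F) (gen F 0) (gen F 1) (gen F 2))
        (((hX.mul hY).sub (hY.mul hX)) _ hw)
    · exact base_N (el_w3 (PA F) (gen F 0) (gen F 1) (gen F 2))
        (((hZ.mul hX).sub (hX.mul hZ)) _ hw)
    · exact base_N (el_w2 (PA F) (gen F 0) (gen F 1) (gen F 2))
        (((hY.mul hZ).sub (hZ.mul hY)) _ hw)
    · have h := (TR.first (PA F) (A3_malcev F).sq (gen F 0) (gen F 1) (gen F 2)).eth
      rw [mul_add] at h
      have h' := eq_neg_of_add_eq_zero_left h
      change (PA F).el (jac (gen F 0) (gen F 1) (gen F 2)) * _ ∈ _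
      rw [h']
      refine Submodule.neg_mem _ ?_
      exact (((hX.mul ((hY.mul hZ).sub (hZ.mul hY))).add
        (hY.mul ((hZ.mul hX).sub (hX.mul hZ)))).add
        (hZ.mul ((hX.mul hY).sub (hY.mul hX)))) _ hw
  | cons k l ih =>
    obtain ⟨h1, h2, h3, h4⟩ := ih
    have hel : elL F (act (gen F) (ww F) (k :: l)) =
        elL F (act (gen F) (ww F) l) * (PA F).R (gen F k) := by
      rw [elL_apply, elL_apply, (PA F).el_mul]; rfl
    rw [hel]
    fin_cases k
    · obtain ⟨a1, a2, a3, a4⟩ := step hb hX hY hZ h1 h2 h3 h4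
      exact ⟨a1, a2, a3, a4⟩
    · obtain ⟨a1, a2, a3, a4⟩ := step hb.rot hY hZ hX h3 h1 h2 h4
      exact ⟨a2, a3, a1, a4⟩
    · obtain ⟨a1, a2, a3, a4⟩ := step hb.rot.rot hZ hX hY h2 h3 h1 h4
      exact ⟨a3, a1, a2, a4⟩

theorem stab_of_letters (e : EE F)
    (h : ∀ l, elL F (act (gen F) (ww F) l) * e ∈ WE F) : Stab F e := by
  rintro f ⟨c, hc, rfl⟩
  have hc' : c ∈ Submodule.span F (Set.range fun l : List (Fin 3) => act (gen F) (ww F) l) := hc
  clear hc
  induction hc' using Submodule.span_induction with
  | mem c hc =>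
    obtain ⟨l, rfl⟩ := hc
    exact h l
  | zero => rw [map_zero, zero_mul]; exact Submodule.zero_mem _
  | add a b _ _ ha hb => rw [map_add, add_mul]; exact Submodule.add_mem _ ha hb
  | smul s a _ ha => rw [map_smul, smul_mul_assoc]; exact Submodule.smul_mem _ s ha

theorem stab_N_gen (i j : Fin 3) :
    Stab F ((PA F).N (gen F i) (gen F j)) := by
  have h01 := stab_of_letters _ fun l => (letters (F := F) l).1
  have h20 := stab_of_letters _ fun l => (letters (F := F) l).2.1
  have h12 := stab_of_letters _ fun l => (letters (F := F) l).2.2.1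
  fin_cases i <;> fin_cases j
  · change Stab F ((PA F).N (gen F 0) (gen F 0))
    rw [(PA F).N_self]; exact Stab.zero
  · exact h01
  · change Stab F ((PA F).N (gen F 0) (gen F 2))
    rw [(PA F).N_swap]; exact h20.neg
  · change Stab F ((PA F).N (gen F 1) (gen F 0))
    rw [(PA F).N_swap]; exact h01.neg
  · change Stab F ((PA F).N (gen F 1) (gen F 1))
    rw [(PA F).N_self]; exact Stab.zero
  · exact h12
  · exact h20
  · change Stab F ((PA F).N (gen F 2) (gen F 1))
    rw [(PA F).N_swap]; exact h12.neg
  · change Stab F ((PA F).N (gen F 2) (gen F 2))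
    rw [(PA F).N_self]; exact Stab.zero

theorem stab_prod (a1 a2 b : A3 F)
    (r1 : Stab F ((PA F).R a1)) (r2 : Stab F ((PA F).R a2))
    (r3 : Stab F ((PA F).R b))
    (n1 : Stab F ((PA F).N a2 b)) (n2 : Stab F ((PA F).N b a1))
    (n3 : Stab F ((PA F).N a1 a2)) :
    Stab F ((PA F).N (a1 * a2) b) := by
  apply Stab.half
  rw [(PA F).U3]
  have h3 := (r3.mul n3).sub (n3.mul r3)
  have e : ∀ e : EE F, 2 * e = e + e := fun e => two_mul e
  rw [e]
  exact (((r1.mul n1).sub (n1.mul r1)).add ((r2.mul n2).sub (n2.mul r2))).add (h3.add h3)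

theorem stab_mon (n : ℕ) :
    (∀ a b : FreeMagma (Fin 3), a.length + b.length ≤ n →
      Stab F ((PA F).N (mon a) (mon b))) ∧
    (∀ a : FreeMagma (Fin 3), a.length ≤ n → Stab F ((PA F).R (mon a))) := by
  induction n with
  | zero =>
    refine ⟨fun a b hab => ?_, fun a ha => ?_⟩
    · have := a.length_pos; omega
    · have := a.length_pos; omega
  | succ n ih =>
    obtain ⟨ihN, ihR⟩ := ih
    have hprod : ∀ a1 a2 b : FreeMagma (Fin 3), a1.length + a2.length + b.length ≤ n + 1 →
        Stab F ((PA F).N (mon (a1 * a2)) (mon b)) := by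
      intro a1 a2 b hab
      have p1 := a1.length_pos
      have p2 := a2.length_pos
      have p3 := b.length_pos
      rw [mon_mul]
      exact stab_prod _ _ _ (ihR a1 (by omega)) (ihR a2 (by omega)) (ihR b (by omega))
        (ihN a2 b (by omega)) (ihN b a1 (by omega)) (ihN a1 a2 (by omega))
    have hN : ∀ a b : FreeMagma (Fin 3), a.length + b.length ≤ n + 1 →
      Stab F ((PA F).N (mon a) (mon b)) := by
      intro a b hab
      induction a with
      | ih1 i =>
        induction b with
        | ih1 j => rw [mon_of, mon_of]; exact stab_N_gen i j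
        | ih2 b1 b2 _ _ =>
          rw [(PA F).N_swap]
          refine (hprod b1 b2 _ ?_).neg
          have : (b1 * b2).length = b1.length + b2.length := rfl
          omega
      | ih2 a1 a2 _ _ =>
        refine hprod a1 a2 b ?_
        have : (a1 * a2).length = a1.length + a2.length := rfl
        omega
    refine ⟨hN, ?_⟩
    intro a ha
    induction a with
    | ih1 i => rw [mon_of]; exact stab_gen i
    | ih2 a1 a2 _ _ =>
      have e : (a1 * a2).length = a1.length + a2.length := rfl
      have p1 := a1.length_pos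
      have p2 := a2.length_pos
      rw [mon_mul, (PA F).R_mul]
      have r1 := ihR a1 (by omega)
      have r2 := ihR a2 (by omega)
      exact (hN a1 a2 (by omega)).add ((r1.mul r2).sub (r2.mul r1))

/-- `W` is an ideal -/
theorem ideal_right (a : A3 F) (ha : a ∈ W F) (b : A3 F) : a * b ∈ W F := by
  have hb : b ∈ Submodule.span F (Set.range (mon (F := F))) := by rw [span_mon]; trivial
  induction hb using Submodule.span_induction with
  | mem b hb =>
    obtain ⟨m, rfl⟩ := hb
    have h1 := (stab_mon m.length).2 m le_rfl (elL F a) ((mem_WE F a).2 ha)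
    rw [elL_apply, (PA F).el_mul, ← elL_apply, mem_WE] at h1
    exact h1
  | zero => rw [mul_zero]; exact Submodule.zero_mem _
  | add b b' _ _ hb hb' => rw [mul_add]; exact Submodule.add_mem _ hb hb'
  | smul s b _ hb => rw [mul_smul_comm]; exact Submodule.smul_mem _ s hb

theorem w_mem : ww F ∈ W F := Submodule.subset_span ⟨[], rfl⟩

theorem jac_gen (i j k : Fin 3) : jac (gen F i) (gen F j) (gen F k) ∈ W F := by
  have hM := A3_malcev F
  have h0 := w_mem (F := F)
  have e1 : jac (gen F 1) (gen F 2) (gen F 0) ∈ W F := by rw [jac_cyc]; exact h0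
  have e2 : jac (gen F 2) (gen F 0) (gen F 1) ∈ W F := by rw [← jac_cyc]; exact h0
  have o1 : jac (gen F 1) (gen F 0) (gen F 2) ∈ W F := by
    rw [jac_swap hM]; exact Submodule.neg_mem _ h0
  have o2 : jac (gen F 2) (gen F 1) (gen F 0) ∈ W F := by
    rw [jac_swap hM]; exact Submodule.neg_mem _ e1
  have o3 : jac (gen F 0) (gen F 2) (gen F 1) ∈ W F := by
    rw [jac_swap hM]; exact Submodule.neg_mem _ e2
  have z1 : ∀ a b : A3 F, jac a a b ∈ W F := fun a b => by
    rw [jac_self1 hM]; exact Submodule.zero_mem _
  have z2 : ∀ a b : A3 F, jac a b a ∈ W F := fun a b => by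
    rw [jac_self2 hM]; exact Submodule.zero_mem _
  have z3 : ∀ a b : A3 F, jac a b b ∈ W F := fun a b => by
    rw [jac_self3 hM]; exact Submodule.zero_mem _
  have h3 : ∀ i : Fin 3, i = 0 ∨ i = 1 ∨ i = 2 := by decide
  rcases h3 i with rfl | rfl | rfl
  · rcases h3 j with rfl | rfl | rfl
    · rcases h3 k with rfl | rfl | rfl
      · exact z1 _ _
      · exact z1 _ _
      · exact z1 _ _
    · rcases h3 k with rfl | rfl | rfl
      · exact z2 _ _
      · exact z3 _ _
      · exact h0
    · rcases h3 k with rfl | rfl | rfl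
      · exact z2 _ _
      · exact o3
      · exact z3 _ _
  · rcases h3 j with rfl | rfl | rfl
    · rcases h3 k with rfl | rfl | rfl
      · exact z3 _ _
      · exact z2 _ _
      · exact o1
    · rcases h3 k with rfl | rfl | rfl
      · exact z1 _ _
      · exact z1 _ _
      · exact z1 _ _
    · rcases h3 k with rfl | rfl | rfl
      · exact e1
      · exact z2 _ _
      · exact z3 _ _
  · rcases h3 j with rfl | rfl | rfl
    · rcases h3 k with rfl | rfl | rfl
      · exact z3 _ _
      · exact e2
      · exact z2 _ _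
    · rcases h3 k with rfl | rfl | rfl
      · exact o2
      · exact z3 _ _
      · exact z2 _ _
    · rcases h3 k with rfl | rfl | rfl
      · exact z1 _ _
      · exact z1 _ _
      · exact z1 _ _

theorem jac_prod (u v b c : A3 F) (h1 : jac v b c ∈ W F) (h2 : jac b c u ∈ W F)
    (h3 : jac c u v ∈ W F) (h4 : jac u v b ∈ W F) : jac (u * v) b c ∈ W F := by
  have e := jac_mul F (A3_malcev F) u v b c
  have hm : 3 • jac (u * v) b c ∈ W F := by
    rw [e]
    refine Submodule.add_mem _ (Submodule.sub_mem _ (Submodule.sub_mem _ ?_ ?_) ?_) ?_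
    · exact ideal_right _ h1 _
    · exact ideal_right _ h2 _
    · exact Submodule.smul_of_tower_mem _ 2 (ideal_right _ h3 _)
    · exact Submodule.smul_of_tower_mem _ 2 (ideal_right _ h4 _)
  rw [← Nat.cast_smul_eq_nsmul F] at hm
  exact ((W F).smul_mem_iff (by norm_num)).1 hm

theorem jac_mon (n : ℕ) : ∀ a b c : FreeMagma (Fin 3),
    a.length + b.length + c.length ≤ n → jac (mon (F := F) a) (mon b) (mon c) ∈ W F := by
  induction n with
  | zero =>
    intro a b c hab
    have := a.length_pos; omega
  | succ n ih =>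
    have hprod : ∀ a1 a2 b c : FreeMagma (Fin 3),
        a1.length + a2.length + b.length + c.length ≤ n + 1 →
        jac (mon (F := F) (a1 * a2)) (mon b) (mon c) ∈ W F := by
      intro a1 a2 b c hab
      have p1 := a1.length_pos
      have p2 := a2.length_pos
      have p3 := b.length_pos
      have p4 := c.length_pos
      rw [mon_mul]
      exact jac_prod _ _ _ _ (ih _ _ _ (by omega)) (ih _ _ _ (by omega))
        (ih _ _ _ (by omega)) (ih _ _ _ (by omega))
    intro a b c habc
    induction a with
    | ih2 a1 a2 _ _ =>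
      refine hprod a1 a2 b c ?_
      have : (a1 * a2).length = a1.length + a2.length := rfl
      omega
    | ih1 i =>
      induction b with
      | ih2 b1 b2 _ _ =>
        rw [← jac_cyc]
        refine hprod b1 b2 c _ ?_
        have : (b1 * b2).length = b1.length + b2.length := rfl
        omega
      | ih1 j =>
        induction c with
        | ih2 c1 c2 _ _ =>
          rw [← jac_cyc, ← jac_cyc]
          refine hprod c1 c2 _ _ ?_
          have : (c1 * c2).length = c1.length + c2.length := rfl
          omega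
        | ih1 k => rw [mon_of, mon_of, mon_of]; exact jac_gen i j k

/-- extension to all elements in the first variable -/
theorem ext1 (b c : A3 F) (h : ∀ m, jac (mon (F := F) m) b c ∈ W F) (a : A3 F) :
    jac a b c ∈ W F := by
  have ha : a ∈ Submodule.span F (Set.range (mon (F := F))) := by rw [span_mon]; trivial
  induction ha using Submodule.span_induction with
  | mem a ha =>
    obtain ⟨m, rfl⟩ := ha
    exact h m
  | zero => rw [jac_zero]; exact Submodule.zero_mem _
  | add a a' _ _ ha ha' => rw [jac_add]; exact Submodule.add_mem _ ha ha'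
  | smul s a _ ha => rw [jac_smul]; exact Submodule.smul_mem _ s ha

end IdealX

open IdealX

variable {F : Type} [Field F] [CharZero F]

/-- `W` is an ideal -/
theorem W_ideal {a : A3 F} (ha : a ∈ W F) (b : A3 F) : a * b ∈ W F := ideal_right a ha b

theorem W_ideal_left {a : A3 F} (ha : a ∈ W F) (b : A3 F) : b * a ∈ W F := by
  rw [(A3_malcev F).anti b a]
  exact Submodule.neg_mem _ (ideal_right a ha b)

/-- `W` contains all Jacobians -/
theorem jac_mem (a b c : A3 F) : jac a b c ∈ W F := by
  apply ext1
  intro m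
  rw [← jac_cyc]
  apply ext1
  intro m'
  rw [← jac_cyc]
  apply ext1
  intro m''
  exact jac_mon _ _ _ _ le_rfl

end Pool.Agent.Mal3
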