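import Pool.Agent.Mal3.CpW

set_option autoImplicit false
set_option linter.unusedSectionVars false
set_option linter.unusedSimpArgs false

namespace Pool.Agent.Mal3

open Pool.Agent.Mal

/-- right multiplication in a cross product algebra -/
def rmul {K V : Type} [CommRing K] [AddCommGroup V] [Module K V] (C : CpAlg K V) (x : V) :
    V →ₗ[K] V := C.mul.flip x

/-- the seven right factors -/
def Vb {K V : Type} [CommRing K] [AddCommGroup V] [Module K V] (C : CpAlg K V) (x y z : V) :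
    Fin 7 → (V →ₗ[K] V)
  | 0 => LinearMap.id
  | 1 => rmul C x
  | 2 => rmul C y
  | 3 => rmul C z
  | 4 => rmul C y ∘ₗ rmul C x - rmul C x ∘ₗ rmul C y
  | 5 => rmul C z ∘ₗ rmul C y - rmul C y ∘ₗ rmul C z
  | 6 => rmul C x ∘ₗ rmul C z - rmul C z ∘ₗ rmul C x

section oct

variable {K : Type} [Field K] (a b c : K)

/-- the octonion cross product with parameters -/
def om (u v : Fin 7 → K) : Fin 7 → K :=
  ![b * (u 1 * v 2 - u 2 * v 1) + c * (u 3 * v 4 - u 4 * v 3) - b * c * (u 5 * v 6 - u 6 * v 5),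
    a * (u 2 * v 0 - u 0 * v 2) + c * (u 3 * v 5 - u 5 * v 3) + a * c * (u 4 * v 6 - u 6 * v 4),
    (u 0 * v 1 - u 1 * v 0) + c * (u 3 * v 6 - u 6 * v 3) - c * (u 4 * v 5 - u 5 * v 4),
    a * (u 4 * v 0 - u 0 * v 4) + b * (u 5 * v 1 - u 1 * v 5) + a * b * (u 6 * v 2 - u 2 * v 6),
    (u 0 * v 3 - u 3 * v 0) + b * (u 6 * v 1 - u 1 * v 6) - b * (u 5 * v 2 - u 2 * v 5),
    (u 1 * v 3 - u 3 * v 1) - a * (u 6 * v 0 - u 0 * v 6) - a * (u 2 * v 4 - u 4 * v 2),
    (u 2 * v 3 - u 3 * v 2) - (u 0 * v 5 - u 5 * v 0) + (u 1 * v 4 - u 4 * v 1)]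

/-- the form -/
def oform (u v : Fin 7 → K) : K :=
  a * (u 0 * v 0) + b * (u 1 * v 1) + a * b * (u 2 * v 2) + c * (u 3 * v 3)
    + a * c * (u 4 * v 4) + b * c * (u 5 * v 5) + a * b * c * (u 6 * v 6)

theorem ext7 {u v : Fin 7 → K} (h0 : u 0 = v 0) (h1 : u 1 = v 1) (h2 : u 2 = v 2) (h3 : u 3 = v 3)
    (h4 : u 4 = v 4) (h5 : u 5 = v 5) (h6 : u 6 = v 6) : u = v := by
  funext i
  match i with
  | 0 => exact h0
  | 1 => exact h1
  | 2 => exact h2
  | 3 => exact h3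
  | 4 => exact h4
  | 5 => exact h5
  | 6 => exact h6

theorem om0 (u v : Fin 7 → K) : om a b c u v 0 = b * (u 1 * v 2 - u 2 * v 1)
    + c * (u 3 * v 4 - u 4 * v 3) - b * c * (u 5 * v 6 - u 6 * v 5) := rfl
theorem om1 (u v : Fin 7 → K) : om a b c u v 1 = a * (u 2 * v 0 - u 0 * v 2)
    + c * (u 3 * v 5 - u 5 * v 3) + a * c * (u 4 * v 6 - u 6 * v 4) := rfl
theorem om2 (u v : Fin 7 → K) : om a b c u v 2 = (u 0 * v 1 - u 1 * v 0)
    + c * (u 3 * v 6 - u 6 * v 3) - c * (u 4 * v 5 - u 5 * v 4) := rfl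
theorem om3 (u v : Fin 7 → K) : om a b c u v 3 = a * (u 4 * v 0 - u 0 * v 4)
    + b * (u 5 * v 1 - u 1 * v 5) + a * b * (u 6 * v 2 - u 2 * v 6) := rfl
theorem om4 (u v : Fin 7 → K) : om a b c u v 4 = (u 0 * v 3 - u 3 * v 0)
    + b * (u 6 * v 1 - u 1 * v 6) - b * (u 5 * v 2 - u 2 * v 5) := rfl
theorem om5 (u v : Fin 7 → K) : om a b c u v 5 = (u 1 * v 3 - u 3 * v 1)
    - a * (u 6 * v 0 - u 0 * v 6) - a * (u 2 * v 4 - u 4 * v 2) := rfl
theorem om6 (u v : Fin 7 → K) : om a b c u v 6 = (u 2 * v 3 - u 3 * v 2)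
    - (u 0 * v 5 - u 5 * v 0) + (u 1 * v 4 - u 4 * v 1) := rfl

/-- the octonion cross product algebra -/
def octo : CpAlg K (Fin 7 → K) where
  mul := LinearMap.mk₂ K (om a b c)
    (by
      intro u v w
      apply ext7 <;> simp only [om0, om1, om2, om3, om4, om5, om6, Pi.add_apply] <;> ring)
    (by
      intro s u w
      apply ext7 <;> simp only [om0, om1, om2, om3, om4, om5, om6, Pi.smul_apply, smul_eq_mul]
        <;> ring)
    (by
      intro u v w
      apply ext7 <;> simp only [om0, om1, om2, om3, om4, om5, om6, Pi.add_apply] <;> ring)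
    (by
      intro s u w
      apply ext7 <;> simp only [om0, om1, om2, om3, om4, om5, om6, Pi.smul_apply, smul_eq_mul]
        <;> ring)
  form := LinearMap.mk₂ K (oform a b c)
    (by intro u v w; simp only [oform, Pi.add_apply]; ring)
    (by intro s u w; simp only [oform, Pi.smul_apply, smul_eq_mul]; ring)
    (by intro u v w; simp only [oform, Pi.add_apply]; ring)
    (by intro s u w; simp only [oform, Pi.smul_apply, smul_eq_mul]; ring)
  mul_self := by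
    intro u
    simp only [LinearMap.mk₂_apply]
    apply ext7 <;> simp only [om0, om1, om2, om3, om4, om5, om6, Pi.zero_apply] <;> ring
  form_symm := by
    intro u v
    simp only [LinearMap.mk₂_apply, oform]; ring
  form_inv := by
    intro u v w
    simp only [LinearMap.mk₂_apply, oform, om0, om1, om2, om3, om4, om5, om6]; ring
  cp := by
    intro u v
    simp only [LinearMap.mk₂_apply]
    apply ext7 <;> simp only [om0, om1, om2, om3, om4, om5, om6, oform, Pi.sub_apply,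
      Pi.smul_apply, smul_eq_mul] <;> ring

theorem octo_mul (u v : Fin 7 → K) : (octo a b c).mul u v = om a b c u v := rfl
theorem octo_form (u v : Fin 7 → K) : (octo a b c).form u v = oform a b c u v := rfl

section vecs

variable (p r s t : K)

/-- first generator -/
def xv : Fin 7 → K := ![1, 0, 0, 0, 0, 0, 0]
/-- second generator -/
def yv : Fin 7 → K := ![p, 1, 0, 0, 0, 0, 0]
/-- third generator -/
def zv : Fin 7 → K := ![r, s, t, 1, 0, 0, 0]

/-- the Jacobian vector -/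
def wv : Fin 7 → K := ![0, 0, 0, 0, 0, 0, 1]

theorem xv_0 : (xv : Fin 7 → K) 0 = 1 := rfl
theorem xv_1 : (xv : Fin 7 → K) 1 = 0 := rfl
theorem xv_2 : (xv : Fin 7 → K) 2 = 0 := rfl
theorem xv_3 : (xv : Fin 7 → K) 3 = 0 := rfl
theorem xv_4 : (xv : Fin 7 → K) 4 = 0 := rfl
theorem xv_5 : (xv : Fin 7 → K) 5 = 0 := rfl
theorem xv_6 : (xv : Fin 7 → K) 6 = 0 := rfl
theorem yv_0 : (yv p : Fin 7 → K) 0 = p := rfl
theorem yv_1 : (yv p : Fin 7 → K) 1 = 1 := rfl
theorem yv_2 : (yv p : Fin 7 → K) 2 = 0 := rfl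
theorem yv_3 : (yv p : Fin 7 → K) 3 = 0 := rfl
theorem yv_4 : (yv p : Fin 7 → K) 4 = 0 := rfl
theorem yv_5 : (yv p : Fin 7 → K) 5 = 0 := rfl
theorem yv_6 : (yv p : Fin 7 → K) 6 = 0 := rfl
theorem zv_0 : (zv r s t : Fin 7 → K) 0 = r := rfl
theorem zv_1 : (zv r s t : Fin 7 → K) 1 = s := rfl
theorem zv_2 : (zv r s t : Fin 7 → K) 2 = t := rfl
theorem zv_3 : (zv r s t : Fin 7 → K) 3 = 1 := rfl
theorem zv_4 : (zv r s t : Fin 7 → K) 4 = 0 := rfl
theorem zv_5 : (zv r s t : Fin 7 → K) 5 = 0 := rfl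
theorem zv_6 : (zv r s t : Fin 7 → K) 6 = 0 := rfl
theorem wv_0 : (wv : Fin 7 → K) 0 = 0 := rfl
theorem wv_1 : (wv : Fin 7 → K) 1 = 0 := rfl
theorem wv_2 : (wv : Fin 7 → K) 2 = 0 := rfl
theorem wv_3 : (wv : Fin 7 → K) 3 = 0 := rfl
theorem wv_4 : (wv : Fin 7 → K) 4 = 0 := rfl
theorem wv_5 : (wv : Fin 7 → K) 5 = 0 := rfl
theorem wv_6 : (wv : Fin 7 → K) 6 = 1 := rfl

theorem octo_j : (octo a b c).j xv (yv p) (zv r s t) = (wv : Fin 7 → K) := by
  unfold CpAlg.j
  rw [octo_mul, octo_mul, octo_form, octo_form]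
  apply ext7 <;> simp only [om0, om1, om2, om3, om4, om5, om6, oform, Pi.add_apply, Pi.sub_apply,
    Pi.smul_apply, smul_eq_mul,
    xv_0, xv_1, xv_2, xv_3, xv_4, xv_5, xv_6, yv_0, yv_1, yv_2, yv_3, yv_4, yv_5, yv_6,
    zv_0, zv_1, zv_2, zv_3, zv_4, zv_5, zv_6, wv_0, wv_1, wv_2, wv_3, wv_4, wv_5, wv_6] <;> ring

theorem indep (ha : a ≠ 0) (hb : b ≠ 0) (hc : c ≠ 0) (h2 : (2 : K) ≠ 0) :
    LinearIndependent K (fun k : Fin 7 => Vb (octo a b c) xv (yv p) (zv r s t) k wv) := by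
  rw [Fintype.linearIndependent_iff]
  intro g hg
  rw [Fin.sum_univ_seven] at hg
  change g 0 • wv + g 1 • om a b c wv xv + g 2 • om a b c wv (yv p)
    + g 3 • om a b c wv (zv r s t)
    + g 4 • (om a b c (om a b c wv xv) (yv p) - om a b c (om a b c wv (yv p)) xv)
    + g 5 • (om a b c (om a b c wv (yv p)) (zv r s t) - om a b c (om a b c wv (zv r s t)) (yv p))
    + g 6 • (om a b c (om a b c wv (zv r s t)) xv - om a b c (om a b c wv xv) (zv r s t)) = 0 at hg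
  have e0 := congrFun hg 0
  have e1 := congrFun hg 1
  have e2 := congrFun hg 2
  have e3 := congrFun hg 3
  have e4 := congrFun hg 4
  have e5 := congrFun hg 5
  have e6 := congrFun hg 6
  simp only [om0, om1, om2, om3, om4, om5, om6, Pi.add_apply, Pi.sub_apply,
    Pi.smul_apply, smul_eq_mul, Pi.zero_apply,
    xv_0, xv_1, xv_2, xv_3, xv_4, xv_5, xv_6, yv_0, yv_1, yv_2, yv_3, yv_4, yv_5, yv_6,
    zv_0, zv_1, zv_2, zv_3, zv_4, zv_5, zv_6, wv_0, wv_1, wv_2, wv_3, wv_4, wv_5, wv_6] at e0 e1 e2 e3 e4 e5 e6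
  have z5 : g 5 = 0 := by
    have : (2 * b * c) * g 5 = 0 := by linear_combination -e0
    simpa [h2, hb, hc] using this
  rw [z5] at e1 e2 e3 e4 e5 e6
  have z6 : g 6 = 0 := by
    have : (2 * a * c) * g 6 = 0 := by linear_combination -e1
    simpa [h2, ha, hc] using this
  rw [z6] at e2 e3 e4 e5 e6
  have z3 : g 3 = 0 := by
    have : c * g 3 = 0 := by linear_combination -e2
    simpa [hc] using this
  rw [z3] at e3 e4 e5 e6
  have z4 : g 4 = 0 := by
    have : (2 * a * b) * g 4 = 0 := by linear_combination -e3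
    simpa [h2, ha, hb] using this
  rw [z4] at e4 e5 e6
  have z2 : g 2 = 0 := by
    have : b * g 2 = 0 := by linear_combination e4
    simpa [hb] using this
  rw [z2] at e5 e6
  have z1 : g 1 = 0 := by
    have : a * g 1 = 0 := by linear_combination -e5
    simpa [ha] using this
  rw [z1] at e6
  have z0 : g 0 = 0 := by linear_combination e6
  intro i
  match i with
  | 0 => exact z0
  | 1 => exact z1
  | 2 => exact z2
  | 3 => exact z3
  | 4 => exact z4
  | 5 => exact z5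
  | 6 => exact z6

end vecs

end oct

section final

open MvPolynomial

variable (F : Type) [Field F]

/-- the function field -/
abbrev KK := FractionRing (MvPolynomial (Fin 7) F)

/-- variables -/
noncomputable def qv (i : Fin 7) : KK F := algebraMap (MvPolynomial (Fin 7) F) (KK F) (X i)

theorem qv_ind : AlgebraicIndependent F (qv F) := by
  have h := MvPolynomial.algebraicIndependent_X (Fin 7) F
  exact h.map' (f := IsScalarTower.toAlgHom F (MvPolynomial (Fin 7) F) (KK F))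
    (IsFractionRing.injective (MvPolynomial (Fin 7) F) (KK F))

theorem ne_of_eval (P : MvPolynomial (Fin 7) F) (v : Fin 7 → F) (h : MvPolynomial.eval v P ≠ 0) :
    algebraMap (MvPolynomial (Fin 7) F) (KK F) P ≠ 0 := by
  intro h0
  have : P = 0 := by
    apply IsFractionRing.injective (MvPolynomial (Fin 7) F) (KK F)
    rw [h0, map_zero]
  rw [this, map_zero] at h
  exact h rfl

theorem model [CharZero F] : ∃ (C : CpAlg (KK F) (Fin 7 → KK F)) (x y z : Fin 7 → KK F),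
    C.form x x = qv F 0 ∧ C.form y y = qv F 1 ∧ C.form z z = qv F 2 ∧ C.form x y = qv F 3 ∧
    C.form y z = qv F 4 ∧ C.form z x = qv F 5 ∧ C.form (C.mul x y) z = qv F 6 ∧
    LinearIndependent (KK F) (fun k => Vb C x y z k (C.j x y z)) := by
  have ha : qv F 0 ≠ 0 := ne_of_eval F (X 0) (fun _ => 1) (by simp)
  set a := qv F 0 with ha_def
  set p := qv F 3 / a with hp
  have hP1 : a * qv F 1 - qv F 3 ^ 2 ≠ 0 := by
    have := ne_of_eval F (X 0 * X 1 - X 3 ^ 2) (fun i => if i = 3 then 0 else 1) (by simp)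
    simpa [qv, ha_def] using this
  set b := qv F 1 - p ^ 2 * a with hb_def
  have hb : b ≠ 0 := by
    intro h0
    apply hP1
    have : a * b = a * qv F 1 - qv F 3 ^ 2 := by
      rw [hb_def, hp]; field_simp
    rw [← this, h0, mul_zero]
  set r := qv F 5 / a with hr
  set s := (qv F 4 - p * r * a) / b with hs
  set t := qv F 6 / (a * b) with ht
  set c := qv F 2 - r ^ 2 * a - s ^ 2 * b - t ^ 2 * a * b with hc_def
  have hP2 : a * qv F 1 * qv F 2 + (qv F 3 * qv F 4 * qv F 5 + qv F 3 * qv F 4 * qv F 5) - a * qv F 4 ^ 2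
      - qv F 1 * qv F 5 ^ 2 - qv F 2 * qv F 3 ^ 2 - qv F 6 ^ 2 ≠ 0 := by
    have := ne_of_eval F (X 0 * X 1 * X 2 + (X 3 * X 4 * X 5 + X 3 * X 4 * X 5) - X 0 * X 4 ^ 2
      - X 1 * X 5 ^ 2 - X 2 * X 3 ^ 2 - X 6 ^ 2) (fun i => if i = 0 ∨ i = 1 ∨ i = 2 then 1 else 0)
      (by simp)
    simpa [qv, ha_def] using this
  have hab : a * b = a * qv F 1 - qv F 3 ^ 2 := by
    rw [hb_def, hp]; field_simp
  have e1 : a * p = qv F 3 := by rw [hp]; field_simp
  have e2 : a * r = qv F 5 := by rw [hr]; field_simp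
  have e3 : b * s = qv F 4 - p * r * a := by rw [hs]; field_simp
  have e4 : a * b * t = qv F 6 := by rw [ht]; field_simp
  have hc : c ≠ 0 := by
    intro h0
    apply hP2
    have key : a * qv F 1 * qv F 2 + (qv F 3 * qv F 4 * qv F 5 + qv F 3 * qv F 4 * qv F 5) - a * qv F 4 ^ 2
      - qv F 1 * qv F 5 ^ 2 - qv F 2 * qv F 3 ^ 2 - qv F 6 ^ 2 = a * b * c := by
      have h1 : qv F 1 = b + p ^ 2 * a := by rw [hb_def]; ring
      have h2 : qv F 2 = c + r ^ 2 * a + s ^ 2 * b + t ^ 2 * a * b := by rw [hc_def]; ring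
      have h4 : qv F 4 = b * s + p * r * a := by rw [e3]; ring
      rw [h1, h2, h4, ← e1, ← e2, ← e4]
      ring
    rw [key, h0, mul_zero]
  refine ⟨octo a b c, xv, yv p, zv r s t, ?_, ?_, ?_, ?_, ?_, ?_, ?_, ?_⟩
  · rw [octo_form]
    simp only [oform,
    xv_0, xv_1, xv_2, xv_3, xv_4, xv_5, xv_6, yv_0, yv_1, yv_2, yv_3, yv_4, yv_5, yv_6,
    zv_0, zv_1, zv_2, zv_3, zv_4, zv_5, zv_6, wv_0, wv_1, wv_2, wv_3, wv_4, wv_5, wv_6]
    ring
  · rw [octo_form]
    simp only [oform,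
    xv_0, xv_1, xv_2, xv_3, xv_4, xv_5, xv_6, yv_0, yv_1, yv_2, yv_3, yv_4, yv_5, yv_6,
    zv_0, zv_1, zv_2, zv_3, zv_4, zv_5, zv_6, wv_0, wv_1, wv_2, wv_3, wv_4, wv_5, wv_6]
    rw [hb_def]; ring
  · rw [octo_form]
    simp only [oform,
    xv_0, xv_1, xv_2, xv_3, xv_4, xv_5, xv_6, yv_0, yv_1, yv_2, yv_3, yv_4, yv_5, yv_6,
    zv_0, zv_1, zv_2, zv_3, zv_4, zv_5, zv_6, wv_0, wv_1, wv_2, wv_3, wv_4, wv_5, wv_6]
    rw [hc_def]; ring
  · rw [octo_form]
    simp only [oform,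
    xv_0, xv_1, xv_2, xv_3, xv_4, xv_5, xv_6, yv_0, yv_1, yv_2, yv_3, yv_4, yv_5, yv_6,
    zv_0, zv_1, zv_2, zv_3, zv_4, zv_5, zv_6, wv_0, wv_1, wv_2, wv_3, wv_4, wv_5, wv_6]
    linear_combination e1
  · rw [octo_form]
    simp only [oform,
    xv_0, xv_1, xv_2, xv_3, xv_4, xv_5, xv_6, yv_0, yv_1, yv_2, yv_3, yv_4, yv_5, yv_6,
    zv_0, zv_1, zv_2, zv_3, zv_4, zv_5, zv_6, wv_0, wv_1, wv_2, wv_3, wv_4, wv_5, wv_6]
    linear_combination e3
  · rw [octo_form]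
    simp only [oform,
    xv_0, xv_1, xv_2, xv_3, xv_4, xv_5, xv_6, yv_0, yv_1, yv_2, yv_3, yv_4, yv_5, yv_6,
    zv_0, zv_1, zv_2, zv_3, zv_4, zv_5, zv_6, wv_0, wv_1, wv_2, wv_3, wv_4, wv_5, wv_6]
    linear_combination e2
  · rw [octo_form, octo_mul]
    simp only [oform, om0, om1, om2, om3, om4, om5, om6,
    xv_0, xv_1, xv_2, xv_3, xv_4, xv_5, xv_6, yv_0, yv_1, yv_2, yv_3, yv_4, yv_5, yv_6,
    zv_0, zv_1, zv_2, zv_3, zv_4, zv_5, zv_6, wv_0, wv_1, wv_2, wv_3, wv_4, wv_5, wv_6]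
    linear_combination e4
  · rw [octo_j]
    have h := indep a b c p r s t ha hb hc two_ne_zero
    exact h

end final

end Pool.Agent.Mal3
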