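import Pool.Agent.Mal3.WD2

set_option autoImplicit false
set_option linter.unusedSectionVars false

namespace Pool.Agent.Mal3

open Pool.Agent.MAL

section A3

variable (F : Type) [Field F] [CharZero F]

/-- the ring of operators -/
abbrev EE := OpR F (A3 F)

/-- multiplication by a generator -/
noncomputable def X (i : Fin 3) : EE F := (PA F).R (gen F i)

/-- the element `w` -/
noncomputable def ww : A3 F := jac (gen F 0) (gen F 1) (gen F 2)

theorem el_smul (s : F) (c : A3 F) : (PA F).el (s • c) = s • (PA F).el c := by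
  apply MulOpposite.unop_injective
  apply LinearMap.ext
  intro z
  change (ef F (s • c)) z = s • (ef F c) z
  rw [ef_apply, ef_apply, Prod.smul_mk, smul_zero, smul_comm]

/-- words of weight `n` -/
noncomputable def H (n : Fin 3 → ℤ) : Submodule F (EE F) :=
  Submodule.span F {e | ∃ l : List (Fin 3), (∀ i, (l.count i : ℤ) = n i) ∧
    wdE (PA F) (gen F) l = e}

theorem wdE_append (l1 l2 : List (Fin 3)) : wdE (PA F) (gen F) (l2 ++ l1)
    = wdE (PA F) (gen F) l1 * wdE (PA F) (gen F) l2 := by
  induction l2 with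
  | nil => simp [wdE]
  | cons k l2 ih => rw [List.cons_append, wdE, ih, wdE, mul_assoc]

theorem H_mul {n m : Fin 3 → ℤ} {a b : EE F} (ha : a ∈ H F n) (hb : b ∈ H F m) :
    a * b ∈ H F (n + m) := by
  have h : a * b ∈ H F n * H F m := Submodule.mul_mem_mul ha hb
  unfold H at h
  rw [Submodule.span_mul_span] at h
  refine Submodule.span_mono ?_ h
  rintro e ⟨a, ⟨l1, h1, rfl⟩, b, ⟨l2, h2, rfl⟩, rfl⟩
  refine ⟨l2 ++ l1, ?_, wdE_append F l1 l2⟩
  intro i
  rw [List.count_append, Pi.add_apply, ← h1, ← h2]
  push_cast; ring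

theorem H_X (i : Fin 3) : X F i ∈ H F (Pi.single i 1) := by
  apply Submodule.subset_span
  refine ⟨[i], ?_, ?_⟩
  · intro j
    by_cases h : j = i
    · subst h; simp
    · rw [Pi.single_eq_of_ne h, List.count_singleton]
      have : (i == j) = false := by simpa using (Ne.symm h)
      simp [this]
  · simp [wdE, X]

theorem el_actL (c : A3 F) (u : V3 F) : (PA F).el (actL c u)
    = (PA F).el c * Finsupp.linearCombination F (wdE (PA F) (gen F)) u := by
  induction u using Finsupp.induction_linear with
  | zero => rw [map_zero, map_zero, map_zero, mul_zero]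
  | add u v hu hv => rw [map_add, map_add, map_add, mul_add, hu, hv]
  | single l s =>
    unfold actL
    rw [Finsupp.linearCombination_single, Finsupp.linearCombination_single, el_smul, el_act,
      mul_smul_comm]

theorem H_exists {n : Fin 3 → ℤ} {e : EE F} (he : e ∈ H F n) : ∃ u : V3 F,
    u ∈ Finsupp.supported F F {l : List (Fin 3) | ∀ i, (l.count i : ℤ) = n i} ∧
    Finsupp.linearCombination F (wdE (PA F) (gen F)) u = e := by
  unfold H at he
  induction he using Submodule.span_induction with
  | mem x hx =>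
    obtain ⟨l, hl, rfl⟩ := hx
    refine ⟨Finsupp.single l 1, Finsupp.single_mem_supported F _ hl, ?_⟩
    rw [Finsupp.linearCombination_single, one_smul]
  | zero => exact ⟨0, Submodule.zero_mem _, map_zero _⟩
  | add x y _ _ hx hy =>
    obtain ⟨u, hu, rfl⟩ := hx
    obtain ⟨v, hv, rfl⟩ := hy
    exact ⟨u + v, Submodule.add_mem _ hu hv, map_add _ _ _⟩
  | smul c x _ hx =>
    obtain ⟨u, hu, rfl⟩ := hx
    exact ⟨c • u, Submodule.smul_mem _ _ hu, map_smul _ _ _⟩

/-- anticommutators of letters -/
noncomputable def PP (i k : Fin 3) : EE F := X F i * X F k + X F k * X F i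

/-- stability of the annihilator under multiplication by anticommutators -/
def WDp (d : EE F) : Prop :=
  ∀ n, ∀ u ∈ H F n, d * u = 0 → ∀ i k, d * PP F i k * u = 0

theorem jac_perm (i j k : Fin 3) (hij : i ≠ j) (hjk : j ≠ k) (hik : i ≠ k) :
    jac (gen F i) (gen F j) (gen F k) = ww F ∨ jac (gen F i) (gen F j) (gen F k) = - ww F := by
  have hs : ∀ x y z : A3 F, jac y x z = - jac x y z := by
    intro x y z
    unfold jac
    rw [(A3_malcev F).anti y x, (A3_malcev F).anti x z, (A3_malcev F).anti z y]
    simp only [neg_mul]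
    abel
  have hc : ∀ i j k : Fin 3, i ≠ j → j ≠ k → i ≠ k →
      (i = 0 ∧ j = 1 ∧ k = 2) ∨ (i = 1 ∧ j = 2 ∧ k = 0) ∨ (i = 2 ∧ j = 0 ∧ k = 1) ∨
      (i = 1 ∧ j = 0 ∧ k = 2) ∨ (i = 0 ∧ j = 2 ∧ k = 1) ∨ (i = 2 ∧ j = 1 ∧ k = 0) := by decide
  unfold ww
  rcases hc i j k hij hjk hik with h | h | h | h | h | h <;> obtain ⟨rfl, rfl, rfl⟩ := h
  · left; rfl
  · left; exact jac_cyc _ _ _
  · left; rw [jac_cyc, jac_cyc]
  · right; exact hs _ _ _
  · right; rw [hs, jac_cyc, jac_cyc]
  · right; rw [hs, jac_cyc]

theorem actL_neg (c : A3 F) (v : V3 F) : actL (-c) v = - actL c v := by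
  have h : actL (-c) = - actL c := by
    apply V3_ext
    intro l
    rw [LinearMap.neg_apply, actL_single, actL_single]
    induction l with
    | nil => rfl
    | cons k l ih => rw [act, act, ih, neg_mul]
  rw [h, LinearMap.neg_apply]

theorem WD_zero : WDp F ((PA F).el (ww F)) := by
  intro n u hu h0
  obtain ⟨v, hv, rfl⟩ := H_exists F hu
  rw [← el_actL] at h0
  have h1 : actL (ww F) v = 0 := (PA F).el_inj _ h0
  have hS : ∀ i k, v ∈ S2 F i k (n i) (n k) := by
    intro i k
    refine Finsupp.supported_mono ?_ hv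
    intro l hl
    exact ⟨hl i, hl k⟩
  have key : ∀ i k : Fin 3, i ≠ k →
      actL ((ww F * gen F i) * gen F i) v = 0 ∧
      actL ((ww F * gen F i) * gen F k + (ww F * gen F k) * gen F i) v = 0 := by
    intro i k hik
    obtain ⟨j, hij, hjk⟩ : ∃ j, i ≠ j ∧ j ≠ k := by
      revert i k; decide
    rcases jac_perm F i j k hij hjk hik with h | h
    · have := wd_pair F i j k hij hjk hik (n i) (n k) v (hS i k) (by rw [h]; exact h1)
      rw [h] at this
      exact this
    · have hneg : ∀ c : A3 F, actL (-c) v = - actL c v := fun c => actL_neg F c v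
      have := wd_pair F i j k hij hjk hik (n i) (n k) v (hS i k) (by
        rw [h, hneg, h1, neg_zero])
      rw [h] at this
      simp only [neg_mul, ← neg_add] at this
      rw [hneg, hneg, neg_eq_zero, neg_eq_zero] at this
      exact this
  intro i k
  have e : (PA F).el (ww F) * PP F i k
      = (PA F).el ((ww F * gen F i) * gen F k + (ww F * gen F k) * gen F i) := by
    unfold PP X
    rw [map_add, ← (PA F).el_mul, ← (PA F).el_mul, ← (PA F).el_mul, ← (PA F).el_mul]
    noncomm_ring
  rw [e, ← el_actL]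
  by_cases hik : i = k
  · subst hik
    have hex : ∀ i : Fin 3, ∃ k, i ≠ k := by decide
    obtain ⟨k, hik⟩ := hex i
    have h2 := (key i k hik).1
    have : actL ((ww F * gen F i) * gen F i + (ww F * gen F i) * gen F i) v = 0 := by
      apply (PA F).el_inj
      rw [el_actL, map_add, add_mul, ← el_actL, h2, map_zero, add_zero]
    rw [this, map_zero]
  · rw [(key i k hik).2, map_zero]

end A3

end Pool.Agent.Mal3
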