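import Pool.Agent.Mal3.Base

set_option autoImplicit false

namespace Pool.Agent.Mal3

namespace Rep

variable {M E : Type} [NonUnitalNonAssocRing M] [Ring E] (P : Rep M E)

/-- the three letter relations in a Malcev representation -/
theorem base (x y z : M) : Base (P.R x) (P.R y) (P.R z) (P.N y z) (P.N z x) (P.N x y)
    (P.th x y z) (P.T x y z) (P.T y z x) (P.T z x y) where
  tf := P.tf
  hx1 := P.U2 x y
  hx2 := by linear_combination (norm := noncomm_ring) P.U2b z x
  hy1 := by linear_combination (norm := noncomm_ring) P.U2b x y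
  hy2 := P.U2 y z
  hz1 := by linear_combination (norm := noncomm_ring) P.U2b y z
  hz2 := P.U2 z x
  ht1 := rfl
  ht2 := P.th_cyc x y z
  ht3 := (P.th_cyc z x y).symm
  hr := P.r4a x y
  hp := P.r4a y z
  hq := P.r4a z x
  hu1 := rfl
  hu2 := P.T_alt x y z
  hv1 := rfl
  hv2 := P.T_alt y z x
  hw1 := rfl
  hw2 := P.T_alt z x y
  hbx := P.r4b x y z
  hby := by have := P.r4b y z x; rwa [P.th_cyc x y z] at this
  hbz := by have := P.r4b z x y; rwa [← P.th_cyc z x y] at this
  uX := P.r5a x y z
  vY := P.r5a y z x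
  wZ := P.r5a z x y
  uY := P.r5ap x y z
  vZ := P.r5ap y z x
  wX := P.r5ap z x y
  dq := P.r5d x y z
  dr := by have := P.r5d y z x; rwa [P.th_cyc x y z] at this
  dp := by have := P.r5d z x y; rwa [← P.th_cyc z x y] at this

/-- the mirror representation -/
def op : Rep M Eᵐᵒᵖ where
  R := (MulOpposite.opAddEquiv : E ≃+ Eᵐᵒᵖ).toAddMonoidHom.comp (-P.R)
  anti := P.anti
  u2 := by
    intro a b
    apply MulOpposite.unop_injective
    have h := P.u2 a b
    simp only [AddMonoidHom.comp_apply, AddMonoidHom.neg_apply, AddEquiv.toAddMonoidHom_eq_coe,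
      AddMonoidHom.coe_coe, MulOpposite.opAddEquiv_apply, MulOpposite.unop_add,
      MulOpposite.unop_mul, MulOpposite.unop_op, MulOpposite.unop_sub, MulOpposite.unop_zero]
    linear_combination (norm := noncomm_ring) h
  u3 := by
    intro a b c
    apply MulOpposite.unop_injective
    have h := P.u3 a b c
    simp only [AddMonoidHom.comp_apply, AddMonoidHom.neg_apply, AddEquiv.toAddMonoidHom_eq_coe,
      AddMonoidHom.coe_coe, MulOpposite.opAddEquiv_apply, MulOpposite.unop_add,
      MulOpposite.unop_mul, MulOpposite.unop_op, MulOpposite.unop_sub, MulOpposite.unop_ofNat]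
    linear_combination (norm := noncomm_ring) -h
  tf := by
    intro n e hn he
    apply MulOpposite.unop_injective
    apply P.tf n _ hn
    have := congrArg MulOpposite.unop he
    simp only [MulOpposite.unop_mul, MulOpposite.unop_natCast, MulOpposite.unop_zero] at this
    rw [← this]
    exact (Nat.cast_commute n _).eq

theorem op_R (a : M) : P.op.R a = MulOpposite.op (-P.R a) := rfl

theorem op_N (a b : M) : P.op.N a b = MulOpposite.op (-P.N a b) := by
  unfold N
  simp only [op_R]
  apply MulOpposite.unop_injective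
  simp only [MulOpposite.unop_sub, MulOpposite.unop_mul, MulOpposite.unop_op]
  noncomm_ring

theorem op_Nt (a b : M) : P.op.Nt a b = MulOpposite.op (-P.Nt a b) := by
  unfold Nt
  simp only [op_R, op_N]
  apply MulOpposite.unop_injective
  simp only [MulOpposite.unop_sub, MulOpposite.unop_mul, MulOpposite.unop_op,
    MulOpposite.unop_add, MulOpposite.unop_ofNat]
  noncomm_ring

/-- mirror image of `T` -/
def Ts (x y z : M) : E := P.Nt z x * P.N x y

theorem op_T (x y z : M) : P.op.T x y z = MulOpposite.op (P.Ts x y z) := by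
  unfold T Ts
  simp only [op_N, op_Nt]
  apply MulOpposite.unop_injective
  simp only [MulOpposite.unop_mul, MulOpposite.unop_op]
  noncomm_ring

theorem Ts_alt (x y z : M) : P.Nt x y * P.N z x = - P.Ts x y z := by
  have h := P.op.T_alt x y z
  rw [op_N, op_Nt, op_T] at h
  have := congrArg MulOpposite.unop h
  simp only [MulOpposite.unop_mul, MulOpposite.unop_op, MulOpposite.unop_neg] at this
  linear_combination (norm := noncomm_ring) this

theorem m5ap (x y z : M) : P.R x * P.Ts y z x + P.R y * P.Ts x y z = 0 := by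
  have h := P.op.r5ap x y z
  rw [op_T, op_T, op_R, op_R] at h
  have := congrArg MulOpposite.unop h
  simp only [MulOpposite.unop_mul, MulOpposite.unop_op, MulOpposite.unop_add,
    MulOpposite.unop_zero] at this
  linear_combination (norm := noncomm_ring) -this

/-- `σ = 3 s_3 + 4 θ` (this is `-6 τ`) -/
def sg (x y z : M) : E :=
  3 * (P.R x * (P.R y * P.R z - P.R z * P.R y) + P.R y * (P.R z * P.R x - P.R x * P.R z)
    + P.R z * (P.R x * P.R y - P.R y * P.R x)) + 4 * P.th x y z

theorem sg_cyc (x y z : M) : P.sg y z x = P.sg x y z := by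
  unfold sg; rw [P.th_cyc]; noncomm_ring

/-- (5e) -/
theorem sg_comm (x y z : M) : P.N x y * P.sg x y z = P.sg x y z * P.N x y := by
  have h := P.base x y z
  have ht3 := h.ht3
  have hr := h.hr
  have ht1 := h.ht1
  have hx1 := h.hx1
  have hby := h.hby
  have hv1 := h.hv1
  have uY := h.uY
  have hu1 := h.hu1
  have ht2 := h.ht2
  have hy1 := h.hy1
  have hy2 := h.hy2
  have hV2 := P.Ts_alt y z x
  have hU2 := P.Ts_alt x y z
  have sXV := P.m5ap x y z
  have hbx := h.hbx
  unfold Nt at *
  generalize P.Ts x y z = U at *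
  generalize P.Ts y z x = V at *
  unfold sg
  linear_combination (norm := noncomm_ring)
    - 2 * ((P.N x y) * ht3) + 1 * (hr * (P.R z)) + 2 * (ht3 * (P.N x y)) + 2 * (ht1 * (P.N x y))
      - 1 * ((P.R z) * hr) + 3 * ((P.R z * P.R y) * hx1) - 3 * (ht3 * (P.R y * P.R x)) - 3 * (hby
      * (P.R x)) + 1 * (hv1 * (P.R x)) + 1 * (uY) + 1 * (hu1 * (P.R y)) - 2 * ((P.N x y) * ht2) +
      2 * (hy1 * (P.N z x)) - 2 * ((P.N y z) * hx1) + 3 * (hy2 * (P.R x * P.R x)) - 3 * (ht1 *
      (P.R y * P.R x)) + 3 * ((P.R x) * hy2 * (P.R x)) - 1 * ((P.R x) * hV2) + 3 * (hy1 * (P.R z *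
      P.R x)) + 3 * ((P.R z) * hx1 * (P.R y)) - 3 * ((P.R z * P.R x) * hy1) - 3 * ((P.R y) * ht1 *
      (P.R x)) - 1 * ((P.R y) * hU2) - 3 * ((P.R y) * ht3 * (P.R x)) + 1 * (sXV) - 3 * ((P.R y) *
      hbx)

end Rep
end Pool.Agent.Mal3
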