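import Mathlib

set_option autoImplicit false
set_option linter.unusedSectionVars false

namespace Pool.Agent.Mal3

section quot

variable {F A : Type} [Field F] [NonUnitalNonAssocRing A] [Module F A] [IsScalarTower F A A]
  [SMulCommClass F A A]

/-- data of an ideal -/
structure Idl (F A : Type) [Field F] [NonUnitalNonAssocRing A] [Module F A] where
  I : Submodule F A
  right : ∀ a ∈ I, ∀ b, a * b ∈ I
  left : ∀ a ∈ I, ∀ b, b * a ∈ I

/-- quotient algebra -/
def QA (J : Idl F A) : Type := A ⧸ J.I

variable (J : Idl F A)

noncomputable instance : AddCommGroup (QA J) := inferInstanceAs (AddCommGroup (A ⧸ J.I))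
noncomputable instance : Module F (QA J) := inferInstanceAs (Module F (A ⧸ J.I))

/-- multiplication on the quotient -/
noncomputable def mulQA : (A ⧸ J.I) →ₗ[F] (A ⧸ J.I) →ₗ[F] (A ⧸ J.I) :=
  J.I.liftQ
    { toFun := fun a => J.I.mapQ J.I (LinearMap.mulLeft F a) (fun b hb => J.left b hb a)
      map_add' := by
        intro a b
        apply LinearMap.ext
        intro c
        obtain ⟨c, rfl⟩ := J.I.mkQ_surjective c
        change J.I.mkQ ((a + b) * c) = J.I.mkQ (a * c) + J.I.mkQ (b * c)
        rw [add_mul, map_add]
      map_smul' := by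
        intro s a
        apply LinearMap.ext
        intro c
        obtain ⟨c, rfl⟩ := J.I.mkQ_surjective c
        change J.I.mkQ ((s • a) * c) = s • J.I.mkQ (a * c)
        rw [smul_mul_assoc, map_smul] }
    (by
      intro a ha
      rw [LinearMap.mem_ker]
      apply LinearMap.ext
      intro c
      obtain ⟨c, rfl⟩ := J.I.mkQ_surjective c
      change J.I.mkQ (a * c) = 0
      rw [Submodule.mkQ_apply, Submodule.Quotient.mk_eq_zero]
      exact J.right a ha c)

/-- multiplication -/
noncomputable def mulQL : QA J →ₗ[F] QA J →ₗ[F] QA J := mulQA J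

noncomputable instance : Mul (QA J) := ⟨fun a b => mulQL J a b⟩

theorem QA.mul_def (a b : QA J) : a * b = mulQL J a b := rfl

/-- projection, linear -/
noncomputable def qL : A →ₗ[F] QA J := J.I.mkQ

theorem qL_surj : Function.Surjective (qL J) := J.I.mkQ_surjective

theorem qL_mul (a b : A) : qL J (a * b) = qL J a * qL J b := rfl

theorem qL_eq_zero (a : A) : qL J a = 0 ↔ a ∈ J.I := Submodule.Quotient.mk_eq_zero _

noncomputable instance : NonUnitalNonAssocRing (QA J) :=
  { (inferInstance : AddCommGroup (QA J)), (inferInstance : Mul (QA J)) with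
    left_distrib := fun a b c => (mulQL J a).map_add b c
    right_distrib := fun a b c => by
      rw [QA.mul_def, map_add]; rfl
    zero_mul := fun a => by
      rw [QA.mul_def, map_zero]; rfl
    mul_zero := fun a => (mulQL J a).map_zero }

instance : IsScalarTower F (QA J) (QA J) :=
  ⟨fun s a b => by
    rw [smul_eq_mul, smul_eq_mul, QA.mul_def, map_smul]; rfl⟩

instance : SMulCommClass F (QA J) (QA J) :=
  ⟨fun s a b => ((mulQL J a).map_smul s b).symm⟩

/-- projection -/
noncomputable def qA : A →ₙₐ[F] QA J :=
  { qL J with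
    map_mul' := qL_mul J
    map_zero' := map_zero (qL J) }

theorem qA_surj : Function.Surjective (qA J) := qL_surj J

theorem qA_eq_zero (a : A) : qA J a = 0 ↔ a ∈ J.I := qL_eq_zero J a

end quot

end Pool.Agent.Mal3
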