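import Mathlib

set_option autoImplicit false

namespace Pool.Agent.Mal3

/-- abstract multiplication representation of a Malcev algebra (universal relations U2, U3) -/
structure Rep (M E : Type) [NonUnitalNonAssocRing M] [Ring E] where
  R : M →+ E
  anti : ∀ a b : M, b * a = - (a * b)
  u2 : ∀ a b : M, R a * (R (a * b) - (R a * R b - R b * R a))
      + (R (a * b) - (R a * R b - R b * R a)) * R a = 0
  u3 : ∀ a b c : M,
      2 * (R ((a * b) * c) - (R (a * b) * R c - R c * R (a * b)))
        = (R a * (R (b * c) - (R b * R c - R c * R b))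
            - (R (b * c) - (R b * R c - R c * R b)) * R a)
          + (R b * (R (c * a) - (R c * R a - R a * R c))
            - (R (c * a) - (R c * R a - R a * R c)) * R b)
          + 2 * (R c * (R (a * b) - (R a * R b - R b * R a))
            - (R (a * b) - (R a * R b - R b * R a)) * R c)
  tf : ∀ (n : ℕ) (e : E), n ≠ 0 → (n : E) * e = 0 → e = 0

namespace Rep

variable {M E : Type} [NonUnitalNonAssocRing M] [Ring E] (P : Rep M E)

include P in
theorem two (e : E) (he : 2 * e = 0) : e = 0 :=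
  P.tf 2 e (by norm_num) (by exact_mod_cast he)

include P in
theorem three (e : E) (he : 3 * e = 0) : e = 0 :=
  P.tf 3 e (by norm_num) (by exact_mod_cast he)

/-- the deviation `R_{ab} - [R_a, R_b]` -/
def N (a b : M) : E := P.R (a * b) - (P.R a * P.R b - P.R b * P.R a)

theorem R_mul (a b : M) : P.R (a * b) = P.N a b + (P.R a * P.R b - P.R b * P.R a) := by
  unfold N; abel

theorem N_swap (a b : M) : P.N b a = - P.N a b := by
  unfold N; rw [P.anti a b, map_neg]; abel

theorem N_self (a : M) : P.N a a = 0 := by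
  apply P.two
  have := P.N_swap a a
  linear_combination (norm := noncomm_ring) this

theorem N_add_left (a b c : M) : P.N (a + b) c = P.N a c + P.N b c := by
  unfold N; rw [add_mul, map_add, map_add]; noncomm_ring

theorem N_add_right (a b c : M) : P.N a (b + c) = P.N a b + P.N a c := by
  unfold N; rw [mul_add, map_add, map_add]; noncomm_ring

theorem N_neg_right (a b : M) : P.N a (-b) = - P.N a b := by
  unfold N; rw [mul_neg, map_neg, map_neg]; noncomm_ring

theorem N_neg_left (a b : M) : P.N (-a) b = - P.N a b := by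
  unfold N; rw [neg_mul, map_neg, map_neg]; noncomm_ring

/-- `{R_a, N_{a,b}} = 0` -/
theorem U2 (a b : M) : P.R a * P.N a b + P.N a b * P.R a = 0 := P.u2 a b

theorem U2a (a b : M) : P.R a * P.N a b = - (P.N a b * P.R a) := by
  have := P.U2 a b
  linear_combination (norm := noncomm_ring) this

theorem U2b (a b : M) : P.R b * P.N a b = - (P.N a b * P.R b) := by
  have := P.U2 b a
  rw [P.N_swap a b] at this
  linear_combination (norm := noncomm_ring) -this

/-- `θ(a,b,c) = {R_a, N_{b,c}}` -/
def th (a b c : M) : E := P.R a * P.N b c + P.N b c * P.R a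

theorem th_swap12 (a b c : M) : P.th b a c = - P.th a b c := by
  have h := P.U2 (a + b) c
  rw [map_add, P.N_add_left] at h
  have h1 := P.U2 a c
  have h2 := P.U2 b c
  unfold th
  linear_combination (norm := noncomm_ring) h - h1 - h2

theorem th_swap23 (a b c : M) : P.th a c b = - P.th a b c := by
  unfold th; rw [P.N_swap b c]; noncomm_ring

theorem th_cyc (a b c : M) : P.th b c a = P.th a b c := by
  rw [P.th_swap23, P.th_swap12, neg_neg]

theorem U3 (a b c : M) : 2 * P.N (a * b) c
    = (P.R a * P.N b c - P.N b c * P.R a) + (P.R b * P.N c a - P.N c a * P.R b)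
      + 2 * (P.R c * P.N a b - P.N a b * P.R c) := P.u3 a b c

/-- `N_{ab,a} = R_a N_{a,b}` -/
theorem N_mul_left (a b : M) : P.N (a * b) a = P.R a * P.N a b := by
  apply eq_of_sub_eq_zero
  apply P.two
  have h := P.U3 a b a
  rw [P.N_self, P.N_swap a b] at h
  have h2 := P.U2 a b
  linear_combination (norm := noncomm_ring) h - h2

/-- `N_{ab,b} = R_b N_{a,b}` -/
theorem N_mul_right (a b : M) : P.N (a * b) b = P.R b * P.N a b := by
  have h := P.N_mul_left b a
  rw [P.anti a b, P.N_neg_left, P.N_swap a b] at h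
  linear_combination (norm := noncomm_ring) -h

/-- `3 Ñ = 2 N + 3 [R, R]` -/
def Nt (a b : M) : E := 2 * P.N a b + 3 * (P.R a * P.R b - P.R b * P.R a)

theorem Nt_swap (a b : M) : P.Nt b a = - P.Nt a b := by
  unfold Nt; rw [P.N_swap a b]; noncomm_ring

theorem Nt_add_left (a b c : M) : P.Nt (a + b) c = P.Nt a c + P.Nt b c := by
  unfold Nt; rw [P.N_add_left, map_add]; noncomm_ring

theorem Nt_add_right (a b c : M) : P.Nt a (b + c) = P.Nt a b + P.Nt a c := by
  unfold Nt; rw [P.N_add_right, map_add]; noncomm_ring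

theorem r4a (a b : M) : P.N a b * P.Nt a b = 0 := by
  have h := P.th_cyc (a * b) a b
  unfold th at h
  rw [P.N_swap (a * b) b, P.N_mul_right, P.R_mul] at h
  have h1 := P.U2 a b
  have h2 := P.U2b a b
  unfold Nt
  linear_combination (norm := noncomm_ring)
    -1 * h - 2 * (h2 * (P.R a)) + 2 * (h1 * (P.R b)) - 2 * ((P.R a) * h2) + 1 * ((P.R b) * h1)

/-- polarised (4a) -/
theorem r4ap (a b c : M) : P.N a b * P.Nt a c + P.N a c * P.Nt a b = 0 := by
  have h := P.r4a a (b + c)
  rw [P.N_add_right, P.Nt_add_right] at h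
  have h1 := P.r4a a b
  have h2 := P.r4a a c
  linear_combination (norm := noncomm_ring) h - h1 - h2

/-- (4b) -/
theorem r4b (x y z : M) : 2 * (P.th x y z * P.R x)
    = (P.R x * P.R y - P.R y * P.R x) * P.N z x - (P.R z * P.R x - P.R x * P.R z) * P.N x y := by
  apply eq_of_sub_eq_zero
  apply P.two
  have h := P.U2 x (y * z)
  have h3 := P.U3 y z x
  rw [P.N_swap x (y * z)] at h3
  have hx1 := P.U2 x y
  have hx2 : P.R x * P.N z x + P.N z x * P.R x = 0 := by
    have := P.U2b z x
    linear_combination (norm := noncomm_ring) this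
  have ht1 : P.R x * P.N y z + P.N y z * P.R x = P.th x y z := rfl
  have ht2 : P.R y * P.N z x + P.N z x * P.R y = P.th x y z := P.th_cyc x y z
  have ht3 : P.R z * P.N x y + P.N x y * P.R z = P.th x y z := (P.th_cyc z x y).symm
  linear_combination (norm := noncomm_ring)
    -2 * (ht1 * (P.R x)) + 2 * ((P.R y) * hx2) - (-(2 * h) - P.R x * h3 - h3 * P.R x) - 1 * (ht3 * (P.R x)) - 1 * (ht2 * (P.R x)) + 2 * ((P.R z) * hx1) - 1 * ((P.R x) * ht2) - 1 * ((P.R x) * ht3) + 2 * ((P.R x) * ht1)

/-- `3 T_x = N_{xy} 3 Ñ_{zx}` -/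
def T (x y z : M) : E := P.N x y * P.Nt z x

theorem T_alt (x y z : M) : P.N z x * P.Nt x y = - P.T x y z := by
  have h := P.r4ap x y z
  rw [P.Nt_swap z x, P.N_swap z x] at h
  unfold T
  linear_combination (norm := noncomm_ring) -h

theorem T_swap (x y z : M) : P.T x z y = - P.T x y z := by
  rw [← P.T_alt x y z]
  unfold T
  rw [P.N_swap z x, P.Nt_swap x y]
  noncomm_ring

/-- (5a) -/
theorem r5a (x y z : M) : P.T x y z * P.R x = 0 := by
  have h := P.r4ap x y (x * z)
  have hn : P.N x (x * z) = P.R x * P.N z x := by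
    have h1 := P.N_mul_left x z
    rw [P.N_swap x (x * z), P.N_swap z x] at h1
    linear_combination (norm := noncomm_ring) -h1
  have hx1 := P.U2 x y
  have hx2 : P.R x * P.N z x + P.N z x * P.R x = 0 := by
    have := P.U2b z x
    linear_combination (norm := noncomm_ring) this
  have hu1 : P.N x y * P.Nt z x = P.T x y z := rfl
  have hu2 := P.T_alt x y z
  unfold Nt at h hu1 hu2
  rw [hn, P.R_mul, P.N_swap z x] at h
  linear_combination (norm := noncomm_ring)
    -1 * (hu1 * (P.R x)) + 2 * (hx1 * (P.N z x)) + 3 * (hx1 * (P.R z * P.R x)) - 1 * ((P.N x y) * hx2) - 1 * ((P.R x) * hu1) - 1 * ((P.R x) * hu2) + 1 * (h) - 3 * (hx1 * (P.R x * P.R z))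

theorem r5ap (x y z : M) : P.T x y z * P.R y + P.T y z x * P.R x = 0 := by
  have h := P.r5a (x + y) y z
  have hT : P.T (x + y) y z = P.T x y z + P.T y z x := by
    have hv2 := P.T_alt y z x
    unfold T at *
    rw [P.N_add_left, P.Nt_add_right, P.N_self]
    rw [P.Nt_swap y z]
    linear_combination (norm := noncomm_ring) -hv2
  rw [hT, map_add] at h
  have h1 := P.r5a x y z
  have h2 := P.r5a y z x
  linear_combination (norm := noncomm_ring) h - h1 - h2

/-- (5d) -/
theorem r5d (x y z : M) : P.th x y z * P.Nt z x = P.R z * P.T x y z - P.R x * P.T z x y := by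
  apply eq_of_sub_eq_zero
  apply P.three
  have hB1 := P.r4ap z x (x * y)
  have hB2 := P.r4ap x z (z * y)
  have hU1 := P.U3 x y z
  have hU2 := P.U3 z y x
  unfold Nt at *
  rw [P.N_swap (x * y) z, P.R_mul x y] at hB1
  rw [P.N_swap (z * y) x, P.R_mul z y, P.N_swap z x, P.N_swap y z] at hB2
  rw [P.N_swap x y, P.N_swap z x, P.N_swap y z] at hU2
  have hx2 : P.R x * P.N z x + P.N z x * P.R x = 0 := by
    have := P.U2b z x
    linear_combination (norm := noncomm_ring) this
  have hz2 := P.U2 z x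
  have ht1 : P.R x * P.N y z + P.N y z * P.R x = P.th x y z := rfl
  have hq := P.r4a z x
  have hu2 := P.T_alt x y z
  have hw1 : P.N z x * P.Nt y z = P.T z x y := rfl
  have hw2 := P.T_alt z x y
  have h5 := P.r5ap z x y
  unfold Nt at *
  linear_combination (norm := noncomm_ring)
    9 * (ht1 * (P.R x * P.R z)) + 3 * (h5) + 3 * (hw1 * (P.R x)) - 3 * (hu2 * (P.R z))
      + 2 * (2 * hB2 - 2 * (P.N z x * hU2)
        - hU2 * (2 * P.N z x + 3 * (P.R z * P.R x - P.R x * P.R z)))
      - 1 * (2 * hB1 + 2 * (P.N z x * hU1)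
        + hU1 * (2 * P.N z x + 3 * (P.R z * P.R x - P.R x * P.R z)))
      + 9 * (hz2 * (P.R x * P.R y)) - 1 * (hq * (P.R y)) + 1 * ((P.R y) * hq)
      - 6 * (ht1 * (P.N z x)) + 9 * (hx2 * (P.R z * P.R y)) - 9 * (hz2 * (P.R y * P.R x))
      - 9 * (hx2 * (P.R y * P.R z)) + 6 * (hz2 * (P.N x y)) - 6 * (hx2 * (P.N y z))
      + 6 * ((P.R x) * hw2) - 9 * (ht1 * (P.R z * P.R x)) - 3 * ((P.R z) * hu2)
      + 3 * ((P.R x) * hw1)

end Rep
end Pool.Agent.Mal3
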