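import Mathlib

set_option autoImplicit false
set_option linter.unusedSectionVars false

namespace Pool.Agent.Mal3

section kill

variable {F V A : Type} [Field F] [CharZero F] [AddCommGroup V] [Module F V] [AddCommGroup A]
  [Module F A]

theorem sl2_mem (G : V →ₗ[F] V) (S : ℤ → ℤ → Submodule F V)
    (hG : ∀ p r u, u ∈ S p r → G u ∈ S (p - 1) (r + 1)) (k : ℕ) :
    ∀ p r u, u ∈ S p r → (G ^ k) u ∈ S (p - k) (r + k) := by
  induction k with
  | zero => intro p r u hu; simpa using hu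
  | succ k ih =>
    intro p r u hu
    rw [pow_succ']
    have := hG _ _ _ (ih p r u hu)
    rw [Module.End.mul_apply]
    convert this using 2
    · push_cast; ring
    · push_cast; ring

theorem sl2_mem' (G : V →ₗ[F] V) (S : ℤ → ℤ → Submodule F V)
    (hG : ∀ p r u, u ∈ S p r → G u ∈ S (p + 1) (r - 1)) (k : ℕ) :
    ∀ p r u, u ∈ S p r → (G ^ k) u ∈ S (p + k) (r - k) := by
  induction k with
  | zero => intro p r u hu; simpa using hu
  | succ k ih =>
    intro p r u hu
    rw [pow_succ']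
    have := hG _ _ _ (ih p r u hu)
    rw [Module.End.mul_apply]
    convert this using 2
    · push_cast; ring
    · push_cast; ring

theorem sl2_K (G : V →ₗ[F] V) (K : Submodule F V) (hG : ∀ u ∈ K, G u ∈ K) (k : ℕ) :
    ∀ u ∈ K, (G ^ k) u ∈ K := by
  induction k with
  | zero => intro u hu; simpa using hu
  | succ k ih =>
    intro u hu
    rw [pow_succ', Module.End.mul_apply]
    exact hG _ (ih u hu)

theorem sl2_comm (E G : V →ₗ[F] V) (S : ℤ → ℤ → Submodule F V)
    (hG : ∀ p r u, u ∈ S p r → G u ∈ S (p - 1) (r + 1))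
    (comm : ∀ p r u, u ∈ S p r → E (G u) - G (E u) = ((p - r : ℤ) : F) • u) (k : ℕ) :
    ∀ p r u, u ∈ S p r → E ((G ^ (k + 1)) u)
      = (G ^ (k + 1)) (E u) + ((((k : ℤ) + 1) * (p - r - k) : ℤ) : F) • (G ^ k) u := by
  induction k with
  | zero =>
    intro p r u hu
    have := comm p r u hu
    rw [sub_eq_iff_eq_add] at this
    simp only [zero_add, pow_one, pow_zero, Module.End.one_apply]
    rw [this, add_comm]
    congr 2
    push_cast; ring
  | succ k ih =>
    intro p r u hu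
    have h1 := ih p r u hu
    have h2 := comm _ _ _ (sl2_mem G S hG (k + 1) p r u hu)
    rw [sub_eq_iff_eq_add] at h2
    have e : (G ^ (k + 1 + 1)) u = G ((G ^ (k + 1)) u) := by
      rw [pow_succ', Module.End.mul_apply]
    rw [e, h2, h1, map_add, map_smul]
    have e2 : G ((G ^ (k + 1)) (E u)) = (G ^ (k + 1 + 1)) (E u) := by
      rw [pow_succ' G (k + 1), Module.End.mul_apply]
    have e3 : G ((G ^ k) u) = (G ^ (k + 1)) u := by
      rw [pow_succ' G k, Module.End.mul_apply]
    rw [e2, e3]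
    push_cast
    module

/-- abstract `sl_2` argument -/
theorem sl2_kill (E G : V →ₗ[F] V) (S : ℤ → ℤ → Submodule F V) (K : Submodule F V)
    (hE : ∀ p r u, u ∈ S p r → E u ∈ S (p + 1) (r - 1))
    (hG : ∀ p r u, u ∈ S p r → G u ∈ S (p - 1) (r + 1))
    (hEK : ∀ u ∈ K, E u ∈ K) (hGK : ∀ u ∈ K, G u ∈ K)
    (comm : ∀ p r u, u ∈ S p r → E (G u) - G (E u) = ((p - r : ℤ) : F) • u)
    (neg1 : ∀ p r u, u ∈ S p r → p < 0 → u = 0)
    (neg2 : ∀ p r u, u ∈ S p r → r < 0 → u = 0)
    (a : V →ₗ[F] A)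
    (ha : ∀ p r u, u ∈ K → u ∈ S p r → (((1 + r) * (2 + p) : ℤ) : F) • a u = a (G (E u))) :
    ∀ p r u, u ∈ K → u ∈ S p r → a u = 0 := by
  intro p r u hK hS
  rcases lt_or_ge p 0 with hp | hp
  · rw [neg1 p r u hS hp, map_zero]
  rcases lt_or_ge r 0 with hr | hr
  · rw [neg2 p r u hS hr, map_zero]
  obtain ⟨n, rfl⟩ := Int.eq_ofNat_of_zero_le hr
  have hEk : ∀ k : ℕ, (E ^ k) u ∈ S (p + k) (n - k) := fun k => sl2_mem' E S hE k p n u hS
  have huS : ∀ k : ℕ, (G ^ k) ((E ^ k) u) ∈ S p n := by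
    intro k
    have := sl2_mem G S hG k _ _ _ (hEk k)
    convert this using 2 <;> ring
  have huK : ∀ k : ℕ, (G ^ k) ((E ^ k) u) ∈ K := fun k =>
    sl2_K G K hGK k _ (sl2_K E K hEK k u hK)
  have hrec : ∀ k : ℕ, (((1 + (n : ℤ)) * (2 + p) - k * (p - n + k + 1) : ℤ) : F) •
      a ((G ^ k) ((E ^ k) u)) = a ((G ^ (k + 1)) ((E ^ (k + 1)) u)) := by
    intro k
    have h1 := ha p n _ (huK k) (huS k)
    have h2 : G (E ((G ^ k) ((E ^ k) u))) = (G ^ (k + 1)) ((E ^ (k + 1)) u)
        + (((k : ℤ) * (p - n + k + 1) : ℤ) : F) • (G ^ k) ((E ^ k) u) := by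
      rcases k with _ | k
      · simp
      · have h3 := sl2_comm E G S hG comm k _ _ _ (hEk (k + 1))
        rw [h3, map_add, map_smul]
        have e2 : G ((G ^ (k + 1)) (E ((E ^ (k + 1)) u))) = (G ^ (k + 1 + 1)) ((E ^ (k + 1 + 1)) u) := by
          rw [pow_succ' G (k + 1), pow_succ' E (k + 1), Module.End.mul_apply, Module.End.mul_apply]
        have e3 : G ((G ^ k) ((E ^ (k + 1)) u)) = (G ^ (k + 1)) ((E ^ (k + 1)) u) := by
          rw [pow_succ' G k, Module.End.mul_apply]
        rw [e2, e3]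
        congr 2
        push_cast; ring
    rw [h2, map_add, map_smul] at h1
    rw [← sub_eq_iff_eq_add] at h1
    rw [← h1]
    push_cast
    module
  have hfin : ∀ m k : ℕ, k + m = n + 1 → a ((G ^ k) ((E ^ k) u)) = 0 := by
    intro m
    induction m with
    | zero =>
      intro k hk
      have h0 : (E ^ k) u = 0 := by
        apply neg2 _ _ _ (hEk k)
        have : (k : ℤ) = n + 1 := by exact_mod_cast hk
        omega
      rw [h0, map_zero, map_zero]
    | succ m ih =>
      intro k hk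
      have h1 := hrec k
      rw [ih (k + 1) (by omega), smul_eq_zero] at h1
      rcases h1 with h1 | h1
      · exfalso
        have h2 : (1 + (n : ℤ)) * (2 + p) - k * (p - n + k + 1) = 0 := by exact_mod_cast h1
        have hkn : (k : ℤ) ≤ n := by omega
        have hk0 : (0 : ℤ) ≤ k := by omega
        nlinarith [mul_nonneg hk0 (sub_nonneg.mpr hkn), mul_nonneg (sub_nonneg.mpr hkn) hp]
      · exact h1
  simpa using hfin (n + 1) 0 (by omega)

end kill

end Pool.Agent.Mal3
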