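import Pool.Agent.Mal3.Clos

set_option autoImplicit false
set_option linter.unusedSectionVars false

namespace Pool.Agent.Mal3

open Pool.Agent.MAL

section A3

variable (F : Type) [Field F] [CharZero F]

/-- anticommutators of the generators -/
noncomputable def Pm (m : Fin 6) : EE F := Pv (X F 0) (X F 1) (X F 2) m

/-- generators -/
noncomputable def Lm (j : Fin 3) : EE F := Lv (X F 0) (X F 1) (X F 2) j

/-- the standard polynomial of the generators -/
noncomputable def Sm : EE F := Sv (X F 0) (X F 1) (X F 2)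

theorem Lm_eq (j : Fin 3) : Lm F j = X F j := by
  fin_cases j <;> rfl

theorem H_comm {n m : Fin 3 → ℤ} {a b : EE F} (ha : a ∈ H F n) (hb : b ∈ H F m) :
    a * b - b * a ∈ H F (n + m) := by
  apply Submodule.sub_mem
  · exact H_mul F ha hb
  · rw [add_comm]; exact H_mul F hb ha

theorem H_acomm {n m : Fin 3 → ℤ} {a b : EE F} (ha : a ∈ H F n) (hb : b ∈ H F m) :
    a * b + b * a ∈ H F (n + m) := by
  apply Submodule.add_mem
  · exact H_mul F ha hb
  · rw [add_comm]; exact H_mul F hb ha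

theorem Pm_hom (m : Fin 6) : ∃ n, Pm F m ∈ H F n := by
  have h0 := H_X F 0
  have h1 := H_X F 1
  have h2 := H_X F 2
  match m with
  | 0 => exact ⟨_, H_mul F h0 h0⟩
  | 1 => exact ⟨_, H_mul F h1 h1⟩
  | 2 => exact ⟨_, H_mul F h2 h2⟩
  | 3 => exact ⟨_, H_acomm F h0 h1⟩
  | 4 => exact ⟨_, H_acomm F h1 h2⟩
  | 5 => exact ⟨_, H_acomm F h2 h0⟩

theorem Lm_hom (j : Fin 3) : ∃ n, Lm F j ∈ H F n := ⟨_, by rw [Lm_eq]; exact H_X F j⟩

theorem Sm_hom : ∃ n, Sm F ∈ H F n := by
  have h0 := H_X F 0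
  have h1 := H_X F 1
  have h2 := H_X F 2
  refine ⟨Pi.single 0 1 + (Pi.single 1 1 + Pi.single 2 1), ?_⟩
  unfold Sm Sv
  apply Submodule.add_mem
  · apply Submodule.add_mem
    · exact H_mul F h0 (H_comm F h1 h2)
    · have := H_mul F h1 (H_comm F h2 h0)
      have e : (Pi.single 1 1 + (Pi.single 2 1 + Pi.single 0 1) : Fin 3 → ℤ)
        = Pi.single 0 1 + (Pi.single 1 1 + Pi.single 2 1) := by abel
      rwa [e] at this
  · have := H_mul F h2 (H_comm F h0 h1)
    have e : (Pi.single 2 1 + (Pi.single 0 1 + Pi.single 1 1) : Fin 3 → ℤ)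
      = Pi.single 0 1 + (Pi.single 1 1 + Pi.single 2 1) := by abel
    rwa [e] at this

/-- stability, second form -/
def WDq (d : EE F) : Prop := ∀ n, ∀ u ∈ H F n, d * u = 0 → ∀ m, d * Pm F m * u = 0

theorem WDq_of (d : EE F) (h : WDp F d) : WDq F d := by
  intro n u hu h0 m
  have h1 := h n u hu h0
  have two : ∀ e : EE F, e + e = 0 → e = 0 := fun e he => (PA F).two e (by rw [two_mul]; exact he)
  match m with
  | 0 =>
    apply two
    have e := h1 0 0
    unfold PP at e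
    rw [mul_add, add_mul] at e
    exact e
  | 1 =>
    apply two
    have e := h1 1 1
    unfold PP at e
    rw [mul_add, add_mul] at e
    exact e
  | 2 =>
    apply two
    have e := h1 2 2
    unfold PP at e
    rw [mul_add, add_mul] at e
    exact e
  | 3 => exact h1 0 1
  | 4 => exact h1 1 2
  | 5 => exact h1 2 0

/-- good left factors -/
structure Nice (d : EE F) : Prop where
  kL : ∀ m j, d * (Pm F m * Lm F j - Lm F j * Pm F m) = 0
  kP : ∀ m m', d * (Pm F m * Pm F m' - Pm F m' * Pm F m) = 0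
  kS : ∀ m, d * (Pm F m * Sm F - Sm F * Pm F m) = 0
  wd : WDq F d

/-- the triples over the free algebra -/
def TA (a b c d : EE F) : Prop := TR (PA F).toRep (gen F 0) (gen F 1) (gen F 2) a b c d

theorem nice_of {a b c d : EE F} (h : TA F a b c d) (hd : WDq F d) : Nice F d := by
  have h' := h
  unfold TA TR at h'
  refine ⟨h'.kL, h'.kP, h'.kS ?_, hd⟩
  intro m m' j
  obtain ⟨n1, h1⟩ := Pm_hom F m'
  obtain ⟨n2, h2⟩ := Lm_hom F j
  exact hd _ _ (H_comm F h1 h2) (h'.kL m' j) m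

theorem Nice.mulP {d : EE F} (h : Nice F d) (m : Fin 6) : Nice F (d * Pm F m) := by
  obtain ⟨n0, h0⟩ := Pm_hom F m
  refine ⟨?_, ?_, ?_, ?_⟩
  · intro m' j
    obtain ⟨n1, h1⟩ := Pm_hom F m'
    obtain ⟨n2, h2⟩ := Lm_hom F j
    exact h.wd _ _ (H_comm F h1 h2) (h.kL m' j) m
  · intro m' m''
    obtain ⟨n1, h1⟩ := Pm_hom F m'
    obtain ⟨n2, h2⟩ := Pm_hom F m''
    exact h.wd _ _ (H_comm F h1 h2) (h.kP m' m'') m
  · intro m'
    obtain ⟨n1, h1⟩ := Pm_hom F m'
    obtain ⟨n2, h2⟩ := Sm_hom F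
    exact h.wd _ _ (H_comm F h1 h2) (h.kS m') m
  · intro n u hu hz m'
    have e1 := h.wd _ _ (H_mul F h0 hu) (by rw [← mul_assoc]; exact hz) m'
    have e2 := h.kP m m'
    have e3 : d * Pm F m * Pm F m' = d * Pm F m' * Pm F m := by
      rw [mul_assoc, mul_assoc, ← sub_eq_zero, ← mul_sub]; exact e2
    rw [e3, mul_assoc]
    exact e1

theorem Nice.mulS {d : EE F} (h : Nice F d) : WDq F (d * Sm F) := by
  obtain ⟨n0, h0⟩ := Sm_hom F
  intro n u hu hz m'
  have e1 := h.wd _ _ (H_mul F h0 hu) (by rw [← mul_assoc]; exact hz) m'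
  have e2 := h.kS m'
  have e3 : d * Sm F * Pm F m' = d * Pm F m' * Sm F := by
    rw [mul_assoc, mul_assoc, eq_comm, ← sub_eq_zero, ← mul_sub]; exact e2
  rw [e3, mul_assoc]
  exact e1

/-- the tower -/
noncomputable def dd : ℕ → EE F
  | 0 => (PA F).el (ww F)
  | β + 1 => dd β * Sm F

theorem tower (β : ℕ) : (∃ a b c, TA F a b c (dd F β)) ∧ Nice F (dd F β) := by
  induction β with
  | zero =>
    have h : TA F _ _ _ (dd F 0) := TR.first (PA F) (A3_malcev F).sq (gen F 0) (gen F 1) (gen F 2)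
    exact ⟨⟨_, _, _, h⟩, nice_of F h (WDq_of F _ (WD_zero F))⟩
  | succ β ih =>
    obtain ⟨⟨a, b, c, h⟩, hn⟩ := ih
    have h2 : TA F _ _ _ (dd F (β + 1)) := TR.next h
    exact ⟨⟨_, _, _, h2⟩, nice_of F h2 (hn.mulS F)⟩

/-- the left factors of the normal form -/
inductive CC : EE F → Prop
  | base (β : ℕ) : CC (dd F β)
  | step (c : EE F) (m : Fin 6) : CC c → CC (c * Pm F m)

theorem CC.nice {c : EE F} (h : CC F c) : Nice F c := by
  induction h with
  | base β => exact (tower F β).2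
  | step c m _ ih => exact ih.mulP F m

theorem CC.mulS {c : EE F} (h : CC F c) : CC F (c * Sm F) := by
  induction h with
  | base β => exact CC.base (β + 1)
  | step c m hc ih =>
    have e2 := (hc.nice F).kS m
    have e3 : c * Pm F m * Sm F = c * Sm F * Pm F m := by
      rw [mul_assoc, mul_assoc, ← sub_eq_zero, ← mul_sub]; exact e2
    rw [e3]
    exact CC.step _ m ih

/-- seven commuting letters -/
noncomputable def op7 (k : Fin 7) : EE F :=
  match k with
  | 0 => Pm F 0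
  | 1 => Pm F 1
  | 2 => Pm F 2
  | 3 => Pm F 3
  | 4 => Pm F 4
  | 5 => Pm F 5
  | 6 => Sm F

theorem CC.mul7 {c : EE F} (h : CC F c) (k : Fin 7) : CC F (c * op7 F k) :=
  match k with
  | 0 => CC.step _ 0 h
  | 1 => CC.step _ 1 h
  | 2 => CC.step _ 2 h
  | 3 => CC.step _ 3 h
  | 4 => CC.step _ 4 h
  | 5 => CC.step _ 5 h
  | 6 => h.mulS F

theorem op7_cases (k : Fin 7) : (∃ m, op7 F k = Pm F m) ∨ op7 F k = Sm F := by
  match k with
  | 0 => exact Or.inl ⟨0, rfl⟩
  | 1 => exact Or.inl ⟨1, rfl⟩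
  | 2 => exact Or.inl ⟨2, rfl⟩
  | 3 => exact Or.inl ⟨3, rfl⟩
  | 4 => exact Or.inl ⟨4, rfl⟩
  | 5 => exact Or.inl ⟨5, rfl⟩
  | 6 => exact Or.inr rfl

theorem CC.comm7 {c : EE F} (h : CC F c) (k j : Fin 7) :
    c * op7 F k * op7 F j = c * op7 F j * op7 F k := by
  have hn := h.nice F
  rw [mul_assoc, mul_assoc, ← sub_eq_zero, ← mul_sub]
  rcases op7_cases F k with ⟨m, hm⟩ | hm <;> rcases op7_cases F j with ⟨m', hm'⟩ | hm' <;>
    rw [hm, hm']
  · exact hn.kP m m'
  · exact hn.kS m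
  · have := hn.kS m'
    rw [mul_sub, sub_eq_zero] at this ⊢
    exact this.symm
  · rw [sub_self, mul_zero]

/-- left factors indexed by lists -/
noncomputable def cL : List (Fin 7) → EE F
  | [] => (PA F).el (ww F)
  | k :: l => cL l * op7 F k

theorem cL_CC (l : List (Fin 7)) : CC F (cL F l) := by
  induction l with
  | nil => exact CC.base 0
  | cons k l ih => exact ih.mul7 F k

theorem cL_perm {l l' : List (Fin 7)} (h : l.Perm l') : cL F l = cL F l' := by
  induction h with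
  | nil => rfl
  | cons k _ ih => rw [cL, cL, ih]
  | swap k j l => rw [cL, cL, cL, cL]; exact (cL_CC F l).comm7 F k j
  | trans _ _ ih1 ih2 => rw [ih1, ih2]

/-- every left factor is indexed by a list -/
theorem CC_exists {c : EE F} (h : CC F c) : ∃ l, cL F l = c := by
  induction h with
  | base β =>
    induction β with
    | zero => exact ⟨[], rfl⟩
    | succ β ih =>
      obtain ⟨l, hl⟩ := ih
      exact ⟨6 :: l, by rw [cL, hl]; rfl⟩
  | step c m _ ih =>
    obtain ⟨l, hl⟩ := ih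
    match m with
    | 0 => exact ⟨0 :: l, by rw [cL, hl]; rfl⟩
    | 1 => exact ⟨1 :: l, by rw [cL, hl]; rfl⟩
    | 2 => exact ⟨2 :: l, by rw [cL, hl]; rfl⟩
    | 3 => exact ⟨3 :: l, by rw [cL, hl]; rfl⟩
    | 4 => exact ⟨4 :: l, by rw [cL, hl]; rfl⟩
    | 5 => exact ⟨5 :: l, by rw [cL, hl]; rfl⟩

/-- right factors -/
noncomputable def Vm (k : Fin 7) : EE F := Vv (X F 0) (X F 1) (X F 2) k

theorem act_span (l : List (Fin 3)) : (PA F).el (act (gen F) (ww F) l) ∈
    Submodule.span F {e : EE F | ∃ L k, cL F L * Vm F k = e} := by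
  have hset : {e : EE F | ∃ L k, cL F L * Vm F k = e}
      = {e : EE F | ∃ c ∈ {c | CC F c}, ∃ k, c * Vv (X F 0) (X F 1) (X F 2) k = e} := by
    ext e
    constructor
    · rintro ⟨L, k, rfl⟩
      exact ⟨_, cL_CC F L, k, rfl⟩
    · rintro ⟨c, hc, k, rfl⟩
      obtain ⟨L, rfl⟩ := CC_exists F hc
      exact ⟨L, k, rfl⟩
  rw [hset]
  have hcl := clos (F := F) (X F 0) (X F 1) (X F 2) {c | CC F c}
    (fun c hc m => CC.step c m hc) (fun c hc => CC.mulS F hc)
    (fun c hc m j => (CC.nice F hc).kL m j)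
  induction l with
  | nil =>
    apply Submodule.subset_span
    exact ⟨(PA F).el (ww F), CC.base 0, 0, mul_one _⟩
  | cons k l ih =>
    rw [act, ← (PA F).el_mul]
    have := hcl _ ih k
    have e : Lv (X F 0) (X F 1) (X F 2) k = (PA F).R (gen F k) := Lm_eq F k
    rw [← e]
    exact this

end A3

end Pool.Agent.Mal3
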