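import Pool.Agent.Mal3.Ideal
import Pool.Agent.Mal3.Quot
import Pool.Agent.Mal3.Fin
import Pool.Agent.Mal3.Model
import Pool.Agent.Mal.LieKill

set_option autoImplicit false
set_option linter.unusedSectionVars false

namespace Pool.Agent.Mal3

open Pool.Agent.MAL Pool.Agent.Mal

section A3

variable (F : Type) [Field F] [CharZero F]

/-- right multiplication by a generator, linear -/
noncomputable def rm (i : Fin 3) : A3 F →ₗ[F] A3 F := LinearMap.mulRight F (gen F i)

theorem rm_apply (i : Fin 3) (a : A3 F) : rm F i a = a * gen F i := rfl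

theorem el_rm (i : Fin 3) (a : A3 F) : (PA F).el (rm F i a) = (PA F).el a * X F i :=
  ((PA F).el_mul a (gen F i)).symm

/-- the seven commuting operators on elements -/
noncomputable def opA : Fin 7 → (A3 F →ₗ[F] A3 F)
  | 0 => rm F 0 ∘ₗ rm F 0
  | 1 => rm F 1 ∘ₗ rm F 1
  | 2 => rm F 2 ∘ₗ rm F 2
  | 3 => rm F 1 ∘ₗ rm F 0 + rm F 0 ∘ₗ rm F 1
  | 4 => rm F 2 ∘ₗ rm F 1 + rm F 1 ∘ₗ rm F 2
  | 5 => rm F 0 ∘ₗ rm F 2 + rm F 2 ∘ₗ rm F 0
  | 6 => (rm F 2 ∘ₗ rm F 1 ∘ₗ rm F 0 - rm F 1 ∘ₗ rm F 2 ∘ₗ rm F 0)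
      + (rm F 0 ∘ₗ rm F 2 ∘ₗ rm F 1 - rm F 2 ∘ₗ rm F 0 ∘ₗ rm F 1)
      + (rm F 1 ∘ₗ rm F 0 ∘ₗ rm F 2 - rm F 0 ∘ₗ rm F 1 ∘ₗ rm F 2)

/-- the seven right factors on elements -/
noncomputable def opV : Fin 7 → (A3 F →ₗ[F] A3 F)
  | 0 => LinearMap.id
  | 1 => rm F 0
  | 2 => rm F 1
  | 3 => rm F 2
  | 4 => rm F 1 ∘ₗ rm F 0 - rm F 0 ∘ₗ rm F 1
  | 5 => rm F 2 ∘ₗ rm F 1 - rm F 1 ∘ₗ rm F 2
  | 6 => rm F 0 ∘ₗ rm F 2 - rm F 2 ∘ₗ rm F 0

theorem el_opA (k : Fin 7) (a : A3 F) : (PA F).el (opA F k a) = (PA F).el a * op7 F k := by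
  match k with
  | 0 =>
    change (PA F).el (rm F 0 (rm F 0 a)) = (PA F).el a * (X F 0 * X F 0)
    rw [el_rm, el_rm, mul_assoc]
  | 1 =>
    change (PA F).el (rm F 1 (rm F 1 a)) = (PA F).el a * (X F 1 * X F 1)
    rw [el_rm, el_rm, mul_assoc]
  | 2 =>
    change (PA F).el (rm F 2 (rm F 2 a)) = (PA F).el a * (X F 2 * X F 2)
    rw [el_rm, el_rm, mul_assoc]
  | 3 =>
    change (PA F).el (rm F 1 (rm F 0 a) + rm F 0 (rm F 1 a))
      = (PA F).el a * (X F 0 * X F 1 + X F 1 * X F 0)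
    rw [map_add, el_rm, el_rm, el_rm, el_rm, mul_add, mul_assoc, mul_assoc]
  | 4 =>
    change (PA F).el (rm F 2 (rm F 1 a) + rm F 1 (rm F 2 a))
      = (PA F).el a * (X F 1 * X F 2 + X F 2 * X F 1)
    rw [map_add, el_rm, el_rm, el_rm, el_rm, mul_add, mul_assoc, mul_assoc]
  | 5 =>
    change (PA F).el (rm F 0 (rm F 2 a) + rm F 2 (rm F 0 a))
      = (PA F).el a * (X F 2 * X F 0 + X F 0 * X F 2)
    rw [map_add, el_rm, el_rm, el_rm, el_rm, mul_add, mul_assoc, mul_assoc]
  | 6 =>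
    change (PA F).el ((rm F 2 (rm F 1 (rm F 0 a)) - rm F 1 (rm F 2 (rm F 0 a)))
      + (rm F 0 (rm F 2 (rm F 1 a)) - rm F 2 (rm F 0 (rm F 1 a)))
      + (rm F 1 (rm F 0 (rm F 2 a)) - rm F 0 (rm F 1 (rm F 2 a))))
      = (PA F).el a * (X F 0 * (X F 1 * X F 2 - X F 2 * X F 1)
        + X F 1 * (X F 2 * X F 0 - X F 0 * X F 2) + X F 2 * (X F 0 * X F 1 - X F 1 * X F 0))
    simp only [map_add, map_sub, el_rm, mul_add, mul_sub, mul_assoc]

theorem el_opV (k : Fin 7) (a : A3 F) : (PA F).el (opV F k a) = (PA F).el a * Vm F k := by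
  match k with
  | 0 => exact (mul_one _).symm
  | 1 => exact el_rm F 0 a
  | 2 => exact el_rm F 1 a
  | 3 => exact el_rm F 2 a
  | 4 =>
    change (PA F).el (rm F 1 (rm F 0 a) - rm F 0 (rm F 1 a))
      = (PA F).el a * (X F 0 * X F 1 - X F 1 * X F 0)
    rw [map_sub, el_rm, el_rm, el_rm, el_rm, mul_sub, mul_assoc, mul_assoc]
  | 5 =>
    change (PA F).el (rm F 2 (rm F 1 a) - rm F 1 (rm F 2 a))
      = (PA F).el a * (X F 1 * X F 2 - X F 2 * X F 1)
    rw [map_sub, el_rm, el_rm, el_rm, el_rm, mul_sub, mul_assoc, mul_assoc]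
  | 6 =>
    change (PA F).el (rm F 0 (rm F 2 a) - rm F 2 (rm F 0 a))
      = (PA F).el a * (X F 2 * X F 0 - X F 0 * X F 2)
    rw [map_sub, el_rm, el_rm, el_rm, el_rm, mul_sub, mul_assoc, mul_assoc]

/-- left factors as elements -/
noncomputable def cA : List (Fin 7) → A3 F
  | [] => ww F
  | k :: l => opA F k (cA l)

theorem el_cA (l : List (Fin 7)) : (PA F).el (cA F l) = cL F l := by
  induction l with
  | nil => rfl
  | cons k l ih => rw [cA, el_opA, ih, cL]

theorem cA_perm {l l' : List (Fin 7)} (h : l.Perm l') : cA F l = cA F l' := by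
  rw [← sub_eq_zero]
  apply (PA F).el_inj
  rw [map_sub, el_cA, el_cA, cL_perm F h, sub_self]

/-- the list of a multiset -/
def lst (m : Fin 7 →₀ ℕ) : List (Fin 7) :=
  List.replicate (m 0) 0 ++ (List.replicate (m 1) 1 ++ (List.replicate (m 2) 2
    ++ (List.replicate (m 3) 3 ++ (List.replicate (m 4) 4 ++ (List.replicate (m 5) 5
    ++ List.replicate (m 6) 6)))))

theorem lst_perm (l : List (Fin 7)) : l.Perm (lst (Finsupp.equivFunOnFinite.symm
    (fun i => l.count i))) := by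
  rw [List.perm_iff_count]
  intro k
  unfold lst
  simp only [List.count_append, List.count_replicate, Finsupp.equivFunOnFinite_symm_apply_apply]
  match k with
  | 0 => simp
  | 1 => simp
  | 2 => simp
  | 3 => simp
  | 4 => simp
  | 5 => simp
  | 6 => simp

/-- left factors indexed by exponents -/
noncomputable def wm (m : Fin 7 →₀ ℕ) : A3 F := cA F (lst m)

theorem cA_wm (l : List (Fin 7)) : ∃ m, cA F l = wm F m := ⟨_, cA_perm F (lst_perm l)⟩

theorem W_le : W F ≤ Submodule.span F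
    (Set.range (fun p : (Fin 7 →₀ ℕ) × Fin 7 => opV F p.2 (wm F p.1))) := by
  unfold W
  rw [Submodule.span_le]
  rintro _ ⟨l, rfl⟩
  have h := act_span F l
  have h2 : Submodule.span F {e : EE F | ∃ L k, cL F L * Vm F k = e} ≤
      (Submodule.span F (Set.range (fun p : (Fin 7 →₀ ℕ) × Fin 7 => opV F p.2 (wm F p.1)))).map
        (IdealX.elL F) := by
    rw [Submodule.span_le]
    rintro _ ⟨L, k, rfl⟩
    obtain ⟨m, hm⟩ := cA_wm F L
    refine ⟨opV F k (wm F m), Submodule.subset_span ⟨(m, k), rfl⟩, ?_⟩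
    rw [IdealX.elL_apply, el_opV, ← hm, el_cA]
  obtain ⟨s, hs, hse⟩ := h2 h
  have : s = act (gen F) (ww F) l := by
    rw [← sub_eq_zero]
    apply (PA F).el_inj
    rw [map_sub, ← IdealX.elL_apply, hse, sub_self]
  change act (gen F) (ww F) l ∈ _
  rw [← this]
  exact hs

/-- the ideal of the Jacobians -/
noncomputable def JW : Idl F (A3 F) where
  I := W F
  right := fun _ ha b => W_ideal ha b
  left := fun _ ha b => W_ideal_left ha b

theorem QA_lie : IsLie (QA (JW F)) := by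
  constructor
  · intro x
    obtain ⟨x, rfl⟩ := qA_surj (JW F) x
    rw [← map_mul, (A3_malcev F).sq, map_zero]
  · intro x y z
    obtain ⟨x, rfl⟩ := qA_surj (JW F) x
    obtain ⟨y, rfl⟩ := qA_surj (JW F) y
    obtain ⟨z, rfl⟩ := qA_surj (JW F) z
    simp only [← map_mul, ← map_add]
    rw [qA_eq_zero]
    exact jac_mem x y z

/-- multiplicativity of lifts -/
theorem lift_alg {A B : Type} [NonUnitalNonAssocRing A] [Module F A] [IsScalarTower F A A]
    [SMulCommClass F A A] [NonUnitalNonAssocRing B] [Module F B] [IsScalarTower F B B]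
    [SMulCommClass F B B] (φ : A →ₙₐ[F] B) (u : ℕ → A) (f : FreeNonUnitalNonAssocAlgebra F ℕ) :
    φ (FreeNonUnitalNonAssocAlgebra.lift F u f)
      = FreeNonUnitalNonAssocAlgebra.lift F (fun i => φ (u i)) f := by
  have h : φ.comp (FreeNonUnitalNonAssocAlgebra.lift F u)
      = FreeNonUnitalNonAssocAlgebra.lift F (fun i => φ (u i)) := by
    apply FreeNonUnitalNonAssocAlgebra.hom_ext
    intro i
    rw [FreeNonUnitalNonAssocAlgebra.lift_of_apply]
    change φ (FreeNonUnitalNonAssocAlgebra.lift F u (FreeNonUnitalNonAssocAlgebra.of F i)) = _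
    rw [FreeNonUnitalNonAssocAlgebra.lift_of_apply]
  exact congrArg (fun k => k f) h

/-- the scalars -/
def eps : Fin 7 → F
  | 0 => -1
  | 1 => -1
  | 2 => -1
  | 3 => -2
  | 4 => -2
  | 5 => -2
  | 6 => 6

theorem eps_ne (k : Fin 7) : eps F k ≠ 0 := by
  match k with
  | 0 => simp [eps]
  | 1 => simp [eps]
  | 2 => simp [eps]
  | 3 => simp [eps]
  | 4 => simp [eps]
  | 5 => simp [eps]
  | 6 => simp [eps]

/-- the seven operators in a cross product algebra -/
def Tb {K V : Type} [CommRing K] [AddCommGroup V] [Module K V] (C : CpAlg K V) (x y z : V) :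
    Fin 7 → (V →ₗ[K] V)
  | 0 => rmul C x ∘ₗ rmul C x
  | 1 => rmul C y ∘ₗ rmul C y
  | 2 => rmul C z ∘ₗ rmul C z
  | 3 => rmul C y ∘ₗ rmul C x + rmul C x ∘ₗ rmul C y
  | 4 => rmul C z ∘ₗ rmul C y + rmul C y ∘ₗ rmul C z
  | 5 => rmul C x ∘ₗ rmul C z + rmul C z ∘ₗ rmul C x
  | 6 => (rmul C z ∘ₗ rmul C y ∘ₗ rmul C x - rmul C y ∘ₗ rmul C z ∘ₗ rmul C x)
      + (rmul C x ∘ₗ rmul C z ∘ₗ rmul C y - rmul C z ∘ₗ rmul C x ∘ₗ rmul C y)
      + (rmul C y ∘ₗ rmul C x ∘ₗ rmul C z - rmul C x ∘ₗ rmul C y ∘ₗ rmul C z)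

theorem half_eq {K V : Type} [Field K] [CharZero K] [AddCommGroup V] [Module K V] (u v : V)
    (q : K) (h : u + u = (-2 * q) • v) : u = (-1 * q) • v := by
  have h2 : (2 : K) • (u - (-1 * q) • v) = 0 := by
    rw [smul_sub, two_smul, h, smul_smul, ← sub_smul]
    have : -2 * q - 2 * (-1 * q) = 0 := by ring
    rw [this, zero_smul]
  rw [smul_eq_zero] at h2
  rcases h2 with h2 | h2
  · exact absurd h2 two_ne_zero
  · exact sub_eq_zero.mp h2

/-- an element of the Jacobian ideal that vanishes on the model is zero -/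
theorem W_model (e : A3 F) (he : e ∈ W F)
    (h0 : ∀ (C : CpAlg (KK F) (Fin 7 → KK F)) (v : Fin 3 → C.Car),
      lift3 (F := F) ⟨C.car_mul_self, C.car_malcev⟩ v e = 0) : e = 0 := by
  obtain ⟨C, x, y, z, hxx, hyy, hzz, hxy, hyz, hzx, hτ, hind⟩ := model F
  have hM : IsMalcev C.Car := ⟨C.car_mul_self, C.car_malcev⟩
  let v : Fin 3 → C.Car := fun i => match i with
    | 0 => x
    | 1 => y
    | 2 => z
  let π : A3 F →ₗ[F] C.Car := (lift3 (F := F) hM v : A3 F →ₗ[F] C.Car)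
  have hπm : ∀ a b : A3 F, π (a * b) = C.mul (π a) (π b) := fun a b =>
    map_mul (lift3 (F := F) hM v) a b
  have hπg : ∀ i, π (gen F i) = v i := fun i => lift3_gen hM v i
  have hπr : ∀ (i : Fin 3) (a : A3 F), π (rm F i a) = rmul C (v i) (π a) := by
    intro i a
    rw [rm_apply, hπm, hπg]; rfl
  set w : Fin 7 → KK F := C.j x y z with hw
  have hwx : C.form w x = 0 := by rw [hw, C.form_j_left]
  have hwy : C.form w y = 0 := by rw [hw, C.form_j_mid]
  have hwz : C.form w z = 0 := by rw [hw, C.form_j_right]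
  haveI : Invertible (2 : KK F) := invertibleOfNonzero two_ne_zero
  -- operators
  have hT : ∀ (k : Fin 7) (a : A3 F), π (opA F k a) = Tb C x y z k (π a) := by
    intro k a
    match k with
    | 0 => change π (rm F 0 (rm F 0 a)) = _; rw [hπr, hπr]; rfl
    | 1 => change π (rm F 1 (rm F 1 a)) = _; rw [hπr, hπr]; rfl
    | 2 => change π (rm F 2 (rm F 2 a)) = _; rw [hπr, hπr]; rfl
    | 3 => change π (rm F 1 (rm F 0 a) + rm F 0 (rm F 1 a)) = _; rw [map_add, hπr, hπr, hπr, hπr]; rfl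
    | 4 => change π (rm F 2 (rm F 1 a) + rm F 1 (rm F 2 a)) = _; rw [map_add, hπr, hπr, hπr, hπr]; rfl
    | 5 => change π (rm F 0 (rm F 2 a) + rm F 2 (rm F 0 a)) = _; rw [map_add, hπr, hπr, hπr, hπr]; rfl
    | 6 =>
      change π ((rm F 2 (rm F 1 (rm F 0 a)) - rm F 1 (rm F 2 (rm F 0 a)))
        + (rm F 0 (rm F 2 (rm F 1 a)) - rm F 2 (rm F 0 (rm F 1 a)))
        + (rm F 1 (rm F 0 (rm F 2 a)) - rm F 0 (rm F 1 (rm F 2 a)))) = _
      simp only [map_add, map_sub, hπr]
      rfl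
  have hV : ∀ (k : Fin 7) (a : A3 F), π (opV F k a) = Vb C x y z k (π a) := by
    intro k a
    match k with
    | 0 => rfl
    | 1 => exact hπr 0 a
    | 2 => exact hπr 1 a
    | 3 => exact hπr 2 a
    | 4 => change π (rm F 1 (rm F 0 a) - rm F 0 (rm F 1 a)) = _; rw [map_sub, hπr, hπr, hπr, hπr]; rfl
    | 5 => change π (rm F 2 (rm F 1 a) - rm F 1 (rm F 2 a)) = _; rw [map_sub, hπr, hπr, hπr, hπr]; rfl
    | 6 => change π (rm F 0 (rm F 2 a) - rm F 2 (rm F 0 a)) = _; rw [map_sub, hπr, hπr, hπr, hπr]; rfl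
  have hTw : ∀ k : Fin 7, Tb C x y z k w = (algebraMap F (KK F) (eps F k) * qv F k) • w := by
    intro k
    match k with
    | 0 =>
      change C.mul (C.mul w x) x = (algebraMap F (KK F) (-1) * qv F 0) • w
      rw [map_neg, map_one, ← hxx]
      exact half_eq _ _ _ (C.w_anti w x x hwx hwx)
    | 1 =>
      change C.mul (C.mul w y) y = (algebraMap F (KK F) (-1) * qv F 1) • w
      rw [map_neg, map_one, ← hyy]
      exact half_eq _ _ _ (C.w_anti w y y hwy hwy)
    | 2 =>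
      change C.mul (C.mul w z) z = (algebraMap F (KK F) (-1) * qv F 2) • w
      rw [map_neg, map_one, ← hzz]
      exact half_eq _ _ _ (C.w_anti w z z hwz hwz)
    | 3 =>
      change C.mul (C.mul w x) y + C.mul (C.mul w y) x = (algebraMap F (KK F) (-2) * qv F 3) • w
      rw [map_neg, map_ofNat, ← hxy]
      exact C.w_anti w x y hwx hwy
    | 4 =>
      change C.mul (C.mul w y) z + C.mul (C.mul w z) y = (algebraMap F (KK F) (-2) * qv F 4) • w
      rw [map_neg, map_ofNat, ← hyz]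
      exact C.w_anti w y z hwy hwz
    | 5 =>
      change C.mul (C.mul w z) x + C.mul (C.mul w x) z = (algebraMap F (KK F) (-2) * qv F 5) • w
      rw [map_neg, map_ofNat, ← hzx]
      exact C.w_anti w z x hwz hwx
    | 6 =>
      change (C.mul (C.mul (C.mul w x) y) z - C.mul (C.mul (C.mul w x) z) y)
        + (C.mul (C.mul (C.mul w y) z) x - C.mul (C.mul (C.mul w y) x) z)
        + (C.mul (C.mul (C.mul w z) x) y - C.mul (C.mul (C.mul w z) y) x)
        = (algebraMap F (KK F) 6 * qv F 6) • w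
      rw [map_ofNat, ← hτ]
      exact C.w_S x y z w hw
  -- the Jacobian
  have hw3 : π (ww F) = (3 : KK F) • w := by
    have e : ww F = (gen F 0 * gen F 1) * gen F 2 + (gen F 1 * gen F 2) * gen F 0
      + (gen F 2 * gen F 0) * gen F 1 := rfl
    rw [e, map_add, map_add, hπm, hπm, hπm, hπm, hπm, hπm, hπg, hπg, hπg]
    exact C.jac_eq x y z
  have hcA : ∀ l : List (Fin 7), π (cA F l)
      = ((l.map (fun k => algebraMap F (KK F) (eps F k) * qv F k)).prod) • ((3 : KK F) • w) := by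
    intro l
    induction l with
    | nil => rw [List.map_nil, List.prod_nil, one_smul]; exact hw3
    | cons k l ih =>
      rw [cA, hT, ih, List.map_cons, List.prod_cons, map_smul, map_smul, hTw]
      rw [smul_comm (3 : KK F), smul_smul, smul_smul, smul_smul]
      congr 1
      ring
  have hwm : ∀ m : Fin 7 →₀ ℕ, π (wm F m)
      = (∏ i, (algebraMap F (KK F) (eps F i) * qv F i) ^ m i) • ((3 : KK F) • w) := by
    intro m
    unfold wm
    rw [hcA, Fin.prod_univ_seven]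
    unfold lst
    simp only [List.map_append, List.prod_append, List.map_replicate, List.prod_replicate]
    congr 1
    ring
  have hind3 : LinearIndependent (KK F) (fun k => Vb C x y z k ((3 : KK F) • w)) := by
    have h := hind.units_smul (fun _ => Units.mk0 (3 : KK F) three_ne_zero)
    have e : (fun k => Vb C x y z k ((3 : KK F) • w))
        = (fun _ : Fin 7 => Units.mk0 (3 : KK F) three_ne_zero) • (fun k => Vb C x y z k w) := by
      funext k
      rw [map_smul, Pi.smul_apply', Units.smul_def, Units.val_mk0]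
    rw [e]
    exact h
  have hinj := fin_inj (F := F) (K := KK F) (V := C.Car) π (qv F) (qv_ind F)
    ((3 : KK F) • w) (fun k => Vb C x y z k) hind3 (opV F) hV (wm F) (eps F) (eps_ne F) hwm e
    (W_le F he) (h0 C v)
  exact hinj

/-- the second half of the theorem -/
theorem three (f : FreeNonUnitalNonAssocAlgebra F ℕ) (hf : SqKill F f) : ThreeKill F f := by
  intro M _ _ _ _ hsq hmal a b c v hv
  have hM : IsMalcev M := ⟨hsq, hmal⟩
  let g : Fin 3 → M := fun i => match i with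
    | 0 => a
    | 1 => b
    | 2 => c
  let φ : A3 F →ₙₐ[F] M := lift3 hM g
  have hφ : ∀ i, φ (gen F i) = g i := fun i => lift3_gen hM g i
  have hle : NonUnitalAlgebra.adjoin F ({a, b, c} : Set M) ≤ NonUnitalAlgHom.range φ := by
    apply NonUnitalAlgebra.adjoin_le
    rintro t ht
    simp only [Set.mem_insert_iff, Set.mem_singleton_iff] at ht
    rcases ht with rfl | rfl | rfl
    · exact ⟨gen F 0, hφ 0⟩
    · exact ⟨gen F 1, hφ 1⟩
    · exact ⟨gen F 2, hφ 2⟩
  have hex : ∀ i, ∃ t, φ t = v i := fun i => hle (hv i)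
  choose u hu using hex
  have hv' : v = fun i => φ (u i) := by funext i; rw [hu]
  rw [hv', ← lift_alg]
  have h0 : FreeNonUnitalNonAssocAlgebra.lift F u f = 0 := by
    apply W_model F
    · have h1 := lie_sq f hf (QA_lie F) (fun i => qA (JW F) (u i))
      rw [← lift_alg] at h1
      exact (qA_eq_zero (JW F) _).mp h1
    · intro C v
      rw [lift_alg]
      exact C.kill_sq F f hf _
  rw [h0, map_zero]

end A3

end Pool.Agent.Mal3
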