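import Pool.Agent.Mal3.Nice

set_option autoImplicit false
set_option linter.unusedSectionVars false

namespace Pool.Agent.Mal3

open Pool.Agent.MAL

section gen

variable {E : Type} [Ring E]

/-- the six anticommutators -/
def Pv (X Y Z : E) : Fin 6 → E
  | 0 => X * X
  | 1 => Y * Y
  | 2 => Z * Z
  | 3 => X * Y + Y * X
  | 4 => Y * Z + Z * Y
  | 5 => Z * X + X * Z

/-- the three letters -/
def Lv (X Y Z : E) : Fin 3 → E
  | 0 => X
  | 1 => Y
  | 2 => Z

/-- the standard polynomial -/
def Sv (X Y Z : E) : E := X * (Y * Z - Z * Y) + Y * (Z * X - X * Z) + Z * (X * Y - Y * X)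

variable {X Y Z p q r t u v w a b c d : E}

theorem Trip.kL (h : Trip X Y Z p q r t u v w a b c d) :
    ∀ (m : Fin 6) (j : Fin 3), d * (Pv X Y Z m * Lv X Y Z j - Lv X Y Z j * Pv X Y Z m) = 0
  | 0, 0 => by simp only [Pv, Lv]; noncomm_ring
  | 0, 1 => h.k_XX_Y
  | 0, 2 => h.k_XX_Z
  | 1, 0 => h.k_YY_X
  | 1, 1 => by simp only [Pv, Lv]; noncomm_ring
  | 1, 2 => h.k_YY_Z
  | 2, 0 => h.k_ZZ_X
  | 2, 1 => h.k_ZZ_Y
  | 2, 2 => by simp only [Pv, Lv]; noncomm_ring
  | 3, 0 => by
    have e := h.k_XX_Y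
    simp only [Pv, Lv]
    linear_combination (norm := noncomm_ring) -e
  | 3, 1 => by
    have e := h.k_YY_X
    simp only [Pv, Lv]
    linear_combination (norm := noncomm_ring) -e
  | 3, 2 => h.k_XY_Z
  | 4, 0 => h.k_YZ_X
  | 4, 1 => by
    have e := h.k_YY_Z
    simp only [Pv, Lv]
    linear_combination (norm := noncomm_ring) -e
  | 4, 2 => by
    have e := h.k_ZZ_Y
    simp only [Pv, Lv]
    linear_combination (norm := noncomm_ring) -e
  | 5, 0 => by
    have e := h.k_XX_Z
    simp only [Pv, Lv]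
    linear_combination (norm := noncomm_ring) -e
  | 5, 1 => h.k_ZX_Y
  | 5, 2 => by
    have e := h.k_ZZ_X
    simp only [Pv, Lv]
    linear_combination (norm := noncomm_ring) -e

theorem Trip.kP (h : Trip X Y Z p q r t u v w a b c d) :
    ∀ (m m' : Fin 6), d * (Pv X Y Z m * Pv X Y Z m' - Pv X Y Z m' * Pv X Y Z m) = 0
  | 0, 0 => by simp only [Pv]; noncomm_ring
  | 0, 1 => h.k_XX_YY
  | 0, 2 => h.k_XX_ZZ
  | 0, 3 => h.k_XX_XY
  | 0, 4 => h.k_XX_YZ
  | 0, 5 => h.k_XX_ZX
  | 1, 0 => by
    have e := h.k_XX_YY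
    simp only [Pv]
    linear_combination (norm := noncomm_ring) -e
  | 1, 1 => by simp only [Pv]; noncomm_ring
  | 1, 2 => h.k_YY_ZZ
  | 1, 3 => h.k_YY_XY
  | 1, 4 => h.k_YY_YZ
  | 1, 5 => h.k_YY_ZX
  | 2, 0 => by
    have e := h.k_XX_ZZ
    simp only [Pv]
    linear_combination (norm := noncomm_ring) -e
  | 2, 1 => by
    have e := h.k_YY_ZZ
    simp only [Pv]
    linear_combination (norm := noncomm_ring) -e
  | 2, 2 => by simp only [Pv]; noncomm_ring
  | 2, 3 => h.k_ZZ_XY
  | 2, 4 => h.k_ZZ_YZ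
  | 2, 5 => h.k_ZZ_ZX
  | 3, 0 => by
    have e := h.k_XX_XY
    simp only [Pv]
    linear_combination (norm := noncomm_ring) -e
  | 3, 1 => by
    have e := h.k_YY_XY
    simp only [Pv]
    linear_combination (norm := noncomm_ring) -e
  | 3, 2 => by
    have e := h.k_ZZ_XY
    simp only [Pv]
    linear_combination (norm := noncomm_ring) -e
  | 3, 3 => by simp only [Pv]; noncomm_ring
  | 3, 4 => h.k_XY_YZ
  | 3, 5 => h.k_XY_ZX
  | 4, 0 => by
    have e := h.k_XX_YZ
    simp only [Pv]
    linear_combination (norm := noncomm_ring) -e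
  | 4, 1 => by
    have e := h.k_YY_YZ
    simp only [Pv]
    linear_combination (norm := noncomm_ring) -e
  | 4, 2 => by
    have e := h.k_ZZ_YZ
    simp only [Pv]
    linear_combination (norm := noncomm_ring) -e
  | 4, 3 => by
    have e := h.k_XY_YZ
    simp only [Pv]
    linear_combination (norm := noncomm_ring) -e
  | 4, 4 => by simp only [Pv]; noncomm_ring
  | 4, 5 => h.k_YZ_ZX
  | 5, 0 => by
    have e := h.k_XX_ZX
    simp only [Pv]
    linear_combination (norm := noncomm_ring) -e
  | 5, 1 => by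
    have e := h.k_YY_ZX
    simp only [Pv]
    linear_combination (norm := noncomm_ring) -e
  | 5, 2 => by
    have e := h.k_ZZ_ZX
    simp only [Pv]
    linear_combination (norm := noncomm_ring) -e
  | 5, 3 => by
    have e := h.k_XY_ZX
    simp only [Pv]
    linear_combination (norm := noncomm_ring) -e
  | 5, 4 => by
    have e := h.k_YZ_ZX
    simp only [Pv]
    linear_combination (norm := noncomm_ring) -e
  | 5, 5 => by simp only [Pv]; noncomm_ring

theorem Trip.kS (h : Trip X Y Z p q r t u v w a b c d)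
    (wd : ∀ (m m' : Fin 6) (j : Fin 3),
      d * Pv X Y Z m * (Pv X Y Z m' * Lv X Y Z j - Lv X Y Z j * Pv X Y Z m') = 0) :
    ∀ (m : Fin 6), d * (Pv X Y Z m * Sv X Y Z - Sv X Y Z * Pv X Y Z m) = 0
  | 0 => by
    have e := h.s3_XX (wd 5 0 1) (wd 3 0 2) (wd 0 3 2) (wd 0 4 0)
    simp only [Pv, Sv]
    linear_combination (norm := noncomm_ring) e
  | 1 => by
    have e := h.rot.s3_XX (wd 3 1 2) (wd 4 1 0) (wd 1 4 0) (wd 1 5 1)
    simp only [Pv, Sv]
    linear_combination (norm := noncomm_ring) e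
  | 2 => by
    have e := h.rot.rot.s3_XX (wd 4 2 0) (wd 5 2 1) (wd 2 5 1) (wd 2 3 2)
    simp only [Pv, Sv]
    linear_combination (norm := noncomm_ring) e
  | 3 => by
    have e := h.s3_XY (wd 3 4 0) (wd 5 1 0) (wd 3 3 2) (wd 4 0 1) (wd 1 0 2) (wd 0 1 2)
    simp only [Pv, Sv]
    linear_combination (norm := noncomm_ring) e
  | 4 => by
    have e := h.rot.s3_XY (wd 4 5 1) (wd 3 2 1) (wd 4 4 0) (wd 5 1 2) (wd 2 1 0) (wd 1 2 0)
    simp only [Pv, Sv]
    linear_combination (norm := noncomm_ring) e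
  | 5 => by
    have e := h.rot.rot.s3_XY (wd 5 3 2) (wd 4 0 2) (wd 5 5 1) (wd 3 2 0) (wd 0 2 1) (wd 2 0 1)
    simp only [Pv, Sv]
    linear_combination (norm := noncomm_ring) e

end gen

section next

variable {M E : Type} [NonUnitalNonAssocRing M] [Ring E]

/-- triples for a representation -/
def TR (P : Rep M E) (x y z : M) (a b c d : E) : Prop :=
  Trip (P.R x) (P.R y) (P.R z) (P.N y z) (P.N z x) (P.N x y) (P.th x y z) (P.T x y z)
    (P.T y z x) (P.T z x y) a b c d

theorem TR.next {P : Rep M E} {x y z : M} {a b c d : E} (h : TR P x y z a b c d) :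
    TR P x y z (-(a * P.sg x y z)) (-(b * P.sg x y z)) (-(c * P.sg x y z))
      (d * Sv (P.R x) (P.R y) (P.R z)) := by
  have cr := P.sg_comm x y z
  have cp : P.N y z * P.sg x y z = P.sg x y z * P.N y z := by
    have := P.sg_comm y z x
    rwa [P.sg_cyc] at this
  have cq : P.N z x * P.sg x y z = P.sg x y z * P.N z x := by
    have := P.sg_comm z x y
    rwa [← P.sg_cyc z x y] at this
  have hth := h.eth
  have hd : d * Sv (P.R x) (P.R y) (P.R z) = -(d * P.sg x y z) := by
    unfold Rep.sg Sv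
    linear_combination (norm := noncomm_ring) 4 * hth
  rw [hd]
  unfold TR at h ⊢
  have hap := h.ap
  have haq := h.aq
  have har := h.ar
  have hbp := h.bp
  have hbq := h.bq
  have hbr := h.br
  have hcp := h.cp
  have hcq := h.cq
  have hcr := h.cr
  generalize P.sg x y z = s at *
  exact
  { toBase := h.toBase
    ap := by linear_combination (norm := noncomm_ring) -hap * s + a * cp
    aq := by linear_combination (norm := noncomm_ring) -haq * s + a * cq
    ar := by linear_combination (norm := noncomm_ring) -har * s + a * cr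
    bq := by linear_combination (norm := noncomm_ring) -hbq * s + b * cq
    bp := by linear_combination (norm := noncomm_ring) -hbp * s + b * cp
    br := by linear_combination (norm := noncomm_ring) -hbr * s + b * cr
    cr := by linear_combination (norm := noncomm_ring) -hcr * s + c * cr
    cp := by linear_combination (norm := noncomm_ring) -hcp * s + c * cp
    cq := by linear_combination (norm := noncomm_ring) -hcq * s + c * cq }

theorem TR.first (P : ERep M E) (hsq : ∀ a : M, a * a = 0) (x y z : M) :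
    TR P.toRep x y z (P.el x) (P.el y) (P.el z) (P.el (jac x y z)) := by
  have hj0 : ∀ a b : M, jac a b a = 0 := by
    intro a b
    unfold jac
    rw [hsq, zero_mul, add_zero, P.anti a b, neg_mul, add_neg_cancel]
  have hj1 : ∀ a b : M, jac b a a = 0 := by
    intro a b
    unfold jac
    rw [hsq, zero_mul, add_zero, P.anti b a, neg_mul, add_neg_cancel]
  have hz : P.el 0 = 0 := map_zero _
  exact
  { toBase := P.base x y z
    ap := by rw [el_N, jac_cyc]
    aq := by rw [el_N, hj1, hz, neg_zero]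
    ar := by rw [el_N, hj0, hz, neg_zero]
    bq := by rw [el_N, ← jac_cyc x y z, jac_cyc, ← jac_cyc]
    bp := by rw [el_N, hj0, hz, neg_zero]
    br := by rw [el_N, hj1, hz, neg_zero]
    cr := by rw [el_N]
    cp := by rw [el_N, hj1, hz, neg_zero]
    cq := by rw [el_N, hj0, hz, neg_zero] }

end next

end Pool.Agent.Mal3
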