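import Pool.Agent.Mal3.Words

set_option autoImplicit false
set_option linter.unusedSectionVars false

namespace Pool.Agent.Mal3

/-- three elements and their Jacobian, seen as left module generators -/
structure Trip {E : Type} [Ring E] (X Y Z p q r t u v w a b c d : E) : Prop extends
    Base X Y Z p q r t u v w where
  ap : a * p = -d
  aq : a * q = 0
  ar : a * r = 0
  bq : b * q = -d
  bp : b * p = 0
  br : b * r = 0
  cr : c * r = -d
  cp : c * p = 0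
  cq : c * q = 0

namespace Trip

variable {E : Type} [Ring E] {X Y Z p q r t u v w a b c d : E}

/-- cyclic rotation -/
theorem rot (h : Trip X Y Z p q r t u v w a b c d) : Trip Y Z X q r p t v w u b c a d where
  toBase := h.toBase.rot
  ap := h.bq
  aq := h.br
  ar := h.bp
  bq := h.cr
  bp := h.cq
  br := h.cp
  cr := h.ap
  cp := h.aq
  cq := h.ar

/-- transposition of the last two letters -/
theorem swp (h : Trip X Y Z p q r t u v w a b c d) :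
    Trip X Z Y (-p) (-r) (-q) (-t) (-u) (-w) (-v) a c b (-d) where
  toBase := h.toBase.swp
  ap := by rw [mul_neg, h.ap]
  aq := by rw [mul_neg, h.ar, neg_zero]
  ar := by rw [mul_neg, h.aq, neg_zero]
  bq := by rw [mul_neg, h.cr]
  bp := by rw [mul_neg, h.cp, neg_zero]
  br := by rw [mul_neg, h.cq, neg_zero]
  cr := by rw [mul_neg, h.bq]
  cp := by rw [mul_neg, h.bp, neg_zero]
  cq := by rw [mul_neg, h.br, neg_zero]

theorem eNr (h : Trip X Y Z p q r t u v w a b c d) :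
    d * (2 * r + 3 * (X * Y - Y * X)) = 0 := by
  have hr := h.hr
  have cr := h.cr
  linear_combination (norm := noncomm_ring) cr * (2 * r + 3 * (X * Y - Y * X)) - c * hr

theorem eNp (h : Trip X Y Z p q r t u v w a b c d) :
    d * (2 * p + 3 * (Y * Z - Z * Y)) = 0 := h.rot.eNr

theorem eNq (h : Trip X Y Z p q r t u v w a b c d) :
    d * (2 * q + 3 * (Z * X - X * Z)) = 0 := h.rot.rot.eNr

theorem k_XX_Y (h : Trip X Y Z p q r t u v w a b c d) :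
    d * (X * X * Y - Y * (X * X)) = 0 := by
  have r_x2y := h.toBase.r_x2y
  have cr := h.cr
  linear_combination (norm := noncomm_ring) cr * (X * X * Y - Y * (X * X)) - c * r_x2y

theorem k_XY_Z (h : Trip X Y Z p q r t u v w a b c d) :
    d * ((X * Y + Y * X) * Z - Z * (X * Y + Y * X)) = 0 := by
  have eNp := h.eNp
  have eNq := h.eNq
  have ht1 := h.ht1
  have ht2 := h.ht2
  have ap := h.ap
  have hy2 := h.hy2
  have aq := h.aq
  have hw1 := h.hw1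
  have hw2 := h.hw2
  have hp := h.hp
  have key : (3 : E) * (d * ((X * Y + Y * X) * Z - Z * (X * Y + Y * X))) = 0 := by
    linear_combination (norm := noncomm_ring)
      1 * (eNp * (X)) - 1 * (eNq * (Y)) - 2 * ((d) * ht1) + 2 * ((d) * ht2) + 2 * (ap * (X * p))
        - 2 * (ap * (Y * q)) - 3 * (ap * (Y * Z * X)) + 3 * (ap * (Y * X * Z)) - 3 * (ap * (X *
        Z * Y)) + 3 * (ap * (X * Y * Z)) + 2 * ((a) * hy2 * (q)) + 3 * ((a) * hy2 * (Z * X)) - 3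
        * ((a) * hy2 * (X * Z)) - 2 * (aq * (Y * p)) - 2 * ((a) * ht1 * (p)) + 2 * ((a) * ht2 *
        (p)) + 3 * (aq * (Y * Z * Y)) - 3 * ((a) * ht2 * (Z * Y)) + 3 * ((a) * ht1 * (Z * Y)) -
        3 * ((a) * ht1 * (Y * Z)) + 3 * ((a) * ht2 * (Y * Z)) - 3 * (aq * (Y * Y * Z)) - 1 * ((a
        * Y) * hw1) - 1 * ((a * Y) * hw2) + 1 * ((a * X) * hp)
  exact h.tf 3 _ (by norm_num) (by exact_mod_cast key)

theorem eth (h : Trip X Y Z p q r t u v w a b c d) :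
    d * (t + (X * (Y * Z - Z * Y) + Y * (Z * X - X * Z) + Z * (X * Y - Y * X))) = 0 := by
  have ap := h.ap
  have eNp := h.eNp
  have eNq := h.eNq
  have eNr := h.eNr
  have ht2 := h.ht2
  have vZ := h.vZ
  have hw2 := h.hw2
  have ht1 := h.ht1
  have hy2 := h.hy2
  have hv1 := h.hv1
  have hp := h.hp
  have hz1 := h.hz1
  have aq := h.aq
  have dp := h.dp
  have ht3 := h.ht3
  have hw1 := h.hw1
  have hv2 := h.hv2
  have ar := h.ar
  have key : (6 : E) * (d * (t + (X * (Y * Z - Z * Y) + Y * (Z * X - X * Z) + Z * (X * Y - Y * X)))) = 0 := by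
    linear_combination (norm := noncomm_ring)
      6 * (ap * (t)) + 2 * (eNp * (X)) - 4 * (ap * (p * X)) + 2 * (eNq * (Y)) - 4 * (ap * (q *
        Y)) - 4 * (ap * (r * Z)) + 2 * (eNr * (Z)) + 2 * ((a * p) * ht2) - 1 * ((a) * vZ) + 1 *
        ((a) * hw2 * (Y)) + 2 * ((a * p) * ht1) - 2 * ((a) * hy2 * (q)) + 1 * ((a) * hv1 * (Z))
        + 1 * ((a) * hp * (X)) + 3 * ((a) * hz1 * (Y * X)) - 3 * ((a) * hz1 * (X * Y)) - 3 *
        ((a) * hy2 * (Z * X)) + 3 * ((a) * hy2 * (X * Z)) - 4 * (aq * (Y * p)) + 4 * ((a) * ht2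
        * (p)) - 2 * ((a) * ht1 * (p)) + 3 * ((a) * ht1 * (Z * Y)) - 6 * ((a) * ht2 * (Z * Y)) +
        6 * (aq * (Y * Z * Y)) - 3 * ((a) * ht1 * (Y * Z)) + 6 * ((a) * ht2 * (Y * Z)) - 6 * (aq
        * (Y * Y * Z)) + 3 * ((a) * dp) + 1 * ((a * Z) * hv1) - 2 * ((a) * hz1 * (r)) + 2 * ((a
        * p) * ht3) - 2 * ((a * Y) * hw1) - 2 * ((a * Z) * hv2) + 4 * ((a) * ht3 * (p)) - 4 *
        ((a * r) * hz1) + 2 * ((a) * hv2 * (Z)) - 6 * (ar * (Y * Z * Z)) + 6 * ((a) * ht3 * (Y *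
        Z)) + 1 * ((a * X) * hp) - 6 * ((a) * ht3 * (Z * Y)) + 6 * (ar * (Z * Z * Y)) + 1 * ((a
        * Y) * hw2)
  exact h.tf 6 _ (by norm_num) (by exact_mod_cast key)

theorem k_YY_ZZ (h : Trip X Y Z p q r t u v w a b c d) :
    d * (Y * Y * (Z * Z) - Z * Z * (Y * Y)) = 0 := by
  have ap := h.ap
  have hz1 := h.hz1
  have hy2 := h.hy2
  have hp := h.hp
  have key : (3 : E) * (d * (Y * Y * (Z * Z) - Z * Z * (Y * Y))) = 0 := by
    linear_combination (norm := noncomm_ring)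
      - 3 * (ap * (Z * Z * Y * Y)) + 3 * (ap * (Y * Y * Z * Z)) + 3 * ((a) * hz1 * (Z * Y * Y))
        - 3 * ((a) * hy2 * (Y * Z * Z)) - 2 * ((a * Z * p) * hy2) + 1 * ((a * Z) * hp * (Y)) + 2
        * ((a * Z) * hy2 * (p)) - 3 * ((a * Z) * hy2 * (Z * Y)) - 1 * ((a * Z * Y) * hp) + 3 *
        ((a) * hy2 * (Z * Y * Z)) - 3 * ((a) * hz1 * (Y * Y * Z)) + 2 * ((a * p) * hy2 * (Z)) -
        1 * ((a) * hp * (Y * Z)) - 2 * ((a) * hy2 * (p * Z)) + 3 * ((a * Z) * hy2 * (Y * Z)) + 1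
        * ((a * Y) * hp * (Z))
  exact h.tf 3 _ (by norm_num) (by exact_mod_cast key)

theorem k_YY_YZ (h : Trip X Y Z p q r t u v w a b c d) :
    d * (Y * Y * (Y * Z + Z * Y) - (Y * Z + Z * Y) * (Y * Y)) = 0 := by
  have hy2 := h.hy2
  have eNp := h.eNp
  have ap := h.ap
  have hp := h.hp
  have key : (3 : E) * (d * (Y * Y * (Y * Z + Z * Y) - (Y * Z + Z * Y) * (Y * Y))) = 0 := by
    linear_combination (norm := noncomm_ring)
      - 2 * ((d) * hy2 * (Y)) + 1 * (eNp * (Y * Y)) + 2 * ((d * Y) * hy2) - 6 * (ap * (Y * Z * Y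
        * Y)) - 2 * (ap * (Y * Y * p)) + 3 * (ap * (Y * Y * Z * Y)) + 3 * (ap * (Y * Y * Y * Z))
        + 6 * ((a) * hy2 * (Z * Y * Y)) + 2 * ((a) * hy2 * (Y * p)) + 2 * ((a * Y) * hy2 * (p))
        - 1 * ((a * Y * Y) * hp) - 3 * ((a) * hy2 * (Y * Z * Y)) - 3 * ((a * Y) * hy2 * (Z * Y))
        - 3 * ((a) * hy2 * (Y * Y * Z)) + 2 * ((a * Y) * hp * (Y)) - 4 * ((a * Y * p) * hy2) + 3
        * ((a * Y) * hy2 * (Y * Z))
  exact h.tf 3 _ (by norm_num) (by exact_mod_cast key)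

theorem k_ZZ_XY (h : Trip X Y Z p q r t u v w a b c d) :
    d * (Z * Z * (X * Y + Y * X) - (X * Y + Y * X) * (Z * Z)) = 0 := by
  have ap := h.ap
  have hz1 := h.hz1
  have hy2 := h.hy2
  have aq := h.aq
  have ht1 := h.ht1
  have ht2 := h.ht2
  have dp := h.dp
  have hz2 := h.hz2
  have vZ := h.vZ
  have hw2 := h.hw2
  have wZ := h.wZ
  have hp := h.hp
  have hw1 := h.hw1
  have key : (3 : E) * (d * (Z * Z * (X * Y + Y * X) - (X * Y + Y * X) * (Z * Z))) = 0 := by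
    linear_combination (norm := noncomm_ring)
      3 * (ap * (Z * Z * Y * X)) + 3 * (ap * (Z * Z * X * Y)) - 3 * (ap * (Y * X * Z * Z)) - 3 *
        (ap * (X * Y * Z * Z)) - 3 * ((a) * hz1 * (Z * Y * X)) - 3 * ((a) * hz1 * (Z * X * Y)) +
        3 * ((a) * hy2 * (X * Z * Z)) + 3 * (aq * (Y * Z * Y * Z)) + 3 * ((a) * ht1 * (Y * Z *
        Z)) - 2 * ((a) * ht2 * (Z * p)) - 2 * ((a * t) * hz1) + 1 * ((a) * dp * (Z)) - 3 * ((a)
        * ht2 * (Z * Y * Z)) + 2 * (aq * (Y * Z * p)) + 2 * ((a * Y) * hz2 * (p)) - 1 * ((a * Z)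
        * vZ) + 1 * ((a * Z) * hw2 * (Y)) - 3 * (aq * (Y * Z * Z * Y)) - 3 * ((a) * ht1 * (Z * Z
        * Y)) + 3 * ((a) * ht2 * (Z * Z * Y)) + 3 * ((a) * hz1 * (X * Z * Y)) - 2 * ((a) * hz1 *
        (q * Y)) + 2 * ((a * p) * hz2 * (Y)) - 1 * ((a) * hw2 * (Z * Y)) + 1 * ((a) * wZ * (Y))
        + 3 * ((a * X) * hz1 * (Z * Y)) - 1 * ((a * Z) * hp * (X)) + 2 * ((a) * hz1 * (p * X)) +
        1 * ((a) * hp * (Z * X)) - 2 * ((a * p) * hz1 * (X)) + 3 * ((a) * hz1 * (Y * Z * X)) - 3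
        * ((a) * hy2 * (Z * Z * X)) + 3 * ((a * Y) * hz1 * (Z * X)) + 1 * ((a * Y) * hw2 * (Z))
        - 3 * ((a * Y) * hz2 * (Z * Y)) + 3 * ((a * Y) * hz2 * (Y * Z)) - 2 * ((a * Y * p) *
        hz2) + 2 * ((a * Y) * hz1 * (q)) - 3 * ((a * Y) * hz1 * (X * Z)) - 1 * ((a * Y * Z) *
        hw1) - 1 * ((a * Y * Z) * hw2) - 3 * ((a * X) * hz1 * (Y * Z)) + 2 * ((a * X * p) * hz1)
        - 1 * ((a * X) * hp * (Z)) - 2 * ((a * X) * hz1 * (p)) + 1 * ((a * X * Z) * hp)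
  exact h.tf 3 _ (by norm_num) (by exact_mod_cast key)

theorem k_XY_YZ (h : Trip X Y Z p q r t u v w a b c d) :
    d * ((X * Y + Y * X) * (Y * Z + Z * Y) - (Y * Z + Z * Y) * (X * Y + Y * X)) = 0 := by
  have hy1 := h.hy1
  have ht3 := h.ht3
  have hby := h.hby
  have eNp := h.eNp
  have eNr := h.eNr
  have hv2 := h.hv2
  have hv1 := h.hv1
  have ap := h.ap
  have hy2 := h.hy2
  have hz1 := h.hz1
  have aq := h.aq
  have ht2 := h.ht2
  have ht1 := h.ht1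
  have dp := h.dp
  have hw2 := h.hw2
  have vZ := h.vZ
  have vY := h.vY
  have hw1 := h.hw1
  have hp := h.hp
  have key : (9 : E) * (d * ((X * Y + Y * X) * (Y * Z + Z * Y) - (Y * Z + Z * Y) * (X * Y + Y * X))) = 0 := by
    linear_combination (norm := noncomm_ring)
      - 12 * ((d * Z) * hy1) + 12 * ((d) * ht3 * (Y)) + 6 * ((d) * hby) - 3 * (eNp * (X * Y)) +
        3 * (eNp * (Y * X)) - 2 * (eNp * (r)) - 3 * (eNr * (Z * Y)) - 2 * (eNr * (p)) + 2 * ((d)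
        * hv2) + 2 * ((d) * hv1) - 3 * (eNr * (Y * Z)) - 18 * (ap * (Y * Z * Y * X)) + 18 * ((a)
        * hy2 * (Z * Y * X)) - 18 * ((a * Y) * hz1 * (Y * X)) + 12 * (ap * (Y * Z * r)) - 18 *
        (ap * (Z * Y * X * Y)) + 18 * (ap * (X * Y * Z * Y)) + 18 * (ap * (X * Y * Y * Z)) + 18
        * ((a) * hz1 * (Y * X * Y)) - 12 * ((a) * hy2 * (Z * r)) + 18 * (aq * (Y * Y * Z * Y)) -
        12 * (aq * (Y * Y * p)) - 18 * ((a) * ht2 * (Y * Z * Y)) + 12 * ((a) * ht2 * (Y * p)) +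
        18 * ((a) * ht1 * (Z * Y * Y)) + 12 * ((a * t) * hy2) - 6 * ((a) * dp * (Y)) + 12 * ((a)
        * hy2 * (q * Y)) - 12 * ((a) * hz1 * (r * Y)) + 12 * ((a * p) * ht3 * (Y)) - 12 * ((a *
        p) * ht2 * (Y)) + 6 * ((a) * hw2 * (Y * Y)) - 6 * ((a) * vZ * (Y)) - 6 * ((a) * hv1 * (Z
        * Y)) - 18 * ((a) * hz1 * (X * Y * Y)) - 18 * ((a) * hy2 * (X * Z * Y)) - 18 * (aq * (Y
        * Y * Y * Z)) - 18 * ((a) * ht1 * (Y * Y * Z)) + 18 * ((a) * ht2 * (Y * Y * Z)) + 18 *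
        ((a * X) * hy2 * (Y * Z)) + 12 * ((a * Z) * vY) + 6 * ((a * Z) * hv1 * (Y)) - 6 * ((a *
        Y) * hw2 * (Y)) - 18 * ((a * Y) * ht2 * (Y * Z)) + 18 * ((a * Y) * ht2 * (Z * Y)) - 12 *
        ((a * Y) * ht2 * (p)) - 6 * ((a * Y) * dp) + 12 * ((a * Y) * hz1 * (r)) + 18 * ((a * Y)
        * hz1 * (X * Y)) - 6 * ((a * Y * Z) * hv1) + 6 * ((a * Y * Y) * hw1) + 6 * ((a * X) * hp
        * (Y)) - 12 * ((a * X * p) * hy2) + 12 * ((a * X) * hy2 * (p)) - 18 * ((a * X) * hy2 *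
        (Z * Y)) - 6 * ((a * X * Y) * hp)
  exact h.tf 9 _ (by norm_num) (by exact_mod_cast key)

theorem k_ZZ_ZX (h : Trip X Y Z p q r t u v w a b c d) :
    d * ((Z * Z) * (Z * X + X * Z) - (Z * X + X * Z) * (Z * Z)) = 0 := by
  have e := h.rot.k_YY_YZ
  linear_combination (norm := noncomm_ring) (1 : ℤ) • e

theorem k_ZZ_YZ (h : Trip X Y Z p q r t u v w a b c d) :
    d * ((Z * Z) * (Y * Z + Z * Y) - (Y * Z + Z * Y) * (Z * Z)) = 0 := by
  have e := h.swp.k_YY_YZ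
  linear_combination (norm := noncomm_ring) (-1 : ℤ) • e

theorem k_YZ_X (h : Trip X Y Z p q r t u v w a b c d) :
    d * ((Y * Z + Z * Y) * X - X * (Y * Z + Z * Y)) = 0 := by
  have e := h.rot.k_XY_Z
  linear_combination (norm := noncomm_ring) (1 : ℤ) • e

theorem k_ZX_Y (h : Trip X Y Z p q r t u v w a b c d) :
    d * ((Z * X + X * Z) * Y - Y * (Z * X + X * Z)) = 0 := by
  have e := h.swp.k_XY_Z
  linear_combination (norm := noncomm_ring) (-1 : ℤ) • e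

theorem k_XX_ZZ (h : Trip X Y Z p q r t u v w a b c d) :
    d * ((X * X) * (Z * Z) - (Z * Z) * (X * X)) = 0 := by
  have e := h.rot.k_YY_ZZ
  linear_combination (norm := noncomm_ring) (-1 : ℤ) • e

theorem k_XX_YZ (h : Trip X Y Z p q r t u v w a b c d) :
    d * ((X * X) * (Y * Z + Z * Y) - (Y * Z + Z * Y) * (X * X)) = 0 := by
  have e := h.rot.k_ZZ_XY
  linear_combination (norm := noncomm_ring) (1 : ℤ) • e

theorem k_YY_ZX (h : Trip X Y Z p q r t u v w a b c d) :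
    d * ((Y * Y) * (Z * X + X * Z) - (Z * X + X * Z) * (Y * Y)) = 0 := by
  have e := h.swp.k_ZZ_XY
  linear_combination (norm := noncomm_ring) (-1 : ℤ) • e

theorem k_YZ_ZX (h : Trip X Y Z p q r t u v w a b c d) :
    d * ((Y * Z + Z * Y) * (Z * X + X * Z) - (Z * X + X * Z) * (Y * Z + Z * Y)) = 0 := by
  have e := h.rot.k_XY_YZ
  linear_combination (norm := noncomm_ring) (1 : ℤ) • e

theorem k_YY_Z (h : Trip X Y Z p q r t u v w a b c d) :
    d * ((Y * Y) * Z - Z * (Y * Y)) = 0 := by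
  have e := h.rot.k_XX_Y
  linear_combination (norm := noncomm_ring) (1 : ℤ) • e

theorem k_XX_Z (h : Trip X Y Z p q r t u v w a b c d) :
    d * ((X * X) * Z - Z * (X * X)) = 0 := by
  have e := h.swp.k_XX_Y
  linear_combination (norm := noncomm_ring) (-1 : ℤ) • e

theorem k_XX_XY (h : Trip X Y Z p q r t u v w a b c d) :
    d * ((X * X) * (X * Y + Y * X) - (X * Y + Y * X) * (X * X)) = 0 := by
  have e := h.rot.k_ZZ_ZX
  linear_combination (norm := noncomm_ring) (1 : ℤ) • e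

theorem k_YY_XY (h : Trip X Y Z p q r t u v w a b c d) :
    d * ((Y * Y) * (X * Y + Y * X) - (X * Y + Y * X) * (Y * Y)) = 0 := by
  have e := h.swp.k_ZZ_ZX
  linear_combination (norm := noncomm_ring) (-1 : ℤ) • e

theorem k_XX_ZX (h : Trip X Y Z p q r t u v w a b c d) :
    d * ((X * X) * (Z * X + X * Z) - (Z * X + X * Z) * (X * X)) = 0 := by
  have e := h.rot.k_ZZ_YZ
  linear_combination (norm := noncomm_ring) (1 : ℤ) • e

theorem k_XX_YY (h : Trip X Y Z p q r t u v w a b c d) :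
    d * ((X * X) * (Y * Y) - (Y * Y) * (X * X)) = 0 := by
  have e := h.rot.k_XX_ZZ
  linear_combination (norm := noncomm_ring) (-1 : ℤ) • e

theorem k_XY_ZX (h : Trip X Y Z p q r t u v w a b c d) :
    d * ((X * Y + Y * X) * (Z * X + X * Z) - (Z * X + X * Z) * (X * Y + Y * X)) = 0 := by
  have e := h.rot.k_YZ_ZX
  linear_combination (norm := noncomm_ring) (-1 : ℤ) • e

theorem k_ZZ_X (h : Trip X Y Z p q r t u v w a b c d) :
    d * ((Z * Z) * X - X * (Z * Z)) = 0 := by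
  have e := h.rot.k_YY_Z
  linear_combination (norm := noncomm_ring) (1 : ℤ) • e

theorem k_ZZ_Y (h : Trip X Y Z p q r t u v w a b c d) :
    d * ((Z * Z) * Y - Y * (Z * Z)) = 0 := by
  have e := h.swp.k_YY_Z
  linear_combination (norm := noncomm_ring) (-1 : ℤ) • e

theorem k_YY_X (h : Trip X Y Z p q r t u v w a b c d) :
    d * ((Y * Y) * X - X * (Y * Y)) = 0 := by
  have e := h.rot.k_XX_Z
  linear_combination (norm := noncomm_ring) (1 : ℤ) • e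

theorem s3_XX (h : Trip X Y Z p q r t u v w a b c d)
    (w_ZX_k_XX_Y : d * (Z * X + X * Z) * ((X * X) * Y - Y * (X * X)) = 0)
    (w_XY_k_XX_Z : d * (X * Y + Y * X) * ((X * X) * Z - Z * (X * X)) = 0)
    (w_XX_k_XY_Z : d * (X * X) * ((X * Y + Y * X) * Z - Z * (X * Y + Y * X)) = 0)
    (w_XX_k_YZ_X : d * (X * X) * ((Y * Z + Z * Y) * X - X * (Y * Z + Z * Y)) = 0)
    : d * ((X * X) * (X * (Y * Z - Z * Y) + Y * (Z * X - X * Z) + Z * (X * Y - Y * X)) - (X * (Y * Z - Z * Y) + Y * (Z * X - X * Z) + Z * (X * Y - Y * X)) * (X * X)) = 0 := by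
  have k_YZ_X := h.k_YZ_X
  have k_ZX_Y := h.k_ZX_Y
  have k_XY_ZX := h.k_XY_ZX
  have eNr := h.eNr
  have hu1 := h.hu1
  have uX := h.uX
  have hbx := h.hbx
  have eth := h.eth
  have eNq := h.eNq
  have hu2 := h.hu2
  have k_XX_XY := h.k_XX_XY
  have k_XX_ZX := h.k_XX_ZX
  have k_XX_Z := h.k_XX_Z
  have k_XX_Y := h.k_XX_Y
  have key : (6 : E) * (d * ((X * X) * (X * (Y * Z - Z * Y) + Y * (Z * X - X * Z) + Z * (X * Y - Y * X)) - (X * (Y * Z - Z * Y) + Y * (Z * X - X * Z) + Z * (X * Y - Y * X)) * (X * X))) = 0 := by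
    linear_combination (norm := noncomm_ring)
      - 6 * (k_YZ_X * (X * X)) - 12 * (k_ZX_Y * (X * X)) + 9 * (k_XY_ZX * (X)) - 3 * (eNr * (X *
        Z * X)) + 3 * (eNr * (Z * X * X)) + 2 * (eNr * (q * X)) - 2 * ((d) * hu1 * (X)) - 4 *
        ((d) * uX) + 6 * ((d) * hbx * (X)) - 12 * (eth * (X * X)) - 3 * (eNq * (X * Y * X)) + 3
        * (eNq * (Y * X * X)) + 2 * ((d) * hu2 * (X)) - 2 * (eNq * (r * X)) + 18 * (k_XX_XY *
        (Z)) - 18 * (k_XX_ZX * (Y)) - 18 * (w_ZX_k_XX_Y) - 18 * (k_XX_Z * (Y * X)) + 18 *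
        (k_XX_Y * (Z * X)) + 18 * (w_XY_k_XX_Z) - 24 * (w_XX_k_XY_Z) - 12 * (w_XX_k_YZ_X)
  exact h.tf 6 _ (by norm_num) (by exact_mod_cast key)

theorem s3_XY (h : Trip X Y Z p q r t u v w a b c d)
    (w_XY_k_YZ_X : d * (X * Y + Y * X) * ((Y * Z + Z * Y) * X - X * (Y * Z + Z * Y)) = 0)
    (w_ZX_k_YY_X : d * (Z * X + X * Z) * ((Y * Y) * X - X * (Y * Y)) = 0)
    (w_XY_k_XY_Z : d * (X * Y + Y * X) * ((X * Y + Y * X) * Z - Z * (X * Y + Y * X)) = 0)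
    (w_YZ_k_XX_Y : d * (Y * Z + Z * Y) * ((X * X) * Y - Y * (X * X)) = 0)
    (w_YY_k_XX_Z : d * (Y * Y) * ((X * X) * Z - Z * (X * X)) = 0)
    (w_XX_k_YY_Z : d * (X * X) * ((Y * Y) * Z - Z * (Y * Y)) = 0)
    : d * ((X * Y + Y * X) * (X * (Y * Z - Z * Y) + Y * (Z * X - X * Z) + Z * (X * Y - Y * X)) - (X * (Y * Z - Z * Y) + Y * (Z * X - X * Z) + Z * (X * Y - Y * X)) * (X * Y + Y * X)) = 0 := by
  have k_XY_Z := h.k_XY_Z
  have k_YZ_X := h.k_YZ_X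
  have k_ZX_Y := h.k_ZX_Y
  have k_XY_ZX := h.k_XY_ZX
  have k_XY_YZ := h.k_XY_YZ
  have k_XX_Y := h.k_XX_Y
  have eNr := h.eNr
  have eNp := h.eNp
  have ht1 := h.ht1
  have hx1 := h.hx1
  have eth := h.eth
  have k_YY_X := h.k_YY_X
  have k_YY_ZX := h.k_YY_ZX
  have hby := h.hby
  have ht2 := h.ht2
  have hv2 := h.hv2
  have uY := h.uY
  have hu1 := h.hu1
  have hy1 := h.hy1
  have ht3 := h.ht3
  have dr := h.dr
  have hbx := h.hbx
  have hv1 := h.hv1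
  have k_XX_YZ := h.k_XX_YZ
  have key : (9 : E) * (d * ((X * Y + Y * X) * (X * (Y * Z - Z * Y) + Y * (Z * X - X * Z) + Z * (X * Y - Y * X)) - (X * (Y * Z - Z * Y) + Y * (Z * X - X * Z) + Z * (X * Y - Y * X)) * (X * Y + Y * X))) = 0 := by
    linear_combination (norm := noncomm_ring)
      - 42 * (k_XY_Z * (Y * X)) - 6 * (k_YZ_X * (X * Y)) - 30 * (k_ZX_Y * (Y * X)) - 45 *
        (w_XY_k_YZ_X) - 48 * (k_ZX_Y * (X * Y)) + 45 * (w_ZX_k_YY_X) - 45 * (k_XY_ZX * (Y)) - 27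
        * (w_XY_k_XY_Z) + 36 * (k_XY_YZ * (X)) - 36 * (w_YZ_k_XX_Y) + 18 * (k_XX_Y * (Y * Z)) -
        3 * (eNr * (X * Z * Y)) - 9 * (eNp * (X * X * Y)) + 18 * ((d) * ht1 * (X * Y)) - 6 *
        ((d) * hx1 * (Z * Y)) - 6 * (eth * (X * Y)) - 36 * (k_YY_X * (Z * X)) + 36 *
        (w_YY_k_XX_Z) + 36 * (k_YY_ZX * (X)) + 6 * ((d) * hby * (X)) + 18 * (k_XX_Y * (Z * Y)) -
        30 * (eth * (Y * X)) - 4 * (k_XY_Z * (r)) + 4 * (eth * (r)) + 12 * ((d) * ht1 * (r)) + 6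
        * (eNp * (r * X)) - 12 * ((d * p) * hx1) - 2 * (k_ZX_Y * (r)) + 6 * (k_YY_X * (q)) + 4 *
        ((d * r) * ht2) - 4 * ((d * r) * ht1) + 4 * ((d) * hx1 * (p)) + 4 * ((d) * hv2 * (X)) -
        4 * ((d) * uY) - 4 * ((d) * hu1 * (Y)) + 12 * (eNr * (Z * Y * X)) + 6 * (eNr * (Z * X *
        Y)) - 8 * ((d) * hy1 * (q)) - 6 * (eNr * (Y * Z * X)) - 12 * ((d) * ht3 * (Y * X)) + 4 *
        ((d) * dr) + 4 * ((d * Y) * hu1) + 12 * ((d) * hy1 * (X * Z)) - 6 * (eNr * (Y * X * Z))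
        - 12 * ((d * Y) * ht3 * (X)) - 6 * ((d * Y) * hbx) + 12 * ((d * Z) * hy1 * (X)) - 6 *
        ((d * X) * hv1) - 18 * ((d) * ht1 * (Y * X)) + 9 * (eNp * (X * Y * X)) - 2 * ((d * X) *
        hv2) - 3 * (eNr * (X * Y * Z)) + 6 * ((d) * hx1 * (Y * Z)) + 6 * ((d * X * Z) * hy1) - 2
        * (eNr * (p * X)) + 2 * (eNr * (q * Y)) - 6 * ((d * Z * X) * hy1) + 6 * ((d) * hbx *
        (Y)) + 2 * (eNr * (Y * q)) - 36 * (k_YY_X * (X * Z)) - 18 * (k_XX_YZ * (Y)) - 18 *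
        (w_XX_k_YY_Z)
  exact h.tf 9 _ (by norm_num) (by exact_mod_cast key)

end Trip
end Pool.Agent.Mal3
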