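import Pool.Agent.Mal3.Free
import Pool.Agent.Mal3.Trip
import Pool.Agent.Mal3.Sl2

set_option autoImplicit false
set_option linter.unusedSectionVars false

namespace Pool.Agent.Mal3

open Pool.Agent.MAL

section words

variable (F : Type) [Field F]

/-- formal combinations of words -/
abbrev V3 := List (Fin 3) →₀ F

/-- put a letter in front -/
noncomputable def cons (k : Fin 3) : V3 F →ₗ[F] V3 F := Finsupp.lmapDomain F F (List.cons k)

theorem cons_single (k : Fin 3) (l : List (Fin 3)) (c : F) :
    cons F k (Finsupp.single l c) = Finsupp.single (k :: l) c := by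
  unfold cons
  rw [Finsupp.lmapDomain_apply, Finsupp.mapDomain_single]

/-- replace the letter `i` by `j`, on words -/
noncomputable def subw (i j : Fin 3) : List (Fin 3) → V3 F
  | [] => 0
  | k :: l => (if k = i then Finsupp.single (j :: l) 1 else 0) + cons F k (subw i j l)

/-- replace the letter `i` by `j` -/
noncomputable def sub (i j : Fin 3) : V3 F →ₗ[F] V3 F := Finsupp.linearCombination F (subw F i j)

theorem sub_single (i j : Fin 3) (l : List (Fin 3)) :
    sub F i j (Finsupp.single l 1) = subw F i j l := by
  unfold sub
  rw [Finsupp.linearCombination_single, one_smul]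

variable {F}

/-- two linear maps that agree on words agree -/
theorem V3_ext {A : Type} [AddCommGroup A] [Module F A] {f g : V3 F →ₗ[F] A}
    (h : ∀ l, f (Finsupp.single l 1) = g (Finsupp.single l 1)) : f = g :=
  Finsupp.lhom_ext (fun l c => by
    have : (Finsupp.single l c : V3 F) = c • Finsupp.single l 1 := by
      rw [Finsupp.smul_single, smul_eq_mul, mul_one]
    rw [this, map_smul, map_smul, h])

theorem sub_cons (i j k : Fin 3) (u : V3 F) :
    sub F i j (cons F k u) = (if k = i then cons F j u else 0) + cons F k (sub F i j u) := by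
  have h : (sub F i j) ∘ₗ (cons F k) = (if k = i then cons F j else 0) + (cons F k) ∘ₗ (sub F i j) := by
    apply V3_ext
    intro l
    simp only [LinearMap.comp_apply, LinearMap.add_apply]
    rw [cons_single, sub_single, sub_single, subw]
    split_ifs
    · rw [cons_single]
    · rfl
  have := congrArg (fun f => f u) h
  simp only [LinearMap.comp_apply, LinearMap.add_apply] at this
  rw [this]
  split_ifs <;> rfl

theorem sub_comm_single (i k : Fin 3) (hik : i ≠ k) (l : List (Fin 3)) :
    sub F k i (sub F i k (Finsupp.single l 1)) - sub F i k (sub F k i (Finsupp.single l 1))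
      = (((l.count i : ℤ) - (l.count k : ℤ) : ℤ) : F) • (Finsupp.single l 1 : V3 F) := by
  induction l with
  | nil =>
    rw [sub_single, sub_single, subw, subw, map_zero, map_zero, sub_zero]
    simp
  | cons a l ih =>
    rw [← cons_single, sub_cons, sub_cons]
    simp only [map_add, apply_ite (sub F k i), apply_ite (sub F i k), map_zero, sub_cons]
    have ih' : sub F k i (sub F i k (Finsupp.single l 1))
        = sub F i k (sub F k i (Finsupp.single l 1))
        + (((l.count i : ℤ) - (l.count k : ℤ) : ℤ) : F) • (Finsupp.single l 1 : V3 F) := by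
      rw [← ih]; abel
    rw [ih', map_add, map_smul]
    have hki : k ≠ i := fun h => hik h.symm
    by_cases h1 : a = i
    · subst h1
      simp only [if_true, if_neg hik, List.count_cons_self, List.count_cons_of_ne hik, zero_add]
      push_cast
      module
    · by_cases h2 : a = k
      · subst h2
        simp only [if_true, if_neg h1, List.count_cons_self, List.count_cons_of_ne h1, zero_add]
        push_cast
        module
      · simp only [if_neg h1, if_neg h2, List.count_cons_of_ne h1, List.count_cons_of_ne h2,
          zero_add]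
        abel

/-- words with prescribed numbers of two letters -/
noncomputable def S2 (F : Type) [Field F] (i k : Fin 3) (p r : ℤ) : Submodule F (V3 F) :=
  Finsupp.supported F F {l | (l.count i : ℤ) = p ∧ (l.count k : ℤ) = r}

theorem supp_ind {A : Type} [AddCommGroup A] [Module F A] (s : Set (List (Fin 3)))
    (f : V3 F →ₗ[F] A) (T : Submodule F A) (h : ∀ l ∈ s, f (Finsupp.single l 1) ∈ T)
    (u : V3 F) (hu : u ∈ Finsupp.supported F F s) : f u ∈ T := by
  rw [Finsupp.supported_eq_span_single] at hu
  induction hu using Submodule.span_induction with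
  | mem x hx =>
    obtain ⟨l, hl, rfl⟩ := hx
    exact h l hl
  | zero => rw [map_zero]; exact Submodule.zero_mem _
  | add x y _ _ hx hy => rw [map_add]; exact Submodule.add_mem _ hx hy
  | smul c x _ hx => rw [map_smul]; exact Submodule.smul_mem _ _ hx

theorem subw_mem (i k : Fin 3) (hik : i ≠ k) (l : List (Fin 3)) :
    subw F i k l ∈ S2 F i k ((l.count i : ℤ) - 1) ((l.count k : ℤ) + 1) := by
  induction l with
  | nil => exact Submodule.zero_mem _
  | cons a l ih =>
    rw [subw]
    apply Submodule.add_mem
    · split_ifs with h
      · subst h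
        apply Finsupp.single_mem_supported
        have e1 := List.count_cons_of_ne (l := l) hik
        have e2 := List.count_cons_of_ne (l := l) (Ne.symm hik)
        constructor
        · rw [List.count_cons_self, e2]; push_cast; ring
        · rw [List.count_cons_self, e1]; push_cast; ring
      · exact Submodule.zero_mem _
    · refine supp_ind _ _ _ ?_ _ ih
      intro l' hl'
      rw [cons_single]
      apply Finsupp.single_mem_supported
      obtain ⟨h1, h2⟩ := hl'
      constructor
      · rw [List.count_cons, List.count_cons]
        push_cast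
        rw [h1]; ring
      · rw [List.count_cons, List.count_cons]
        push_cast
        rw [h2]; ring

theorem sub_mem (i k : Fin 3) (hik : i ≠ k) (p r : ℤ) (u : V3 F) (hu : u ∈ S2 F i k p r) :
    sub F i k u ∈ S2 F i k (p - 1) (r + 1) := by
  refine supp_ind _ _ _ ?_ _ hu
  rintro l ⟨h1, h2⟩
  rw [sub_single, ← h1, ← h2]
  exact subw_mem i k hik l

theorem S2_swap (i k : Fin 3) (p r : ℤ) : S2 F i k p r = S2 F k i r p := by
  unfold S2
  congr 1
  ext l
  exact and_comm

theorem sub_mem' (i k : Fin 3) (hik : i ≠ k) (p r : ℤ) (u : V3 F) (hu : u ∈ S2 F i k p r) :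
    sub F k i u ∈ S2 F i k (p + 1) (r - 1) := by
  rw [S2_swap] at hu ⊢
  exact sub_mem k i (Ne.symm hik) r p u hu

theorem S2_neg1 (i k : Fin 3) (p r : ℤ) (u : V3 F) (hu : u ∈ S2 F i k p r) (hp : p < 0) :
    u = 0 := by
  have : u ∈ (⊥ : Submodule F (V3 F)) := by
    refine supp_ind _ LinearMap.id ⊥ ?_ _ hu
    rintro l ⟨h1, h2⟩
    omega
  simpa using this

theorem S2_neg2 (i k : Fin 3) (p r : ℤ) (u : V3 F) (hu : u ∈ S2 F i k p r) (hp : r < 0) :
    u = 0 := by
  rw [S2_swap] at hu
  exact S2_neg1 k i r p u hu hp

/-- linear maps that agree on the words of a given weight -/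
theorem S2_eq {A : Type} [AddCommGroup A] [Module F A] (s : Set (List (Fin 3)))
    (f g : V3 F →ₗ[F] A) (h : ∀ l ∈ s, f (Finsupp.single l 1) = g (Finsupp.single l 1))
    (u : V3 F) (hu : u ∈ Finsupp.supported F F s) : f u = g u := by
  have : (f - g) u ∈ (⊥ : Submodule F A) := by
    refine supp_ind s (f - g) ⊥ ?_ u hu
    intro l hl
    rw [LinearMap.sub_apply, h l hl, sub_self]
    exact Submodule.zero_mem _
  rw [Submodule.mem_bot, LinearMap.sub_apply, sub_eq_zero] at this
  exact this

theorem sub_comm (i k : Fin 3) (hik : i ≠ k) (p r : ℤ) (u : V3 F) (hu : u ∈ S2 F i k p r) :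
    sub F k i (sub F i k u) - sub F i k (sub F k i u) = ((p - r : ℤ) : F) • u := by
  have := S2_eq {l | (l.count i : ℤ) = p ∧ (l.count k : ℤ) = r}
    ((sub F k i) ∘ₗ (sub F i k) - (sub F i k) ∘ₗ (sub F k i)) (((p - r : ℤ) : F) • LinearMap.id)
    (by
      rintro l ⟨h1, h2⟩
      have := sub_comm_single (F := F) i k hik l
      simp only [LinearMap.sub_apply, LinearMap.comp_apply, LinearMap.smul_apply,
        LinearMap.id_apply]
      rw [this, h1, h2]) u hu
  simpa only [LinearMap.sub_apply, LinearMap.comp_apply, LinearMap.smul_apply,
        LinearMap.id_apply] using this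

end words

section A3

variable {F : Type} [Field F]

/-- a formal combination of words applied to an element -/
noncomputable def actL (c : A3 F) : V3 F →ₗ[F] A3 F := Finsupp.linearCombination F (act (gen F) c)

theorem actL_single (c : A3 F) (l : List (Fin 3)) :
    actL c (Finsupp.single l 1) = act (gen F) c l := by
  unfold actL
  rw [Finsupp.linearCombination_single, one_smul]

theorem actL_cons (c : A3 F) (k : Fin 3) (u : V3 F) :
    actL c (cons F k u) = actL c u * gen F k := by
  have h : (actL c) ∘ₗ (cons F k) = (LinearMap.mulRight F (gen F k)) ∘ₗ (actL c) := by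
    apply V3_ext
    intro l
    simp only [LinearMap.comp_apply, LinearMap.mulRight_apply]
    rw [cons_single, actL_single, actL_single, act]
  exact congrArg (fun f => f u) h

/-- substitutions are induced by derivations -/
theorem actL_sub (D : A3 F →ₗ[F] A3 F) (hD : ∀ a b, D (a * b) = D a * b + a * D b) (i j : Fin 3)
    (hg : ∀ k, D (gen F k) = if k = i then gen F j else 0) (c : A3 F) (hc : D c = 0) (u : V3 F) :
    D (actL c u) = actL c (sub F i j u) := by
  have h : D ∘ₗ (actL c) = (actL c) ∘ₗ (sub F i j) := by
    apply V3_ext
    intro l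
    simp only [LinearMap.comp_apply]
    rw [actL_single, sub_single]
    induction l with
    | nil => rw [act, hc, subw, map_zero]
    | cons k l ih =>
      rw [act, hD, ih, hg, subw, map_add, actL_cons, add_comm]
      congr 1
      split_ifs
      · rw [actL_single]; rfl
      · rw [mul_zero, map_zero]
  exact congrArg (fun f => f u) h

/-- the first derivation formula -/
theorem der_one [CharZero F] (i k : Fin 3) (w cxx cxz : A3 F)
    (hstar : ∀ l, (2 : F) • (act (gen F) w l * ((gen F k * gen F i) * gen F i))
      = (2 : F) • (act (gen F) cxx l * gen F k) - act (gen F) cxz l * gen F i)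
    (D : A3 F →ₗ[F] A3 F) (hD : ∀ a b, D (a * b) = D a * b + a * D b)
    (hg : ∀ j, D (gen F j) = if j = k then (gen F k * gen F i) * gen F i else 0)
    (hw : D w = cxx) (l : List (Fin 3)) :
    (2 : F) • D (act (gen F) w l) = ((2 : F) + 2 * (l.count k : F)) • act (gen F) cxx l
      - actL cxz (subw F k i l) := by
  induction l with
  | nil => simp [act, hw, subw]
  | cons a l ih =>
    have e1 : (2 : F) • D (act (gen F) w (a :: l)) = ((2 : F) • D (act (gen F) w l)) * gen F a
        + (2 : F) • (act (gen F) w l * D (gen F a)) := by
      rw [act, hD, smul_add, smul_mul_assoc]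
    rw [e1, ih, sub_mul, smul_mul_assoc, hg, subw, map_add, actL_cons]
    by_cases h : a = k
    · subst h
      rw [if_pos rfl, if_pos rfl, hstar, actL_single, List.count_cons_self]
      simp only [act]
      push_cast
      module
    · rw [if_neg h, if_neg h, mul_zero, smul_zero, map_zero, List.count_cons_of_ne h]
      simp only [act]
      module

/-- the second derivation formula -/
theorem der_two [CharZero F] (i k : Fin 3) (w cxx cxz : A3 F)
    (hstar : ∀ l, (2 : F) • (act (gen F) w l * ((gen F k * gen F i) * gen F i))
      = (2 : F) • (act (gen F) cxx l * gen F k) - act (gen F) cxz l * gen F i)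
    (D : A3 F →ₗ[F] A3 F) (hD : ∀ a b, D (a * b) = D a * b + a * D b)
    (hg : ∀ j, D (gen F j) = if j = i then -((gen F k * gen F i) * gen F i) else 0)
    (hw : (2 : F) • D w = cxz) (l : List (Fin 3)) :
    (2 : F) • D (act (gen F) w l) = ((1 : F) + (l.count i : F)) • act (gen F) cxz l
      - (2 : F) • actL cxx (subw F i k l) := by
  induction l with
  | nil => simp [act, hw, subw]
  | cons a l ih =>
    have e1 : (2 : F) • D (act (gen F) w (a :: l)) = ((2 : F) • D (act (gen F) w l)) * gen F a
        + (2 : F) • (act (gen F) w l * D (gen F a)) := by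
      rw [act, hD, smul_add, smul_mul_assoc]
    rw [e1, ih, sub_mul, smul_mul_assoc, hg, subw, map_add, actL_cons]
    by_cases h : a = i
    · subst h
      rw [if_pos rfl, if_pos rfl, mul_neg, smul_neg, hstar, actL_single, List.count_cons_self]
      simp only [act]
      push_cast
      rw [smul_mul_assoc]
      module
    · rw [if_neg h, if_neg h, mul_zero, smul_zero, map_zero, List.count_cons_of_ne h]
      simp only [act]
      rw [smul_mul_assoc]
      module

end A3

end Pool.Agent.Mal3
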