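import Pool.Agent.Mal3.WD

set_option autoImplicit false
set_option linter.unusedSectionVars false

namespace Pool.Agent.Mal3

open Pool.Agent.MAL

section gen

variable {M E : Type} [NonUnitalNonAssocRing M] [Ring E] (P : ERep M E)

theorem jac_add_right (x y a b : M) : jac x y (a + b) = jac x y a + jac x y b := by
  unfold jac; simp only [mul_add, add_mul]; abel

include P in
theorem jac_zxx1 (x y z : M) : jac x y ((z * x) * x) = (jac x y z * x) * x := by
  rw [← sub_eq_zero]
  apply P.el_inj
  rw [map_sub]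
  have h1 := el_N P ((z * x) * x) x y
  have h2 := el_N P z x y
  have hb := P.base x y z
  have hx1 := hb.hx1
  have e1 : P.el (jac x y z * x * x) = P.el (jac x y z) * P.R x * P.R x := by
    rw [P.el_mul, P.el_mul]
  have e2 : P.el (z * x * x) = P.el z * P.R x * P.R x := by
    rw [P.el_mul, P.el_mul]
  rw [e2] at h1
  rw [e1]
  linear_combination (norm := noncomm_ring)
    h1 - 1 * (h2 * (P.R x * P.R x)) + 1 * ((P.el z) * hx1 * (P.R x))
      - 1 * ((P.el z * P.R x) * hx1)

include P in
theorem jac_zxx2 (x y z : M) (hz : z * z = 0) :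
    jac (-((z * x) * x)) y z + jac (-((z * x) * x)) y z
      = (jac x y z * x) * z + (jac x y z * z) * x := by
  rw [← sub_eq_zero]
  apply P.el_inj
  have hneg : ∀ a : M, jac (-a) y z = - jac y z a := by
    intro a
    unfold jac
    simp only [neg_mul, mul_neg]
    abel
  rw [hneg, map_sub, map_add, map_add, map_neg]
  have h1 := el_N P ((z * x) * x) y z
  have cr := el_N P z x y
  have cp : P.el z * P.N y z = 0 := by
    have := el_N P z y z
    rw [this]
    unfold jac
    rw [hz, zero_mul, add_zero, P.anti y z]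
    simp
  have cq : P.el z * P.N z x = 0 := by
    have := el_N P z z x
    rw [this]
    unfold jac
    rw [hz, zero_mul, add_zero, P.anti z x]
    simp
  have cZ : P.el z * P.R z = 0 := by
    rw [P.el_mul, hz, map_zero]
  have hb := P.base x y z
  have hx1 := hb.hx1
  have hx2 := hb.hx2
  have ht1 := hb.ht1
  have ht2 := hb.ht2
  have ht3 := hb.ht3
  have hbx := hb.hbx
  have e1 : P.el (jac x y z * x * z) = P.el (jac x y z) * P.R x * P.R z := by
    rw [P.el_mul, P.el_mul]
  have e3 : P.el (jac x y z * z * x) = P.el (jac x y z) * P.R z * P.R x := by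
    rw [P.el_mul, P.el_mul]
  have e2 : P.el (z * x * x) = P.el z * P.R x * P.R x := by
    rw [P.el_mul, P.el_mul]
  rw [e2] at h1
  rw [e1, e3]
  linear_combination (norm := noncomm_ring)
    -2 * h1 - 1 * (cr * (P.R z * P.R x)) - 1 * (cr * (P.R x * P.R z))
      - 2 * ((P.el z) * ht1 * (P.R x)) + 1 * ((P.el z) * ht3 * (P.R x))
      + 2 * (cp * (P.R x * P.R x)) - 1 * ((P.el z * P.R z) * hx1) + 2 * (cZ * (P.R x * P.N x y))
      + 1 * ((P.el z) * hx1 * (P.R z)) + 2 * ((P.el z * P.R x) * ht1)
      - 1 * ((P.el z * P.R x) * ht3) + 1 * ((P.el z * P.R y) * hx2) + 1 * (cq * (P.R y * P.R x))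
      - 1 * ((P.el z) * ht2 * (P.R x)) - 1 * ((P.el z * P.R x) * ht2)
      - 1 * (cq * (P.R x * P.R y)) + 1 * ((P.el z) * hx2 * (P.R y)) - 1 * ((P.el z) * hbx)

end gen

section A3

variable (F : Type) [Field F] [CharZero F]

/-- the representation of the free algebra -/
noncomputable abbrev PA : ERep (A3 F) (OpR F (A3 F)) := erep F (A3_malcev F)

theorem star_A3 (i j k : Fin 3) (hij : i ≠ j) (hjk : j ≠ k) (hik : i ≠ k) (l : List (Fin 3)) :
    (2 : F) • (act (gen F) (jac (gen F i) (gen F j) (gen F k)) l
        * ((gen F k * gen F i) * gen F i))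
      = (2 : F) • (act (gen F) ((jac (gen F i) (gen F j) (gen F k) * gen F i) * gen F i) l
          * gen F k)
        - act (gen F) ((jac (gen F i) (gen F j) (gen F k) * gen F i) * gen F k
          + (jac (gen F i) (gen F j) (gen F k) * gen F k) * gen F i) l * gen F i := by
  have hsplit : ∀ i j k m : Fin 3, i ≠ j → j ≠ k → i ≠ k → m = i ∨ m = j ∨ m = k := by decide
  have h := star (PA F) (fun c => (2 : F)⁻¹ • c) (by
    intro c
    have h2 : (2 : F)⁻¹ • c + (2 : F)⁻¹ • c = c := by
      rw [← add_smul]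
      have : (2 : F)⁻¹ + 2⁻¹ = 1 := by norm_num
      rw [this, one_smul]
    rw [two_mul, ← map_add, h2]) (gen F i) (gen F j) (gen F k) (gen F) (by
      intro m
      rcases hsplit i j k m hij hjk hik with h | h | h
      · left; rw [h]
      · right; left; rw [h]
      · right; right; rw [h]) l
  rw [← sub_eq_zero]
  apply (PA F).el_inj
  rw [two_smul, two_smul, map_sub, map_sub, map_add, map_add, ← two_mul, ← two_mul, h, sub_self]

theorem wd_pair (i j k : Fin 3) (hij : i ≠ j) (hjk : j ≠ k) (hik : i ≠ k) (p r : ℤ) (u : V3 F)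
    (hu : u ∈ S2 F i k p r)
    (h0 : actL (jac (gen F i) (gen F j) (gen F k)) u = 0) :
    actL ((jac (gen F i) (gen F j) (gen F k) * gen F i) * gen F i) u = 0 ∧
    actL ((jac (gen F i) (gen F j) (gen F k) * gen F i) * gen F k
          + (jac (gen F i) (gen F j) (gen F k) * gen F k) * gen F i) u = 0 := by
  set w := jac (gen F i) (gen F j) (gen F k) with hw
  set cxx := (w * gen F i) * gen F i with hcxx
  set cxz := (w * gen F i) * gen F k + (w * gen F k) * gen F i with hcxz
  have hstar := star_A3 F i j k hij hjk hik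
  rw [← hw, ← hcxx, ← hcxz] at hstar
  -- derivations
  obtain ⟨D1, hD1, hg1⟩ := exists_der (F := F)
    (fun j => if j = k then (gen F k * gen F i) * gen F i else 0)
  obtain ⟨D2, hD2, hg2⟩ := exists_der (F := F)
    (fun j => if j = i then -((gen F k * gen F i) * gen F i) else 0)
  obtain ⟨DE, hDE, hgE⟩ := exists_der (F := F) (fun j => if j = k then gen F i else 0)
  obtain ⟨DG, hDG, hgG⟩ := exists_der (F := F) (fun j => if j = i then gen F k else 0)
  have hw1 : D1 w = cxx := by
    rw [hcxx, hw, ← jac_zxx1 (PA F)]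
    unfold jac
    simp only [map_add, hD1, hg1, if_neg hik, if_neg hjk, if_true, zero_mul, mul_zero, zero_add,
      add_zero]
  have hji : j ≠ i := Ne.symm hij
  have hki : k ≠ i := Ne.symm hik
  have hw2 : (2 : F) • D2 w = cxz := by
    rw [hcxz, hw, ← jac_zxx2 (PA F) _ _ _ ((A3_malcev F).sq _), two_smul]
    unfold jac
    simp only [map_add, hD2, hg2, if_neg hji, if_neg hki, if_true, zero_mul, mul_zero, zero_add,
      add_zero]
  have hwE : DE w = 0 := by
    rw [hw]
    unfold jac
    simp only [map_add, hDE, hgE, if_neg hik, if_neg hjk, if_true, zero_mul, mul_zero, zero_add,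
      add_zero]
    rw [(A3_malcev F).sq, zero_mul, add_zero, (A3_malcev F).anti (gen F j) (gen F i)]
    simp
  have hwG : DG w = 0 := by
    rw [hw]
    unfold jac
    simp only [map_add, hDG, hgG, if_neg hji, if_neg hki, if_true, zero_mul, mul_zero, zero_add,
      add_zero]
    rw [(A3_malcev F).sq, zero_mul, add_zero, (A3_malcev F).anti (gen F k) (gen F j)]
    simp
  set K : Submodule F (V3 F) := LinearMap.ker (actL w) with hK
  have r1 : ∀ p r u, u ∈ K → u ∈ S2 F i k p r →
      ((2 : F) + 2 * (r : F)) • actL cxx u = actL cxz (sub F k i u) := by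
    intro p r u huK hu
    rw [hK, LinearMap.mem_ker] at huK
    have h := S2_eq {l | (l.count i : ℤ) = p ∧ (l.count k : ℤ) = r}
      ((2 : F) • (D1 ∘ₗ (actL w)))
      (((2 : F) + 2 * (r : F)) • actL cxx - (actL cxz) ∘ₗ (sub F k i)) (by
        rintro l ⟨h1, h2⟩
        have := der_one i k w cxx cxz hstar D1 hD1 hg1 hw1 l
        simp only [LinearMap.sub_apply, LinearMap.comp_apply, LinearMap.smul_apply]
        rw [actL_single, actL_single, sub_single, this, ← h2]
        push_cast; rfl) u hu
    simp only [LinearMap.sub_apply, LinearMap.comp_apply, LinearMap.smul_apply] at h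
    rw [huK, map_zero, smul_zero] at h
    exact (sub_eq_zero.mp h.symm)
  have r2 : ∀ p r u, u ∈ K → u ∈ S2 F i k p r →
      ((1 : F) + (p : F)) • actL cxz u = (2 : F) • actL cxx (sub F i k u) := by
    intro p r u huK hu
    rw [hK, LinearMap.mem_ker] at huK
    have h := S2_eq {l | (l.count i : ℤ) = p ∧ (l.count k : ℤ) = r}
      ((2 : F) • (D2 ∘ₗ (actL w)))
      (((1 : F) + (p : F)) • actL cxz - (2 : F) • ((actL cxx) ∘ₗ (sub F i k))) (by
        rintro l ⟨h1, h2⟩
        have := der_two i k w cxx cxz hstar D2 hD2 hg2 hw2 l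
        simp only [LinearMap.sub_apply, LinearMap.comp_apply, LinearMap.smul_apply]
        rw [actL_single, actL_single, sub_single, this, ← h1]
        push_cast; rfl) u hu
    simp only [LinearMap.sub_apply, LinearMap.comp_apply, LinearMap.smul_apply] at h
    rw [huK, map_zero, smul_zero] at h
    exact (sub_eq_zero.mp h.symm)
  have hEK : ∀ u ∈ K, sub F k i u ∈ K := by
    intro u hu
    rw [hK, LinearMap.mem_ker] at hu ⊢
    rw [← actL_sub DE hDE k i hgE w hwE, hu, map_zero]
  have hGK : ∀ u ∈ K, sub F i k u ∈ K := by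
    intro u hu
    rw [hK, LinearMap.mem_ker] at hu ⊢
    rw [← actL_sub DG hDG i k hgG w hwG, hu, map_zero]
  have main : ∀ p r u, u ∈ K → u ∈ S2 F i k p r → actL cxx u = 0 := by
    apply sl2_kill (sub F k i) (sub F i k) (S2 F i k) K
      (fun p r u hu => sub_mem' i k hik p r u hu) (fun p r u hu => sub_mem i k hik p r u hu)
      hEK hGK (fun p r u hu => sub_comm i k hik p r u hu)
      (fun p r u hu hp => S2_neg1 i k p r u hu hp) (fun p r u hu hp => S2_neg2 i k p r u hu hp)
    intro p r u huK hu
    have h1 := r1 p r u huK hu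
    have h2 := r2 _ _ _ (hEK u huK) (sub_mem' i k hik p r u hu)
    rw [← h1, smul_smul] at h2
    have h3 : (2 : F) • ((((1 + r) * (2 + p) : ℤ) : F) • actL cxx u
        - actL cxx (sub F i k (sub F k i u))) = 0 := by
      rw [smul_sub, ← h2, smul_smul, ← sub_smul]
      have : (2 : F) * (((1 + r) * (2 + p) : ℤ) : F)
          - (1 + ((p + 1 : ℤ) : F)) * (2 + 2 * (r : F)) = 0 := by push_cast; ring
      rw [this, zero_smul]
    rw [smul_eq_zero] at h3
    rcases h3 with h3 | h3
    · exfalso; exact two_ne_zero h3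
    · exact sub_eq_zero.mp h3
  have huK : u ∈ K := h0
  refine ⟨main p r u huK hu, ?_⟩
  have h1 := r2 p r u huK hu
  rw [main _ _ _ (hGK u huK) (sub_mem i k hik p r u hu), smul_zero, smul_eq_zero] at h1
  rcases h1 with h1 | h1
  · have hp : p < 0 := by
      have : (1 : ℤ) + p = 0 := by exact_mod_cast h1
      omega
    rw [S2_neg1 i k p r u hu hp, map_zero]
  · exact h1

end A3

end Pool.Agent.Mal3
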