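import Pool.Agent.Mal3.ERep

set_option autoImplicit false
set_option linter.unusedSectionVars false

namespace Pool.Agent.Mal3

open Pool.Agent.MAL

/-- quadruples on which right multiplication by the letters acts formally -/
structure Comp {E : Type} [Ring E] (X Y Z nr nq np nt : E) : Prop where
  rX : nr * X + X * nr = 0
  rY : nr * Y + Y * nr = 0
  rZ : nr * Z + Z * nr = nt
  qX : nq * X + X * nq = 0
  qY : nq * Y + Y * nq = nt
  qZ : nq * Z + Z * nq = 0
  pX : np * X + X * np = nt
  pY : np * Y + Y * np = 0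
  pZ : np * Z + Z * np = 0
  tX : 2 * (nt * X) = (X * Y - Y * X) * nq - (Z * X - X * Z) * nr
  tY : 2 * (nt * Y) = (Y * Z - Z * Y) * nr - (X * Y - Y * X) * np
  tZ : 2 * (nt * Z) = (Z * X - X * Z) * np - (Y * Z - Z * Y) * nq

section
variable {E : Type} [Ring E] {X Y Z p q r t u v w : E}

theorem Base.comp (h : Base X Y Z p q r t u v w) : Comp X Y Z r q p t where
  rX := by linear_combination (norm := noncomm_ring) h.hx1
  rY := by linear_combination (norm := noncomm_ring) h.hy1
  rZ := by linear_combination (norm := noncomm_ring) h.ht3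
  qX := by linear_combination (norm := noncomm_ring) h.hx2
  qY := by linear_combination (norm := noncomm_ring) h.ht2
  qZ := by linear_combination (norm := noncomm_ring) h.hz2
  pX := by linear_combination (norm := noncomm_ring) h.ht1
  pY := by linear_combination (norm := noncomm_ring) h.hy2
  pZ := by linear_combination (norm := noncomm_ring) h.hz1
  tX := h.hbx
  tY := h.hby
  tZ := h.hbz

theorem Base.compxx (h : Base X Y Z p q r t u v w) :
    Comp X Y Z (3 * (r * (X * X))) (3 * (q * (X * X))) (3 * (p * (X * X)) + u)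
      (3 * (t * (X * X)) + X * u) where
  rX := h.xx_rX
  rY := h.xx_rY
  rZ := h.xx_rZ
  qX := h.xx_qX
  qY := h.xx_qY
  qZ := h.xx_qZ
  pX := h.xx_pX
  pY := h.xx_pY
  pZ := h.xx_pZ
  tX := h.xx_tX
  tY := h.xx_tY
  tZ := h.xx_tZ

theorem Base.compxz (h : Base X Y Z p q r t u v w) :
    Comp X Y Z (3 * (r * (X * Z + Z * X)) + u) (3 * (q * (X * Z + Z * X)))
      (3 * (p * (X * Z + Z * X)) + w) (3 * (t * (X * Z + Z * X)) + Z * u + X * w) where
  rX := h.xz_rX
  rY := h.xz_rY
  rZ := h.xz_rZ
  qX := h.xz_qX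
  qY := h.xz_qY
  qZ := h.xz_qZ
  pX := h.xz_pX
  pY := h.xz_pY
  pZ := h.xz_pZ
  tX := h.xz_tX
  tY := h.xz_tY
  tZ := h.xz_tZ

end

section
variable {M E : Type} [NonUnitalNonAssocRing M] [Ring E] (P : ERep M E)

/-- the word operator; the head of the list is applied last -/
def wdE (g : Fin 3 → M) : List (Fin 3) → E
  | [] => 1
  | k :: l => wdE g l * P.R (g k)

/-- the word action on elements; the head of the list is applied last -/
def act (g : Fin 3 → M) (c : M) : List (Fin 3) → M
  | [] => c
  | k :: l => act g c l * g k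

theorem el_act (g : Fin 3 → M) (c : M) (l : List (Fin 3)) :
    P.el (act g c l) = P.el c * wdE P g l := by
  induction l with
  | nil => simp [act, wdE]
  | cons k l ih => rw [act, wdE, ← P.el_mul, ih, mul_assoc]

/-- the Jacobian -/
def jac (x y z : M) : M := (x * y) * z + (y * z) * x + (z * x) * y

theorem el_N (z x y : M) : P.el z * P.N x y = - P.el (jac x y z) := by
  unfold Rep.N jac
  have h1 : P.el z * P.R (x * y) = - P.el ((x * y) * z) := by
    rw [P.el_mul, P.anti (x * y) z, map_neg]
  have h2 : P.el z * (P.R x * P.R y) = P.el ((z * x) * y) := by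
    rw [← mul_assoc, P.el_mul, P.el_mul]
  have h3 : P.el z * (P.R y * P.R x) = - P.el ((y * z) * x) := by
    rw [← mul_assoc, P.el_mul, P.el_mul, P.anti y z, neg_mul, map_neg]
  rw [mul_sub, mul_sub, h1, h2, h3, map_add, map_add]
  noncomm_ring

theorem lift_exists (half : M → M) (hhalf : ∀ c, 2 * P.el (half c) = P.el c) (x y z : M)
    (g : Fin 3 → M) (hg : ∀ k, g k = x ∨ g k = y ∨ g k = z) (l : List (Fin 3)) :
    ∃ cr cq cp d : M, ∀ nr nq np nt : E, Comp (P.R x) (P.R y) (P.R z) nr nq np nt →
      -(P.el z * nr) * wdE P g l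
        = P.el cr * nr + P.el cq * nq + P.el cp * np + 2 * (P.el d * nt) := by
  induction l with
  | nil =>
    refine ⟨-z, 0, 0, 0, ?_⟩
    intro nr nq np nt _
    rw [wdE, map_neg, map_zero]
    noncomm_ring
  | cons k l ih =>
    obtain ⟨cr, cq, cp, d, ih⟩ := ih
    rcases hg k with hk | hk | hk
    · refine ⟨-(cr * x) - ((d * z) * x - (d * x) * z), -(cq * x) + ((d * x) * y - (d * y) * x),
        -(cp * x), half cp, ?_⟩
      intro nr nq np nt hc
      have h0 := ih nr nq np nt hc
      have hf := hhalf cp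
      rw [wdE, hk, ← mul_assoc]
      simp only [map_sub, map_add, map_neg, ← P.el_mul]
      linear_combination (norm := noncomm_ring) h0 * P.R x + P.el cr * hc.rX + P.el cq * hc.qX
        + P.el cp * hc.pX + P.el d * hc.tX - hf * nt
    · refine ⟨-(cr * y) + ((d * y) * z - (d * z) * y), -(cq * y),
        -(cp * y) - ((d * x) * y - (d * y) * x), half cq, ?_⟩
      intro nr nq np nt hc
      have h0 := ih nr nq np nt hc
      have hf := hhalf cq
      rw [wdE, hk, ← mul_assoc]
      simp only [map_sub, map_add, map_neg, ← P.el_mul]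
      linear_combination (norm := noncomm_ring) h0 * P.R y + P.el cr * hc.rY + P.el cq * hc.qY
        + P.el cp * hc.pY + P.el d * hc.tY - hf * nt
    · refine ⟨-(cr * z), -(cq * z) - ((d * y) * z - (d * z) * y),
        -(cp * z) + ((d * z) * x - (d * x) * z), half cr, ?_⟩
      intro nr nq np nt hc
      have h0 := ih nr nq np nt hc
      have hf := hhalf cr
      rw [wdE, hk, ← mul_assoc]
      simp only [map_sub, map_add, map_neg, ← P.el_mul]
      linear_combination (norm := noncomm_ring) h0 * P.R z + P.el cr * hc.rZ + P.el cq * hc.qZ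
        + P.el cp * hc.pZ + P.el d * hc.tZ - hf * nt

theorem jac_cyc (x y z : M) : jac y z x = jac x y z := by
  unfold jac; abel

theorem el_w1 (x y z : M) : P.el (jac x y z) * P.Nt x y = 0 := by
  have h := el_N P z x y
  have h1 := P.r4a x y
  linear_combination (norm := noncomm_ring) h * P.Nt x y - P.el z * h1

theorem el_w2 (x y z : M) : P.el (jac x y z) * P.Nt y z = 0 := by
  have := el_w1 P y z x
  rwa [jac_cyc] at this

theorem el_w3 (x y z : M) : P.el (jac x y z) * P.Nt z x = 0 := by
  have := el_w1 P z x y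
  rwa [← jac_cyc z x y] at this

/-- `R_{(zx)x}` -/
theorem R_zxx (x z : M) : P.R ((z * x) * x)
    = P.N z x * P.R x + P.R z * P.R x * P.R x - 2 * (P.R x * P.R z * P.R x)
      + P.R x * P.R x * P.R z := by
  rw [P.R_mul (z * x) x, P.N_mul_right, P.R_mul z x]
  noncomm_ring

/-- the fundamental identity for words -/
theorem star (half : M → M) (hhalf : ∀ c, 2 * P.el (half c) = P.el c) (x y z : M)
    (g : Fin 3 → M) (hg : ∀ k, g k = x ∨ g k = y ∨ g k = z) (l : List (Fin 3)) :
    2 * P.el (act g (jac x y z) l * ((z * x) * x))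
      = 2 * P.el (act g ((jac x y z * x) * x) l * z)
        - P.el (act g ((jac x y z * x) * z + (jac x y z * z) * x) l * x) := by
  obtain ⟨cr, cq, cp, d, H⟩ := lift_exists P half hhalf x y z g hg l
  have hb := P.base x y z
  have h0 := H _ _ _ _ hb.comp
  have h1 := H _ _ _ _ hb.compxx
  have h2 := H _ _ _ _ hb.compxz
  have hw := el_N P z x y
  have hz : P.el z * P.T x y z = 0 := by
    have e1 := el_w3 P x y z
    unfold Rep.T
    linear_combination (norm := noncomm_ring) hw * P.Nt z x - e1
  have hm : ∀ c a, P.el (c * a) = P.el c * P.R a := fun c a => (P.el_mul c a).symm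
  rw [hm _ ((z * x) * x), hm _ z, hm _ x, R_zxx, el_act, el_act, el_act, map_add]
  simp only [hm (jac x y z * x), hm (jac x y z * z), hm (jac x y z)]
  set W := wdE P g l with hW
  have hr := hb.star_r
  have hq := hb.star_q
  have hp := hb.star_p
  have ht := hb.star_t
  apply eq_of_sub_eq_zero
  apply P.three
  set s := P.el (jac x y z) with hs
  linear_combination (norm := noncomm_ring)
    6 * (h0 * (P.N z x * P.R x + P.R z * P.R x * P.R x - 2 * (P.R x * P.R z * P.R x)
      + P.R x * P.R x * P.R z))
    + 6 * (hw * W * (P.N z x * P.R x + P.R z * P.R x * P.R x - 2 * (P.R x * P.R z * P.R x)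
      + P.R x * P.R x * P.R z))
    + P.el cr * hr + P.el cq * hq + P.el cp * hp + 2 * (P.el d * ht)
    - 2 * (h1 * P.R z) - 6 * (hw * (P.R x * P.R x * W * P.R z))
    + h2 * P.R x + 3 * (hw * ((P.R x * P.R z + P.R z * P.R x) * W * P.R x))
    + hz * (W * P.R x)

end

end Pool.Agent.Mal3
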